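import Mathlib

set_option autoImplicit false

/-!
# Amalgamation of runs of vector addition systems

A run of a vector addition system (Petri net) is a word over a well-quasi-ordered alphabet, so by
Higman's lemma among infinitely many runs with the same start there are two of which the second
extends the first; such a pair can be pumped.
-/

namespace Pool.Agent.Q230.VR

open Relation

variable {ι : Type}

/-- a transition: what is consumed and what is produced -/
abbrev Tr (ι : Type) : Type := (ι → ℕ) × (ι → ℕ)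

/-- the transition `t` leads from `c` to `d` -/
def Fire (t : Tr ι) (c d : ι → ℕ) : Prop := ∃ r, c = t.1 + r ∧ d = t.2 + r

/-- one step with a transition of `S` -/
def Step (S : Set (Tr ι)) (c d : ι → ℕ) : Prop := ∃ t ∈ S, Fire t c d

/-- reachability -/
abbrev Reach (S : Set (Tr ι)) : (ι → ℕ) → (ι → ℕ) → Prop := ReflTransGen (Step S)

variable {S : Set (Tr ι)}

theorem Fire.add {t : Tr ι} {c d : ι → ℕ} (h : Fire t c d) (e : ι → ℕ) :
    Fire t (c + e) (d + e) := by
  obtain ⟨r, rfl, rfl⟩ := h
  exact ⟨r + e, by rw [add_assoc], by rw [add_assoc]⟩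

theorem Step.add {c d : ι → ℕ} (h : Step S c d) (e : ι → ℕ) : Step S (c + e) (d + e) := by
  obtain ⟨t, ht, h⟩ := h
  exact ⟨t, ht, h.add e⟩

theorem Reach.add {c d : ι → ℕ} (h : Reach S c d) (e : ι → ℕ) : Reach S (c + e) (d + e) := by
  induction h with
  | refl => exact ReflTransGen.refl
  | tail _ hs ih => exact ih.tail (Step.add hs e)

theorem shift {c v u : ι → ℕ} (h : Reach S (c + v) (c + u)) (m : ℕ) :
    Reach S (c + m • v) (c + m • u) := by
  induction m with
  | zero => simp only [zero_smul]; exact ReflTransGen.refl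
  | succ m ih =>
    have h1 := Reach.add h (m • v)
    have h2 := Reach.add ih u
    have e1 : c + (m + 1) • v = c + v + m • v := by rw [succ_nsmul']; exact (add_assoc _ _ _).symm
    have e2 : c + u + m • v = c + m • v + u := by
      rw [add_assoc, add_comm u, ← add_assoc]
    have e3 : c + (m + 1) • u = c + m • u + u := by rw [succ_nsmul]; exact (add_assoc _ _ _).symm
    rw [e1, e3]
    rw [e2] at h1
    exact h1.trans h2

/-- a run with the list of its transitions, each with the configuration after it -/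
inductive Run (S : Set (Tr ι)) : (ι → ℕ) → List (Tr ι × (ι → ℕ)) → (ι → ℕ) → Prop
  | nil (c : ι → ℕ) : Run S c [] c
  | cons {t : Tr ι} {c c1 d : ι → ℕ} {l : List (Tr ι × (ι → ℕ))} (ht : t ∈ S) (hf : Fire t c c1)
      (h : Run S c1 l d) : Run S c ((t, c1) :: l) d

theorem exists_run {c d : ι → ℕ} (h : Reach S c d) : ∃ l, Run S c l d := by
  induction h using ReflTransGen.head_induction_on with
  | refl => exact ⟨[], Run.nil _⟩
  | head hs _ ih =>
    obtain ⟨t, ht, hf⟩ := hs
    obtain ⟨l, hl⟩ := ih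
    exact ⟨_, Run.cons ht hf hl⟩

theorem Run.reach {c d : ι → ℕ} {l : List (Tr ι × (ι → ℕ))} (h : Run S c l d) : Reach S c d := by
  induction h with
  | nil c => exact ReflTransGen.refl
  | cons ht hf _ ih => exact ReflTransGen.head ⟨_, ht, hf⟩ ih

theorem Run.mem {c d : ι → ℕ} {l : List (Tr ι × (ι → ℕ))} (h : Run S c l d) :
    ∀ x ∈ l, x.1 ∈ S := by
  induction h with
  | nil c => simp
  | cons ht _ _ ih =>
    intro x hx
    rcases List.mem_cons.1 hx with rfl | hx
    · exact ht
    · exact ih x hx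

/-- the order of the letters of runs -/
def R (x y : Tr ι × (ι → ℕ)) : Prop := x.1 = y.1 ∧ x.2 ≤ y.2

instance : IsPreorder (Tr ι × (ι → ℕ)) R where
  refl := fun x => ⟨rfl, le_refl _⟩
  trans := fun _ _ _ h1 h2 => ⟨h1.1.trans h2.1, h1.2.trans h2.2⟩

theorem amalg {l l' : List (Tr ι × (ι → ℕ))} (hs : List.SublistForall₂ R l l') :
    ∀ c d e d' v, Run S c l d → Run S e l' d' → d ≤ d' → Reach S (c + v) e → ∀ m : ℕ,
      Reach S (c + m • v) (d + m • (d' - d)) := by
  induction hs with
  | nil =>
    intro c d e d' v h1 h2 h3 h4 m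
    cases h1
    have h5 : Reach S (c + v) (c + (d' - c)) := by
      rw [add_tsub_cancel_of_le h3]
      exact h4.trans h2.reach
    exact shift h5 m
  | @cons x y l l' hR _ ih =>
    intro c d e d' v h1 h2 h3 h4 m
    cases h1 with
    | @cons t _ c1 _ _ ht hf h1 =>
      cases h2 with
      | @cons t' _ e1 _ _ ht' hf' h2 =>
        obtain ⟨rfl, hle⟩ := hR
        dsimp only at hle
        obtain ⟨r, hr1, hr2⟩ := hf
        obtain ⟨r', hr1', hr2'⟩ := hf'
        dsimp only at hr1 hr2 hr1' hr2'
        obtain ⟨u, hu⟩ : ∃ u, e1 = c1 + u := ⟨e1 - c1, (add_tsub_cancel_of_le hle).symm⟩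
        have hr : r' = r + u := by
          have : t.2 + r' = t.2 + (r + u) := by rw [← hr2', hu, hr2, add_assoc]
          exact add_left_cancel this
        have he : e = c + u := by rw [hr1', hr, hr1, add_assoc]
        have h5 : Reach S (c + m • v) (c + m • u) := shift (he ▸ h4) m
        have h6 : Step S (c + m • u) (c1 + m • u) := ⟨t, ht, Fire.add ⟨r, hr1, hr2⟩ _⟩
        have h7 := ih c1 d e1 d' u h1 h2 h3 (hu ▸ ReflTransGen.refl) m
        exact (h5.tail h6).trans h7
  | @cons_right a l l' _ ih =>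
    intro c d e d' v h1 h2 h3 h4 m
    cases h2 with
    | @cons t _ e1 _ _ ht hf h2 =>
      exact ih c d e1 d' v h1 h2 h3 (h4.tail ⟨t, ht, hf⟩) m

instance : IsPreorder (List (Tr ι × (ι → ℕ))) (List.SublistForall₂ R) where
  refl := List.SublistForall₂.is_refl.refl
  trans := List.SublistForall₂.is_trans.trans

theorem pwo [Finite ι] (hS : S.Finite) :
    {x : Tr ι × (ι → ℕ) | x.1 ∈ S}.PartiallyWellOrderedOn R := by
  rw [Set.partiallyWellOrderedOn_iff_exists_lt]
  intro f hf
  have : IsPreorder (Tr ι) (fun a b : Tr ι => a = b) :=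
    { refl := fun _ => rfl, trans := fun _ _ _ h1 h2 => h1.trans h2 }
  have h1 : S.PartiallyWellOrderedOn (fun a b : Tr ι => a = b) := hS.partiallyWellOrderedOn
  obtain ⟨g, hg⟩ := h1.exists_monotone_subseq (f := fun n => (f n).1) hf
  obtain ⟨i, j, hij, h⟩ := wellQuasiOrdered_le (α := ι → ℕ) fun n => (f (g n)).2
  exact ⟨g i, g j, g.lt_iff_lt.2 hij, hg i j hij.le, h⟩

/-- Among infinitely many reachable configurations there are `d i ≤ d j` such that all
`d i + m (d j - d i)` are reachable. -/
theorem pump [Finite ι] (hS : S.Finite) (c : ι → ℕ) (d : ℕ → ι → ℕ) (h : ∀ n, Reach S c (d n)) :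
    ∃ i j, i < j ∧ d i ≤ d j ∧ ∀ m : ℕ, Reach S c (d i + m • (d j - d i)) := by
  choose l hl using fun n => exists_run (h n)
  have h1 := Set.PartiallyWellOrderedOn.partiallyWellOrderedOn_sublistForall₂ R (pwo hS)
  obtain ⟨g, hg⟩ := h1.exists_monotone_subseq (f := l) (fun n x hx => (hl n).mem x hx)
  obtain ⟨i, j, hij, hd⟩ := wellQuasiOrdered_le (α := ι → ℕ) fun n => d (g n)
  refine ⟨g i, g j, g.lt_iff_lt.2 hij, hd, fun m => ?_⟩
  have h2 := amalg (hg i j hij.le) c (d (g i)) c (d (g j)) 0 (hl _) (hl _) hd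
    (by rw [add_zero]) m
  simpa using h2

end Pool.Agent.Q230.VR
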