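import Pool.Agent.Q230.EM.Pair
import Pool.Agent.Q230.EM.Vass

set_option autoImplicit false

/-!
# Derivations of words of a regular language as runs of a vector addition system

`Path δ p x q m`: the states of a finite automaton can be written between the symbols of the word `x`
over `T ⊕ N`, from `p` to `q`, such that the terminals act by `δ`; the nonterminals may change the
state arbitrarily, and `m` counts the terminals and the triples (state, nonterminal, state).
-/

namespace Pool.Agent.Q230.EM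

open Relation Pool.Agent.Q230

open scoped Classical in
/-- annotated words -/
inductive Path {T N Q : Type} (δ : Q → T → Q) :
    Q → List (T ⊕ N) → Q → (T ⊕ Q × N × Q → ℕ) → Prop
  | nil (p : Q) : Path δ p [] p 0
  | term {p q : Q} {x : List (T ⊕ N)} {m : T ⊕ Q × N × Q → ℕ} (t : T) (h : Path δ (δ p t) x q m) :
      Path δ p (Sum.inl t :: x) q (Pi.single (Sum.inl t) 1 + m)
  | nont {p r q : Q} {x : List (T ⊕ N)} {m : T ⊕ Q × N × Q → ℕ} (A : N) (h : Path δ r x q m) :
      Path δ p (Sum.inr A :: x) q (Pi.single (Sum.inr (p, A, r)) 1 + m)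

section
variable {T N Q : Type} {δ : Q → T → Q}

theorem Path.append {p r q : Q} {x y : List (T ⊕ N)} {m1 m2 : T ⊕ Q × N × Q → ℕ}
    (h1 : Path δ p x r m1) (h2 : Path δ r y q m2) : Path δ p (x ++ y) q (m1 + m2) := by
  induction h1 with
  | nil p => simpa using h2
  | term t _ ih =>
    rw [add_assoc]
    exact Path.term t (ih h2)
  | nont A _ ih =>
    rw [add_assoc]
    exact Path.nont A (ih h2)

theorem Path.split {x : List (T ⊕ N)} : ∀ {p q : Q} {y : List (T ⊕ N)} {m : T ⊕ Q × N × Q → ℕ},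
    Path δ p (x ++ y) q m → ∃ r m1 m2, Path δ p x r m1 ∧ Path δ r y q m2 ∧ m = m1 + m2 := by
  induction x with
  | nil =>
    intro p q y m h
    exact ⟨p, 0, m, Path.nil p, h, by simp⟩
  | cons a x ih =>
    intro p q y m h
    rw [List.cons_append] at h
    cases h with
    | term t h =>
      obtain ⟨r, m1, m2, h1, h2, rfl⟩ := ih h
      exact ⟨r, _, m2, Path.term t h1, h2, by rw [add_assoc]⟩
    | nont A h =>
      obtain ⟨r, m1, m2, h1, h2, rfl⟩ := ih h
      exact ⟨r, _, m2, Path.nont A h1, h2, by rw [add_assoc]⟩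

open scoped Classical in
theorem Path.single {p q : Q} (A : N) :
    Path δ p [Sum.inr A] q (Pi.single (Sum.inr (p, A, q)) 1) := by
  have := Path.nont (δ := δ) (p := p) A (Path.nil q)
  simpa using this

open scoped Classical in
theorem Path.find {p q : Q} {x : List (T ⊕ N)} {m : T ⊕ Q × N × Q → ℕ} (h : Path δ p x q m)
    {p' r' : Q} {A : N} (hm : 0 < m (Sum.inr (p', A, r'))) :
    ∃ a b m1 m2, x = a ++ Sum.inr A :: b ∧ Path δ p a p' m1 ∧ Path δ r' b q m2 ∧
      m = m1 + (Pi.single (Sum.inr (p', A, r')) 1 + m2) := by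
  induction h with
  | nil p => simp at hm
  | @term p q x m t h ih =>
    have hm' : 0 < m (Sum.inr (p', A, r')) := by
      simpa [Pi.single_apply] using hm
    obtain ⟨a, b, m1, m2, rfl, h1, h2, rfl⟩ := ih hm'
    exact ⟨Sum.inl t :: a, b, _, m2, rfl, Path.term t h1, h2, by rw [add_assoc]⟩
  | @nont p r q x m B h ih =>
    by_cases hB : (p, B, r) = (p', A, r')
    · simp only [Prod.mk.injEq] at hB
      obtain ⟨rfl, rfl, rfl⟩ := hB
      exact ⟨[], x, 0, m, rfl, Path.nil p, h, by simp⟩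
    · have hm' : 0 < m (Sum.inr (p', A, r')) := by
        have hne : (Sum.inr (p', A, r') : T ⊕ Q × N × Q) ≠ Sum.inr (p, B, r) := by
          intro h; exact hB (Sum.inr_injective h).symm
        simpa [Pi.single_apply, hne] using hm
      obtain ⟨a, b, m1, m2, rfl, h1, h2, rfl⟩ := ih hm'
      exact ⟨Sum.inr B :: a, b, _, m2, rfl, Path.nont B h1, h2, by rw [add_assoc]⟩

open scoped Classical in
theorem Path.finite [Finite Q] (x : List (T ⊕ N)) : ∀ p q : Q,
    {m : T ⊕ Q × N × Q → ℕ | Path δ p x q m}.Finite := by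
  induction x with
  | nil =>
    intro p q
    refine (Set.finite_singleton 0).subset ?_
    intro m hm
    cases hm
    rfl
  | cons a x ih =>
    intro p q
    rcases a with t | A
    · refine ((ih (δ p t) q).image (fun m => Pi.single (Sum.inl t) 1 + m)).subset ?_
      intro m hm
      cases hm with
      | term t h => exact ⟨_, h, rfl⟩
    · refine (Set.finite_iUnion fun r : Q => (ih r q).image
        (fun m => Pi.single (Sum.inr (p, A, r)) 1 + m)).subset ?_
      intro m hm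
      cases hm with
      | @nont _ r _ _ _ _ h => exact Set.mem_iUnion.2 ⟨r, _, h, rfl⟩

/-- the run of the automaton -/
def run (δ : Q → T → Q) (p : Q) (y : List T) : Q := y.foldl δ p

open scoped Classical in
/-- the vector of a terminal word -/
noncomputable def cv (N Q : Type) {T : Type} (y : List T) : T ⊕ Q × N × Q → ℕ
  | Sum.inl t => y.count t
  | Sum.inr _ => 0

open scoped Classical in
theorem cv_cons (t : T) (y : List T) : cv N Q (t :: y) = Pi.single (Sum.inl t) 1 + cv N Q y := by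
  funext i
  rcases i with s | i
  · simp only [cv, Pi.add_apply, List.count_cons, Pi.single_apply, Sum.inl.injEq, beq_iff_eq]
    by_cases h : t = s
    · subst h; simp [add_comm]
    · have h' : ¬ s = t := fun e => h e.symm
      simp [h, h']
  · simp [cv, Pi.single_apply]

theorem path_terminal (y : List T) : ∀ p : Q,
    Path (N := N) δ p (y.map Sum.inl) (run δ p y) (cv N Q y) := by
  induction y with
  | nil =>
    intro p
    have : cv N Q ([] : List T) = 0 := by
      funext i; rcases i with s | i <;> simp [cv]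
    rw [this]
    exact Path.nil p
  | cons t y ih =>
    intro p
    rw [cv_cons]
    exact Path.term t (ih (δ p t))

theorem Path.terminal {p q : Q} {x : List (T ⊕ N)} {m : T ⊕ Q × N × Q → ℕ} (h : Path δ p x q m)
    (hm : ∀ i, m (Sum.inr i) = 0) : ∃ y : List T, x = y.map Sum.inl ∧ run δ p y = q ∧ m = cv N Q y := by
  classical
  induction h with
  | nil p =>
    refine ⟨[], rfl, rfl, ?_⟩
    funext i; rcases i with s | i <;> simp [cv]
  | @term p q x m t h ih =>
    obtain ⟨y, rfl, hy, rfl⟩ := ih (fun i => by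
      have := hm i
      simp only [Pi.add_apply, Nat.add_eq_zero_iff] at this
      exact this.2)
    refine ⟨t :: y, rfl, hy, ?_⟩
    rw [cv_cons]
  | @nont p r q x m B h ih =>
    exfalso
    have := hm (p, B, r)
    simp at this

end

namespace EMG

variable {T Q : Type} (G : EMG T 2) (δ : Q → T → Q)

/-- places of the vector addition system -/
abbrev Pl (Q : Type) : Type := (T ⊕ Q × G.N 0 × Q) ⊕ (T ⊕ Q × G.N 1 × Q)

open scoped Classical in
/-- transitions of the vector addition system -/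
def TR : Set (VR.Tr (G.Pl Q)) :=
  {t | ∃ r ∈ G.rules, ∃ (p0 r0 p1 r1 : Q) (k0 : T ⊕ Q × G.N 0 × Q → ℕ)
    (k1 : T ⊕ Q × G.N 1 × Q → ℕ), Path δ p0 (r.2 0) r0 k0 ∧ Path δ p1 (r.2 1) r1 k1 ∧
    t = (Sum.elim (Pi.single (Sum.inr (p0, r.1 0, r0)) 1) (Pi.single (Sum.inr (p1, r.1 1, r1)) 1),
      Sum.elim k0 k1)}

theorem TR_finite [Finite Q] : (G.TR δ).Finite := by
  classical
  have h1 : ∀ r : (∀ i, G.N i) × (∀ i, List (T ⊕ G.N i)), ∀ p0 r0 p1 r1 : Q,
      {t : VR.Tr (G.Pl Q) | ∃ (k0 : T ⊕ Q × G.N 0 × Q → ℕ) (k1 : T ⊕ Q × G.N 1 × Q → ℕ),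
        Path δ p0 (r.2 0) r0 k0 ∧ Path δ p1 (r.2 1) r1 k1 ∧
        t = (Sum.elim (Pi.single (Sum.inr (p0, r.1 0, r0)) 1)
          (Pi.single (Sum.inr (p1, r.1 1, r1)) 1), Sum.elim k0 k1)}.Finite := by
    intro r p0 r0 p1 r1
    refine (((Path.finite (δ := δ) (r.2 0) p0 r0).prod (Path.finite (δ := δ) (r.2 1) p1 r1)).image
      (fun k => ((Sum.elim (Pi.single (Sum.inr (p0, r.1 0, r0)) 1)
          (Pi.single (Sum.inr (p1, r.1 1, r1)) 1), Sum.elim k.1 k.2) : VR.Tr (G.Pl Q)))).subset ?_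
    rintro t ⟨k0, k1, h0, h1, rfl⟩
    exact ⟨(k0, k1), ⟨h0, h1⟩, rfl⟩
  refine (Set.Finite.biUnion G.rules.finite_toSet fun r _ =>
    Set.finite_iUnion fun p0 => Set.finite_iUnion fun r0 => Set.finite_iUnion fun p1 =>
      Set.finite_iUnion fun r1 => h1 r p0 r0 p1 r1).subset ?_
  rintro t ⟨r, hr, p0, r0, p1, r1, k0, k1, h0, h1, rfl⟩
  simp only [Set.mem_iUnion]
  exact ⟨r, hr, p0, r0, p1, r1, k0, k1, h0, h1, rfl⟩

/-- annotated pairs -/
def PPath (a s b : Q) (p : G.Pr) (c : G.Pl Q → ℕ) : Prop :=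
  ∃ m0 m1, Path δ a p.1 s m0 ∧ Path δ s p.2 b m1 ∧ c = Sum.elim m0 m1

theorem elim_add {α β : Type} (f f' : α → ℕ) (g g' : β → ℕ) :
    Sum.elim f g + Sum.elim f' g' = Sum.elim (f + f') (g + g') := by
  funext i; rcases i with i | i <;> rfl

/-- derivation steps give steps of the vector addition system -/
theorem step_back {a s b : Q} {p q : G.Pr} (h : G.PStep false p q) {c' : G.Pl Q → ℕ}
    (hq : G.PPath δ a s b q c') : ∃ c, G.PPath δ a s b p c ∧ VR.Step (G.TR δ) c c' := by
  classical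
  obtain ⟨r, hr, u0, w0, u1, w1, rfl, rfl, -⟩ := h
  obtain ⟨m0, m1, h0, h1, rfl⟩ := hq
  dsimp only at h0 h1
  obtain ⟨r0, n0, e0, g0a, h0c, rfl⟩ := Path.split h0
  obtain ⟨p0, l0, k0, h0a, h0b, rfl⟩ := Path.split g0a
  obtain ⟨r1, n1, e1, g1a, h1c, rfl⟩ := Path.split h1
  obtain ⟨p1, l1, k1, h1a, h1b, rfl⟩ := Path.split g1a
  refine ⟨_, ⟨_, _, Path.append h0a (Path.nont (r.1 0) h0c),
    Path.append h1a (Path.nont (r.1 1) h1c), rfl⟩, _,
    ⟨r, hr, p0, r0, p1, r1, k0, k1, h0b, h1b, rfl⟩, Sum.elim (l0 + e0) (l1 + e1), ?_, ?_⟩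
  · rw [elim_add]
    congr 1 <;> abel
  · rw [elim_add]
    congr 1 <;> abel

/-- steps of the vector addition system give derivation steps -/
theorem step_forth {a s b : Q} {p : G.Pr} {c c' : G.Pl Q → ℕ} (hp : G.PPath δ a s b p c)
    (h : VR.Step (G.TR δ) c c') : ∃ q, G.PStep false p q ∧ G.PPath δ a s b q c' := by
  classical
  obtain ⟨z0, z1⟩ := p
  obtain ⟨m0, m1, h0, h1, rfl⟩ := hp
  dsimp only at h0 h1
  obtain ⟨t, ⟨r, hr, p0, r0, p1, r1, k0, k1, hk0, hk1, rfl⟩, e, he1, he2⟩ := h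
  dsimp only at he1 he2
  subst he2
  have g0 : m0 = Pi.single (Sum.inr (p0, r.1 0, r0)) 1 + (fun i => e (Sum.inl i)) := by
    funext i
    have := congrFun he1 (Sum.inl i)
    simpa using this
  have g1 : m1 = Pi.single (Sum.inr (p1, r.1 1, r1)) 1 + (fun i => e (Sum.inr i)) := by
    funext i
    have := congrFun he1 (Sum.inr i)
    simpa using this
  obtain ⟨u0, w0, l0, n0, rfl, ha0, hb0, hm0⟩ := h0.find (p' := p0) (A := r.1 0) (r' := r0)
    (by rw [g0]; simp)
  obtain ⟨u1, w1, l1, n1, rfl, ha1, hb1, hm1⟩ := h1.find (p' := p1) (A := r.1 1) (r' := r1)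
    (by rw [g1]; simp)
  have f0 : (fun i => e (Sum.inl i)) = l0 + n0 := by
    have : Pi.single (Sum.inr (p0, r.1 0, r0)) 1 + (fun i => e (Sum.inl i)) =
        Pi.single (Sum.inr (p0, r.1 0, r0)) 1 + (l0 + n0) := by
      rw [← g0, hm0]; abel
    exact add_left_cancel this
  have f1 : (fun i => e (Sum.inr i)) = l1 + n1 := by
    have : Pi.single (Sum.inr (p1, r.1 1, r1)) 1 + (fun i => e (Sum.inr i)) =
        Pi.single (Sum.inr (p1, r.1 1, r1)) 1 + (l1 + n1) := by
      rw [← g1, hm1]; abel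
    exact add_left_cancel this
  refine ⟨(u0 ++ r.2 0 ++ w0, u1 ++ r.2 1 ++ w1), ⟨r, hr, u0, w0, u1, w1, rfl, rfl, by simp⟩,
    _, _, Path.append (Path.append ha0 hk0) hb0, Path.append (Path.append ha1 hk1) hb1, ?_⟩
  funext i
  rcases i with i | i
  · have := congrFun f0 i
    simp only [Pi.add_apply, Sum.elim_inl] at this ⊢
    rw [this]; ring
  · have := congrFun f1 i
    simp only [Pi.add_apply, Sum.elim_inr] at this ⊢
    rw [this]; ring

theorem steps_back {a s b : Q} {p q : G.Pr} (h : ReflTransGen (G.PStep false) p q)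
    {c' : G.Pl Q → ℕ} (hq : G.PPath δ a s b q c') :
    ∃ c, G.PPath δ a s b p c ∧ VR.Reach (G.TR δ) c c' := by
  induction h using ReflTransGen.head_induction_on with
  | refl => exact ⟨c', hq, ReflTransGen.refl⟩
  | head hs _ ih =>
    obtain ⟨c1, h1, h2⟩ := ih
    obtain ⟨c, h3, h4⟩ := G.step_back δ hs h1
    exact ⟨c, h3, ReflTransGen.head h4 h2⟩

theorem steps_forth {a s b : Q} {p : G.Pr} {c c' : G.Pl Q → ℕ} (hp : G.PPath δ a s b p c)
    (h : VR.Reach (G.TR δ) c c') :
    ∃ q, ReflTransGen (G.PStep false) p q ∧ G.PPath δ a s b q c' := by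
  induction h with
  | refl => exact ⟨p, ReflTransGen.refl, hp⟩
  | tail _ hs ih =>
    obtain ⟨q, hq, h1⟩ := ih
    obtain ⟨q', hq', h2⟩ := G.step_forth δ h1 hs
    exact ⟨q', hq.tail hq', h2⟩

/-- the vector of a pair of terminal words -/
noncomputable def pv (Q : Type) (y0 y1 : List T) : G.Pl Q → ℕ :=
  Sum.elim (cv (G.N 0) Q y0) (cv (G.N 1) Q y1)

open scoped Classical in
/-- If the words of `L` (a mode 0 language) in a regular set contain the letter `t0` arbitrarily
often then the numbers of letters `t0` in these words contain an infinite arithmetic progression. -/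
theorem ap [Finite T] [Finite Q] (p0 : Q) (F : Set Q) (t0 : T)
    (hinf : {x | ∃ w ∈ G.Lang false, run δ p0 w ∈ F ∧ w.count t0 = x}.Infinite) :
    ∃ x y, x < y ∧ ∀ m : ℕ, x + m * (y - x) ∈
      {x | ∃ w ∈ G.Lang false, run δ p0 w ∈ F ∧ w.count t0 = x} := by
  have := G.finN 0
  have := G.finN 1
  let X : (∀ i, List (T ⊕ G.N i)) → Q → Q → (G.Pl Q → ℕ) → Set ℕ := fun v s e c =>
    {x | ∃ y0 y1 : List T, run δ p0 y0 = s ∧ run δ s y1 = e ∧ (y0 ++ y1).count t0 = x ∧
      VR.Reach (G.TR δ) c (G.pv Q y0 y1)}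
  let C : (∀ i, List (T ⊕ G.N i)) → Q → Q → Set (G.Pl Q → ℕ) := fun v s e =>
    {c | G.PPath δ p0 s e (v 0, v 1) c}
  have hC : ∀ v s e, (C v s e).Finite := by
    intro v s e
    refine (((Path.finite (δ := δ) (v 0) p0 s).prod (Path.finite (δ := δ) (v 1) s e)).image
      (fun k => (Sum.elim k.1 k.2 : G.Pl Q → ℕ))).subset ?_
    rintro c ⟨m0, m1, h0, h1, rfl⟩
    exact ⟨(m0, m1), ⟨h0, h1⟩, rfl⟩
  -- some set of data occurs infinitely often
  have h1 : ∃ v ∈ G.starts, ∃ (s e : Q), e ∈ F ∧ ∃ c ∈ C v s e, (X v s e c).Infinite := by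
    by_contra hcon
    push Not at hcon
    apply hinf
    have hfin : ((fun w : List T => w.count t0) '' (G.words : Set (List T)) ∪
        ⋃ v ∈ G.starts, ⋃ s : Q, ⋃ e ∈ F, ⋃ c ∈ C v s e, X v s e c).Finite := by
      refine (G.words.finite_toSet.image _).union ?_
      refine Set.Finite.biUnion G.starts.finite_toSet fun v hv => ?_
      refine Set.finite_iUnion fun s => ?_
      refine Set.Finite.biUnion F.toFinite fun e he => ?_
      exact Set.Finite.biUnion (hC v s e) fun c hc => hcon v hv s e he c hc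
    refine hfin.subset ?_
    rintro x ⟨w, hw, hF, rfl⟩
    rcases G.mem_lang.1 hw with hw | ⟨v, hv, y0, y1, rfl, hd⟩
    · exact Or.inl ⟨w, hw, rfl⟩
    · right
      have hq : G.PPath δ p0 (run δ p0 y0) (run δ (run δ p0 y0) y1)
          (y0.map Sum.inl, y1.map Sum.inl) (G.pv Q y0 y1) :=
        ⟨_, _, path_terminal y0 p0, path_terminal y1 _, rfl⟩
      obtain ⟨c, hc, hr⟩ := G.steps_back δ hd hq
      simp only [Set.mem_iUnion]
      refine ⟨v, hv, run δ p0 y0, run δ (run δ p0 y0) y1, ?_, c, hc, y0, y1, rfl, rfl, rfl, hr⟩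
      simpa [run] using hF
  obtain ⟨v, hv, s, e, he, c, hc, hX⟩ := h1
  let f := hX.natEmbedding
  choose y0 y1 hs he' hx hr using fun n => (f n).2
  obtain ⟨i, j, hij, hd, hm⟩ := VR.pump (G.TR_finite δ) c (fun n => G.pv Q (y0 n) (y1 n)) hr
  have d0 : (y0 i).count t0 ≤ (y0 j).count t0 := hd (Sum.inl (Sum.inl t0))
  have d1 : (y1 i).count t0 ≤ (y1 j).count t0 := hd (Sum.inr (Sum.inl t0))
  have hxi : (y0 i).count t0 + (y1 i).count t0 = (f i : ℕ) := by
    rw [← hx i, List.count_append]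
  have hxj : (y0 j).count t0 + (y1 j).count t0 = (f j : ℕ) := by
    rw [← hx j, List.count_append]
  have hne : (f i : ℕ) ≠ (f j : ℕ) := by
    intro h
    exact hij.ne (f.injective (Subtype.ext h))
  refine ⟨f i, f j, by omega, fun m => ?_⟩
  obtain ⟨q, hq, m0, m1, g0, g1, hv'⟩ := G.steps_forth δ hc (hm m)
  obtain ⟨z0, hz0, hz0', rfl⟩ := g0.terminal (by
    intro k
    have := congrFun hv' (Sum.inl (Sum.inr k))
    simpa [pv, cv] using this.symm)
  obtain ⟨z1, hz1, hz1', rfl⟩ := g1.terminal (by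
    intro k
    have := congrFun hv' (Sum.inr (Sum.inr k))
    simpa [pv, cv] using this.symm)
  have c0 := congrFun hv' (Sum.inl (Sum.inl t0))
  have c1 := congrFun hv' (Sum.inr (Sum.inl t0))
  simp only [pv, cv, Pi.add_apply, Pi.smul_apply, Pi.sub_apply, Sum.elim_inl, Sum.elim_inr,
    smul_eq_mul] at c0 c1
  refine ⟨z0 ++ z1, G.mem_lang.2 (Or.inr ⟨v, hv, z0, z1, rfl, ?_⟩), ?_, ?_⟩
  · have : q = (z0.map Sum.inl, z1.map Sum.inl) := Prod.ext hz0 hz1
    rw [this] at hq
    exact hq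
  · have : run δ p0 (z0 ++ z1) = e := by
      rw [← hz1', ← hz0']
      simp [run]
    rw [this]
    exact he
  · rw [List.count_append, ← c0, ← c1, ← hxi, ← hxj]
    have : (y0 j).count t0 + (y1 j).count t0 - ((y0 i).count t0 + (y1 i).count t0) =
        ((y0 j).count t0 - (y0 i).count t0) + ((y1 j).count t0 - (y1 i).count t0) := by omega
    rw [this]
    ring

end EMG

end Pool.Agent.Q230.EM
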