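import Pool.Agent.Q230.EM.Snd

set_option autoImplicit false

/-!
# Completeness of the simulation
-/

namespace Pool.Agent.Q230.EM.Mc

open Relation Pool.Agent.Q230.EM List

section
variable {T : Type} {M : Mch T}

/-- derivations of pairs -/
abbrev Dr (p q : Pq M) : Prop := ReflTransGen ((gr M).PStep true) p q

theorem not_in_rep {s c : (T ⊕ Bool) ⊕ S1 M.J} (h : s ≠ c) (k : ℕ) : s ∉ replicate k c := by
  intro hm
  exact h (List.mem_replicate.1 hm).2

theorem sim_step {q q' : M.Q} {n n' : M.J → ℕ} {u u' : List T}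
    (h : Stp M (q, n, u) (q', n', u')) {x : W1 M} (hx : Good S1.E n x) :
    ∃ x', Good S1.E n' x' ∧ Dr ((x, ow u ++ [s2 (S2.st q)]) : Pq M)
      (x', ow u' ++ [s2 (S2.st q')]) := by
  obtain ⟨y, k, rfl, hy, hg, hc⟩ := hx
  cases h with
  | @add _ _ v u'' h =>
    refine ⟨s1 S1.Z :: (tk v ++ y ++ replicate (k + 1) (s1 S1.C)) ++ [s1 S1.E],
      ⟨tk v ++ y, k, rfl, (tok_tk v).append hy, by simp [hg], ?_⟩, ReflTransGen.single ?_⟩
    · rw [cnt_append, cnt_tk, hc, add_comm]
    · have := step2 M (x := s1 S1.Z :: (y ++ replicate (k + 1) (s1 S1.C)) ++ [s1 S1.E])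
        (x' := s1 S1.Z :: (tk v ++ y ++ replicate (k + 1) (s1 S1.C)) ++ [s1 S1.E])
        (u0 := []) (w0 := (y ++ replicate (k + 1) (s1 S1.C)) ++ [s1 S1.E]) u (Ru.add h)
        rfl (by simp) (by simp)
      rw [show (ow (u ++ u'') ++ [s2 (S2.st q')] : W2 M) = ow u ++ (ow u'' ++ [s2 (S2.st q')]) by
        rw [ow_append, List.append_assoc]]
      exact this
  | @sub _ _ j v h _ m hn _ =>
    have hj : s1 (S1.tok j) ∈ y := by
      by_contra hj
      have h1 := cnt_zero' hj
      rw [hc, hn] at h1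
      simp [cn] at h1
    obtain ⟨y1, y2, rfl, hj1⟩ := List.eq_append_cons_of_mem hj
    have hm : m = cnt y1 + cnt y2 := by
      have h1 : cn [j] + (cnt y1 + cnt y2) = cn [j] + m := by
        have e : cnt (s1 (S1.tok j) :: y2) = cn [j] + cnt y2 := by
          rw [← cnt_tok, ← cnt_append]; rfl
        rw [← hn, ← hc, cnt_append, e]; abel
      exact (add_left_cancel h1).symm
    refine ⟨s1 S1.Z :: ((y1 ++ (s1 S1.g :: tk v) ++ y2) ++ replicate (k + 1) (s1 S1.C)) ++
      [s1 S1.E], ⟨_, k, rfl, ?_, by simp, ?_⟩, ReflTransGen.single ?_⟩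
    · refine Tok.append (Tok.append hy.left ?_) ?_
      · intro s hs
        rcases List.mem_cons.1 hs with rfl | hs
        · rfl
        · exact tok_tk v s hs
      · intro s hs
        exact hy s (by simp [hs])
    · have e : cnt (s1 S1.g :: tk v : W1 M) = cn v := by
        rw [← List.singleton_append, cnt_append, cnt_tk, cnt_g, zero_add]
      rw [hm, cnt_append, cnt_append, e]; abel
    · exact step2 M (u0 := s1 S1.Z :: y1) (w0 := y2 ++ replicate (k + 1) (s1 S1.C) ++ [s1 S1.E])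
        u (Ru.sub h) (by simp) (by simp) (by simpa using hj1)
  | @zero _ _ j h _ hn _ =>
    have hj : s1 (S1.tok j) ∉ y := cnt_zero (by rw [hc]; exact hn)
    refine ⟨s1 S1.Z :: (y ++ replicate (k + 1 + 1) (s1 S1.C)) ++ [s1 S1.E],
      ⟨y, k + 1, rfl, hy, hg, hc⟩, ReflTransGen.head (b :=
        (s1 S1.Z :: (y ++ replicate (k + 1) (s1 S1.C)) ++ [s1 (S1.tok j)],
          ow u ++ [s2 (S2.tst j q')])) ?_ (ReflTransGen.single ?_)⟩
    · refine step2 M (u0 := s1 S1.Z :: (y ++ replicate (k + 1) (s1 S1.C))) (w0 := []) u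
        (Ru.zero h) rfl (List.append_nil _).symm ?_
      intro hm
      simp only [List.mem_cons, List.mem_append, List.mem_replicate] at hm
      rcases hm with hm | hm | ⟨-, hm⟩
      · simp at hm
      · have := hy _ hm; simp [isR] at this
      · simp at hm
    · refine step2 M (u0 := s1 S1.Z :: (y ++ replicate (k + 1) (s1 S1.C))) (w0 := []) u
        (Ru.tst j q') rfl ?_ ?_
      · rw [List.replicate_succ' (n := k + 1)]
        simp
      · intro hm
        simp only [List.mem_cons, List.mem_append, List.mem_replicate] at hm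
        rcases hm with hm | hm | ⟨-, hm⟩
        · simp at hm
        · exact hj hm
        · simp at hm

theorem sim_main {c : M.Q × (M.J → ℕ) × List T}
    (h : ReflTransGen (Stp M) (M.q0, 0, []) c) :
    ∃ x, Good S1.E c.2.1 x ∧ Dr ((w1 M, w2 M) : Pq M) (x, ow c.2.2 ++ [s2 (S2.st c.1)]) := by
  induction h with
  | refl =>
    refine ⟨w1 M, ⟨[s1 S1.g], 0, rfl, ?_, by simp, cnt_g⟩, ReflTransGen.refl⟩
    intro s hs
    rw [List.mem_singleton.1 hs]
    rfl
  | tail _ hs ih =>
    obtain ⟨x, hx, hd⟩ := ih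
    obtain ⟨x', hx', hd'⟩ := sim_step hs hx
    exact ⟨x', hx', hd.trans hd'⟩

theorem phase0 (u : List T) (R : W1 M) (y : W1 M) : ∀ i : ℕ, Tok y →
    Dr ((s1 S1.Z :: (replicate i (s1 S1.g) ++ y ++ R), ow u ++ [s2 S2.f0]) : Pq M)
      (s1 S1.Z :: (replicate (i + y.length) (s1 S1.g) ++ R), ow u ++ [s2 S2.f0]) := by
  induction y with
  | nil => intro i _; simpa using ReflTransGen.refl
  | cons s y ih =>
    intro i hy
    have hs := hy s (by simp)
    have h1 := ih (i + 1) (fun r hr => hy r (by simp [hr]))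
    have e1 : i + 1 + y.length = i + (s :: y).length := by simp; omega
    rw [e1] at h1
    rcases s with s | s
    · simp [isR] at hs
    · cases s with
      | Z => simp [isR] at hs
      | C => simp [isR] at hs
      | E => simp [isR] at hs
      | g =>
        have e2 : replicate i (s1 S1.g : (T ⊕ Bool) ⊕ S1 M.J) ++ Sum.inr S1.g :: y ++ R =
            replicate (i + 1) (s1 S1.g) ++ y ++ R := by
          rw [List.replicate_succ']; simp
        rw [e2]
        exact h1
      | tok j =>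
        refine ReflTransGen.head ?_ h1
        exact step2 M (u0 := s1 S1.Z :: replicate i (s1 S1.g)) (w0 := y ++ R) u (Ru.f0a j)
          (by simp) (by rw [List.replicate_succ']; simp)
          (by
            intro hm
            simp only [List.mem_cons, List.mem_replicate] at hm
            rcases hm with hm | ⟨-, hm⟩
            · simp at hm
            · simp at hm)

theorem phase1 (u : List T) (R : W1 M) (l : ℕ) :
    Dr ((s1 S1.Z :: (replicate (l + 1) (s1 S1.g) ++ R), ow u ++ [s2 S2.f1]) : Pq M)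
      (s1 S1.Z :: s1 S1.g :: R, ow u ++ [s2 S2.f1]) := by
  induction l with
  | zero => exact ReflTransGen.refl
  | succ l ih =>
    refine ReflTransGen.head ?_ ih
    exact step2 M (u0 := [s1 S1.Z]) (w0 := replicate (l + 1) (s1 S1.g) ++ R) u Ru.f1a
      (by rw [List.replicate_succ (n := l + 1)]; simp) (by simp) (by simp)

theorem phase3 (u : List T) (R p : W1 M) (hp : s1 S1.C ∉ p) (k : ℕ) :
    Dr ((p ++ (replicate k (s1 S1.C) ++ R), ow u ++ [s2 S2.f3]) : Pq M)
      (p ++ R, ow u ++ [s2 S2.f3]) := by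
  induction k with
  | zero => exact ReflTransGen.refl
  | succ k ih =>
    refine ReflTransGen.head ?_ ih
    exact step2 M (u0 := p) (w0 := replicate k (s1 S1.C) ++ R) u Ru.f3a
      (by rw [List.replicate_succ]; simp) (by simp) hp

theorem complete {u : List T} (h : u ∈ Out M) : acu u ∈ (gr M).Lang true := by
  obtain ⟨n, hn⟩ := h
  obtain ⟨x, ⟨y, k, rfl, hy, hg, -⟩, hd⟩ := sim_main hn
  dsimp only at hd
  have d1 : (gr M).PStep true ((s1 S1.Z :: (y ++ replicate (k + 1) (s1 S1.C)) ++ [s1 S1.E],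
      ow u ++ [s2 (S2.st M.qf)]) : Pq M)
      (s1 S1.Z :: (replicate 0 (s1 S1.g) ++ y ++ (replicate (k + 1) (s1 S1.C) ++ [s1 S1.E])),
        ow u ++ [s2 S2.f0]) :=
    step2 M (u0 := []) (w0 := (y ++ replicate (k + 1) (s1 S1.C)) ++ [s1 S1.E]) u Ru.fin rfl
      (by
        show s1 S1.Z :: (y ++ (replicate (k + 1) (s1 S1.C) ++ [s1 S1.E])) =
          s1 S1.Z :: ((y ++ replicate (k + 1) (s1 S1.C)) ++ [s1 S1.E])
        rw [List.append_assoc]) (by simp)
  have d2 := phase0 (M := M) u (replicate (k + 1) (s1 S1.C) ++ [s1 S1.E]) y 0 hy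
  obtain ⟨l, hl⟩ : ∃ l, y.length = l + 1 := by
    cases y with
    | nil => simp at hg
    | cons a y => exact ⟨y.length, rfl⟩
  rw [zero_add, hl] at d2
  have d3 : (gr M).PStep true ((s1 S1.Z :: (replicate (l + 1) (s1 S1.g) ++
      (replicate (k + 1) (s1 S1.C) ++ [s1 S1.E])), ow u ++ [s2 S2.f0]) : Pq M)
      (s1 S1.Z :: (replicate (l + 1) (s1 S1.g) ++
      (replicate (k + 1) (s1 S1.C) ++ [s1 S1.E])), ow u ++ [s2 S2.f1]) :=
    step2 M (u0 := []) (w0 := _) u Ru.f0b rfl rfl (by simp)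
  have d4 := phase1 (M := M) u (replicate (k + 1) (s1 S1.C) ++ [s1 S1.E]) l
  have d5 : (gr M).PStep true ((s1 S1.Z :: s1 S1.g :: (replicate (k + 1) (s1 S1.C) ++ [s1 S1.E]),
      ow u ++ [s2 S2.f1]) : Pq M) (s1 S1.Z :: ta :: (replicate (k + 1) (s1 S1.C) ++ [s1 S1.E]),
      ow u ++ [s2 S2.f2]) :=
    step2 M (u0 := [s1 S1.Z]) (w0 := replicate (k + 1) (s1 S1.C) ++ [s1 S1.E]) u Ru.f1b rfl rfl
      (by simp)
  have d6 : (gr M).PStep true ((s1 S1.Z :: ta :: (replicate (k + 1) (s1 S1.C) ++ [s1 S1.E]),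
      ow u ++ [s2 S2.f2]) : Pq M) ([s1 S1.Z, ta, tc] ++ (replicate k (s1 S1.C) ++ [s1 S1.E]),
      ow u ++ [s2 S2.f3]) :=
    step2 M (u0 := [s1 S1.Z, ta]) (w0 := replicate k (s1 S1.C) ++ [s1 S1.E]) u Ru.f2a rfl rfl
      (by simp)
  have d7 := phase3 (M := M) u [s1 S1.E] [s1 S1.Z, ta, tc] (by simp) k
  have d8 : (gr M).PStep true (([s1 S1.Z, ta, tc] ++ [s1 S1.E], ow u ++ [s2 S2.f3]) : Pq M)
      ([ta, tc, s1 S1.E], ow u ++ [s2 S2.f4]) :=
    step2 M (u0 := []) (w0 := [ta, tc, s1 S1.E]) u Ru.f3b rfl rfl (by simp)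
  have d9 : (gr M).PStep true (([ta, tc, s1 S1.E], ow u ++ [s2 S2.f4]) : Pq M)
      ([ta, tc], ow u ++ []) :=
    step2 M (u0 := [ta, tc]) (w0 := []) u Ru.f4 rfl rfl (by simp)
  have d : Dr ((w1 M, w2 M) : Pq M) ([ta, tc], ow u ++ []) :=
    (((((((((hd.tail d1).trans d2).tail d3).trans d4).tail d5).tail d6).trans d7).tail d8).tail d9)
  refine (gr M).mem_lang.2 (Or.inr ⟨st M, Finset.mem_singleton.2 rfl,
    [Sum.inr false, Sum.inr true], u.map Sum.inl, rfl, ?_⟩)
  rw [List.append_nil] at d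
  have e : (ow u : W2 M) = (u.map Sum.inl).map Sum.inl := by simp [ow]
  rw [e] at d
  exact d

end

/-- the words `a c u` of the language of the grammar -/
theorem gr_lang {T : Type} (M : Mch T) (u : List T) : acu u ∈ (gr M).Lang true ↔ u ∈ Out M :=
  ⟨sound, complete⟩

end Pool.Agent.Q230.EM.Mc
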