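import Mathlib

set_option autoImplicit false

/-!
# Even matrix grammars
-/

namespace Pool.Agent.Q230.EM

open Relation

/-- An even matrix grammar of degree `n` with terminal alphabet `T`. The nonterminal alphabets
`N i` (`i < n`) are pairwise disjoint since the sentential forms are words over `T ⊕ Σ i, N i`. The
rules are the rules `(S) → (v)` with `v ∈ T*` (`words`), the rules `(S) → (v_1 ⋯ v_n)` with
`v_i ∈ (N_i ∪ T)*` which contain at least one symbol of `N_i` (`starts`), and the rules
`(A_1, …, A_n) → (v_1, …, v_n)` with `A_i ∈ N_i` and `v_i ∈ (N_i ∪ T)*` (`rules`). -/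
structure EMG (T : Type) (n : ℕ) : Type 1 where
  N : Fin n → Type
  finN : ∀ i, Finite (N i)
  words : Finset (List T)
  starts : Finset (∀ i, List (T ⊕ N i))
  starts_ok : ∀ v ∈ starts, ∀ i, ∃ A : N i, Sum.inr A ∈ v i
  rules : Finset ((∀ i, N i) × (∀ i, List (T ⊕ N i)))

namespace EMG

variable {T : Type} {n : ℕ} (G : EMG T n)

/-- words over `N_i ∪ T` are words over all symbols -/
def emb (i : Fin n) (x : List (T ⊕ G.N i)) : List (T ⊕ Σ i, G.N i) :=
  x.map (Sum.map id (Sigma.mk i))

/-- the word `v_1 v_2 ⋯ v_n` -/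
def flat (v : ∀ i, List (T ⊕ G.N i)) : List (T ⊕ Σ i, G.N i) :=
  (List.ofFn fun i => G.emb i (v i)).flatten

/-- A step by a rule `(A_1, …, A_n) → (v_1, …, v_n)`: the word `u_1 A_1 w_1 ⋯ u_n A_n w_n` with
`u_i, w_i ∈ (N_i ∪ T)*` is rewritten to `u_1 v_1 w_1 ⋯ u_n v_n w_n`. In mode 1 (`mode = true`) the
symbol `A_i` does not occur in `u_i`, for all `i`. In mode 0 there is no restriction. -/
def Step (mode : Bool) (x y : List (T ⊕ Σ i, G.N i)) : Prop :=
  ∃ r ∈ G.rules, ∃ u w : ∀ i, List (T ⊕ G.N i),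
    x = G.flat (fun i => u i ++ Sum.inr (r.1 i) :: w i) ∧
    y = G.flat (fun i => u i ++ r.2 i ++ w i) ∧
    (mode = true → ∀ i, Sum.inr (r.1 i) ∉ u i)

/-- the language generated in the given mode -/
def Lang (mode : Bool) : Set (List T) :=
  {x | x ∈ G.words ∨ ∃ v ∈ G.starts, ReflTransGen (G.Step mode) (G.flat v) (x.map Sum.inl)}

end EMG

/-- the family of the languages which even matrix grammars of degree `n` generate in the given mode
(`false`: mode 0, `true`: mode 1) -/
def Fam (T : Type) (n : ℕ) (mode : Bool) : Set (Set (List T)) :=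
  {L | ∃ G : EMG T n, G.Lang mode = L}

end Pool.Agent.Q230.EM
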