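import Pool.Agent.Q230.EM.Ann

set_option autoImplicit false

/-!
# A mode 1 grammar which doubles

The intersection of the generated language with `a* c*` is `{a^(4^k) c^(2k+1) : k ≥ 1}`.
-/

namespace Pool.Agent.Q230.EM.Ex

open Relation Pool.Agent.Q230 Pool.Agent.Q230.EM

/-- nonterminals (`A`, `B` are used in component 1 and `P`, `Q`, `F` in component 2) -/
inductive K
  | A | B | P | Q | F
  deriving DecidableEq

instance : Finite K := by
  refine Finite.of_injective (β := Fin 5)
    (fun | K.A => 0 | K.B => 1 | K.P => 2 | K.Q => 3 | K.F => 4) ?_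
  intro x y h
  cases x <;> cases y <;> simp_all

/-- symbols; `inl false` is the letter `a` and `inl true` the letter `c` -/
abbrev Sy : Type := Bool ⊕ K

abbrev sa : Sy := Sum.inl false
abbrev sc : Sy := Sum.inl true
abbrev sA : Sy := Sum.inr K.A
abbrev sB : Sy := Sum.inr K.B
abbrev sP : Sy := Sum.inr K.P
abbrev sQ : Sy := Sum.inr K.Q
abbrev sF : Sy := Sum.inr K.F

/-- the rule `(X, Y) → (v, w)` -/
def ru (X Y : K) (v w : List Sy) : (Fin 2 → K) × (Fin 2 → List Sy) := (![X, Y], ![v, w])

/-- the start word -/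
def st : Fin 2 → List Sy := ![[sA, sA], [sP]]

/-- the set of the rules -/
def exRules : Finset ((Fin 2 → K) × (Fin 2 → List Sy)) :=
  {ru K.A K.P [sB, sB] [sP], ru K.A K.P [sc, sB] [sQ], ru K.B K.Q [sA, sA] [sQ],
    ru K.B K.Q [sc, sA] [sP], ru K.B K.Q [sc, sA] [sF], ru K.A K.F [sa] [sF], ru K.A K.F [sc] []}

theorem mem_exRules {r : (Fin 2 → K) × (Fin 2 → List Sy)} (h : r ∈ exRules) :
    r = ru K.A K.P [sB, sB] [sP] ∨ r = ru K.A K.P [sc, sB] [sQ] ∨ r = ru K.B K.Q [sA, sA] [sQ] ∨
    r = ru K.B K.Q [sc, sA] [sP] ∨ r = ru K.B K.Q [sc, sA] [sF] ∨ r = ru K.A K.F [sa] [sF] ∨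
    r = ru K.A K.F [sc] [] := by
  unfold exRules at h
  rw [Finset.mem_insert, Finset.mem_insert, Finset.mem_insert, Finset.mem_insert,
    Finset.mem_insert, Finset.mem_insert, Finset.mem_singleton] at h
  exact h

/-- the grammar -/
def exG : EMG Bool 2 where
  N := fun _ => K
  finN := fun _ => inferInstance
  words := ∅
  starts := ({st} : Finset (Fin 2 → List Sy))
  starts_ok := by
    intro v hv i
    have hv' : v = st := Finset.mem_singleton.1 hv
    subst hv'
    match i with
    | 0 => exact ⟨K.A, by simp [st]⟩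
    | 1 => exact ⟨K.P, by simp [st]⟩
  rules := exRules

/-- the rules, as a predicate -/
inductive Ru : K → K → List Sy → List Sy → Prop
  | r1 : Ru K.A K.P [sB, sB] [sP]
  | r2 : Ru K.A K.P [sc, sB] [sQ]
  | r3 : Ru K.B K.Q [sA, sA] [sQ]
  | r4 : Ru K.B K.Q [sc, sA] [sP]
  | r5 : Ru K.B K.Q [sc, sA] [sF]
  | r6 : Ru K.A K.F [sa] [sF]
  | r7 : Ru K.A K.F [sc] []

/-- pairs of words -/
abbrev Pr : Type := List Sy × List Sy

theorem pstep_iff {p q : Pr} : exG.PStep true p q ↔ ∃ (X Y : K) (v z u0 w0 u1 w1 : List Sy),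
    Ru X Y v z ∧ p = (u0 ++ Sum.inr X :: w0, u1 ++ Sum.inr Y :: w1) ∧
    q = (u0 ++ v ++ w0, u1 ++ z ++ w1) ∧ Sum.inr X ∉ u0 ∧ Sum.inr Y ∉ u1 := by
  constructor
  · rintro ⟨r, hr, u0, w0, u1, w1, hp, hq, hm⟩
    have hr' := mem_exRules hr
    clear hr
    rename' hr' => hr
    obtain ⟨h0, h1⟩ := hm rfl
    rcases hr with rfl | rfl | rfl | rfl | rfl | rfl | rfl
    · exact ⟨_, _, _, _, u0, w0, u1, w1, Ru.r1, hp, hq, h0, h1⟩
    · exact ⟨_, _, _, _, u0, w0, u1, w1, Ru.r2, hp, hq, h0, h1⟩
    · exact ⟨_, _, _, _, u0, w0, u1, w1, Ru.r3, hp, hq, h0, h1⟩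
    · exact ⟨_, _, _, _, u0, w0, u1, w1, Ru.r4, hp, hq, h0, h1⟩
    · exact ⟨_, _, _, _, u0, w0, u1, w1, Ru.r5, hp, hq, h0, h1⟩
    · exact ⟨_, _, _, _, u0, w0, u1, w1, Ru.r6, hp, hq, h0, h1⟩
    · exact ⟨_, _, _, _, u0, w0, u1, w1, Ru.r7, hp, hq, h0, h1⟩
  · rintro ⟨X, Y, v, z, u0, w0, u1, w1, hr, hp, hq, h0, h1⟩
    refine ⟨ru X Y v z, ?_, u0, w0, u1, w1, hp, hq, fun _ => ⟨h0, h1⟩⟩
    show ru X Y v z ∈ exRules
    unfold exRules
    rw [Finset.mem_insert, Finset.mem_insert, Finset.mem_insert, Finset.mem_insert,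
      Finset.mem_insert, Finset.mem_insert, Finset.mem_singleton]
    cases hr <;> simp

/-- steps when component 2 is a single symbol -/
theorem step1 {X Y : K} {v z u w : List Sy} (hr : Ru X Y v z) (h : Sum.inr X ∉ u) :
    exG.PStep true ((u ++ Sum.inr X :: w, [Sum.inr Y]) : Pr) (u ++ v ++ w, z) :=
  pstep_iff.2 ⟨X, Y, v, z, u, w, [], [], hr, rfl,
    Prod.ext rfl (by show z = [] ++ z ++ []; rw [List.nil_append, List.append_nil]), h,
    List.not_mem_nil⟩

theorem step1' {X Y : K} {v z u w z0 z0' z1 : List Sy} (hr : Ru X Y v z) (h : Sum.inr X ∉ u)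
    (h0 : z0 = u ++ Sum.inr X :: w) (h0' : z0' = u ++ v ++ w) (h1 : z1 = [Sum.inr Y]) :
    exG.PStep true ((z0, z1) : Pr) (z0', z) := by
  subst h0 h0' h1
  exact step1 hr h

theorem step1_inv {Y' : K} {z0 : List Sy} {q : Pr} (h : exG.PStep true ((z0, [Sum.inr Y']) : Pr) q) :
    ∃ (X : K) (v z u w : List Sy), Ru X Y' v z ∧ z0 = u ++ Sum.inr X :: w ∧ q = (u ++ v ++ w, z) ∧
      Sum.inr X ∉ u := by
  obtain ⟨X, Y, v, z, u0, w0, u1, w1, hr, hp, rfl, h0, h1⟩ := pstep_iff.1 h
  simp only [Prod.mk.injEq] at hp
  obtain ⟨rfl, hp⟩ := hp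
  cases u1 with
  | nil =>
    simp only [List.nil_append, List.cons.injEq, Sum.inr.injEq] at hp
    obtain ⟨rfl, rfl⟩ := hp
    exact ⟨X, v, z, u0, w0, hr, rfl, by rw [List.nil_append, List.append_nil], h0⟩
  | cons x u1 => simp at hp

theorem step0_inv {z0 : List Sy} {q : Pr} (h : exG.PStep true ((z0, []) : Pr) q) : False := by
  obtain ⟨X, Y, v, z, u0, w0, u1, w1, hr, hp, rfl, h0, h1⟩ := pstep_iff.1 h
  simp at hp

theorem first_unique {α : Type} {s : α} : ∀ {u u' w w' : List α}, u ++ s :: w = u' ++ s :: w' →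
    s ∉ u → s ∉ u' → u = u' ∧ w = w' := by
  intro u
  induction u with
  | nil =>
    intro u' w w' h _ h2
    cases u' with
    | nil => simpa using h
    | cons x u' =>
      simp only [List.nil_append, List.cons_append, List.cons.injEq] at h
      exact absurd (by simp [h.1]) h2
  | cons y u ih =>
    intro u' w w' h h1 h2
    cases u' with
    | nil =>
      simp only [List.nil_append, List.cons_append, List.cons.injEq] at h
      exact absurd (by simp [h.1]) h1
    | cons x u' =>
      simp only [List.cons_append, List.cons.injEq] at h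
      simp only [List.mem_cons, not_or] at h1 h2
      obtain ⟨h3, h4⟩ := ih h.2 h1.2 h2.2
      exact ⟨by rw [h.1, h3], h4⟩

/-- the number of symbols different from `c` -/
def wt (x : List Sy) : ℕ := x.countP fun s => s ≠ sc

theorem wt_append (x y : List Sy) : wt (x ++ y) = wt x + wt y := by simp [wt]

open List in
/-- the invariant -/
inductive Inv : Pr → Prop
  | P (k j : ℕ) (h : j ≤ 4 ^ k) :
      Inv (replicate (2 * (4 ^ k - j)) sB ++ replicate j sA ++ replicate (2 * k) sc ++ [sA], [sP])
  | Q (k j : ℕ) (h : j ≤ 2 * 4 ^ k) :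
      Inv (replicate (2 * (2 * 4 ^ k - j)) sA ++ replicate j sB ++ replicate (2 * k + 1) sc ++ [sB],
        [sQ])
  | F (k j : ℕ) (h : j ≤ 4 ^ k) :
      Inv (replicate (4 ^ k - j) sa ++ replicate j sA ++ replicate (2 * k) sc ++ [sA], [sF])
  | done (k : ℕ) : Inv (replicate (4 ^ k) sa ++ replicate (2 * k + 1) sc, [])
  | stuckP (z : List Sy) (h : sA ∉ z) : Inv (z, [sP])
  | stuckQ (z : List Sy) (h : sB ∉ z) : Inv (z, [sQ])
  | stuckF (z : List Sy) (h : sA ∉ z) : Inv (z, [sF])
  | stuckE (z : List Sy) (X : K) (h : Sum.inr X ∈ z) : Inv (z, [])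
  | doom (x y : List Sy) (Y : K) (h : 2 ≤ wt y) : Inv (x ++ sc :: y, [Sum.inr Y])
  | doomE (x y : List Sy) (h : 1 ≤ wt y) : Inv (x ++ sc :: y, [])

open List in
theorem inv_step {p q : Pr} (hp : Inv p) (h : exG.PStep true p q) : Inv q := by
  cases hp with
  | P k j hj =>
    obtain ⟨X, v, z, u, w, hr, h1, rfl, hu⟩ := step1_inv h
    cases j with
    | zero =>
      have h2 : (replicate (2 * 4 ^ k) sB ++ replicate (2 * k) sc) ++ sA :: [] =
          u ++ Sum.inr X :: w := by rw [← h1]; simp
      cases hr with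
      | r1 =>
        obtain ⟨rfl, rfl⟩ := first_unique h2 (by simp [mem_replicate]) hu
        exact Inv.stuckP _ (by simp [mem_replicate])
      | r2 =>
        obtain ⟨rfl, rfl⟩ := first_unique h2 (by simp [mem_replicate]) hu
        have := Inv.Q k (2 * 4 ^ k) le_rfl
        simpa [replicate_succ'] using this
    | succ j =>
      have h2 : (replicate (2 * (4 ^ k - (j + 1))) sB) ++
          sA :: (replicate j sA ++ replicate (2 * k) sc ++ [sA]) = u ++ Sum.inr X :: w := by
        rw [← h1]; simp [replicate_succ]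
      cases hr with
      | r1 =>
        obtain ⟨rfl, rfl⟩ := first_unique h2 (by simp [mem_replicate]) hu
        have := Inv.P k j (by omega)
        have e : 2 * (4 ^ k - j) = 2 * (4 ^ k - (j + 1)) + 1 + 1 := by omega
        rw [e] at this
        simpa [replicate_succ'] using this
      | r2 =>
        obtain ⟨rfl, rfl⟩ := first_unique h2 (by simp [mem_replicate]) hu
        have := Inv.doom (replicate (2 * (4 ^ k - (j + 1))) sB)
          (sB :: (replicate j sA ++ replicate (2 * k) sc ++ [sA])) K.Q (by simp [wt]; omega)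
        simpa using this
  | Q k j hj =>
    obtain ⟨X, v, z, u, w, hr, h1, rfl, hu⟩ := step1_inv h
    cases j with
    | zero =>
      have h2 : (replicate (2 * (2 * 4 ^ k)) sA ++ replicate (2 * k + 1) sc) ++ sB :: [] =
          u ++ Sum.inr X :: w := by rw [← h1]; simp
      cases hr with
      | r3 =>
        obtain ⟨rfl, rfl⟩ := first_unique h2 (by simp [mem_replicate]) hu
        exact Inv.stuckQ _ (by simp [mem_replicate])
      | r4 =>
        obtain ⟨rfl, rfl⟩ := first_unique h2 (by simp [mem_replicate]) hu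
        have := Inv.P (k + 1) (4 ^ (k + 1)) le_rfl
        have e : 4 ^ (k + 1) = 2 * (2 * 4 ^ k) := by rw [pow_succ]; ring
        rw [e] at this
        have e2 : 2 * (k + 1) = 2 * k + 1 + 1 := by ring
        rw [e2] at this
        simpa [replicate_succ'] using this
      | r5 =>
        obtain ⟨rfl, rfl⟩ := first_unique h2 (by simp [mem_replicate]) hu
        have := Inv.F (k + 1) (4 ^ (k + 1)) le_rfl
        have e : 4 ^ (k + 1) = 2 * (2 * 4 ^ k) := by rw [pow_succ]; ring
        rw [e] at this
        have e2 : 2 * (k + 1) = 2 * k + 1 + 1 := by ring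
        rw [e2] at this
        simpa [replicate_succ'] using this
    | succ j =>
      have h2 : (replicate (2 * (2 * 4 ^ k - (j + 1))) sA) ++
          sB :: (replicate j sB ++ replicate (2 * k + 1) sc ++ [sB]) = u ++ Sum.inr X :: w := by
        rw [← h1]; simp [replicate_succ]
      cases hr with
      | r3 =>
        obtain ⟨rfl, rfl⟩ := first_unique h2 (by simp [mem_replicate]) hu
        have := Inv.Q k j (by omega)
        have e : 2 * (2 * 4 ^ k - j) = 2 * (2 * 4 ^ k - (j + 1)) + 1 + 1 := by omega
        rw [e] at this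
        simpa [replicate_succ'] using this
      | r4 =>
        obtain ⟨rfl, rfl⟩ := first_unique h2 (by simp [mem_replicate]) hu
        have := Inv.doom (replicate (2 * (2 * 4 ^ k - (j + 1))) sA)
          (sA :: (replicate j sB ++ replicate (2 * k + 1) sc ++ [sB])) K.P (by simp [wt]; omega)
        simpa using this
      | r5 =>
        obtain ⟨rfl, rfl⟩ := first_unique h2 (by simp [mem_replicate]) hu
        have := Inv.doom (replicate (2 * (2 * 4 ^ k - (j + 1))) sA)
          (sA :: (replicate j sB ++ replicate (2 * k + 1) sc ++ [sB])) K.F (by simp [wt]; omega)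
        simpa using this
  | F k j hj =>
    obtain ⟨X, v, z, u, w, hr, h1, rfl, hu⟩ := step1_inv h
    cases j with
    | zero =>
      have h2 : (replicate (4 ^ k) sa ++ replicate (2 * k) sc) ++ sA :: [] =
          u ++ Sum.inr X :: w := by rw [← h1]; simp
      cases hr with
      | r6 =>
        obtain ⟨rfl, rfl⟩ := first_unique h2 (by simp [mem_replicate]) hu
        exact Inv.stuckF _ (by simp [mem_replicate])
      | r7 =>
        obtain ⟨rfl, rfl⟩ := first_unique h2 (by simp [mem_replicate]) hu
        have := Inv.done k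
        simpa [replicate_succ'] using this
    | succ j =>
      have h2 : (replicate (4 ^ k - (j + 1)) sa) ++
          sA :: (replicate j sA ++ replicate (2 * k) sc ++ [sA]) = u ++ Sum.inr X :: w := by
        rw [← h1]; simp [replicate_succ]
      cases hr with
      | r6 =>
        obtain ⟨rfl, rfl⟩ := first_unique h2 (by simp [mem_replicate]) hu
        have := Inv.F k j (by omega)
        have e : 4 ^ k - j = 4 ^ k - (j + 1) + 1 := by omega
        rw [e] at this
        simpa [replicate_succ'] using this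
      | r7 =>
        obtain ⟨rfl, rfl⟩ := first_unique h2 (by simp [mem_replicate]) hu
        exact Inv.stuckE _ K.A (by simp)
  | done k => exact (step0_inv h).elim
  | stuckP z hz =>
    obtain ⟨X, v, z', u, w, hr, rfl, rfl, hu⟩ := step1_inv h
    exfalso
    cases hr <;> exact hz (by simp)
  | stuckQ z hz =>
    obtain ⟨X, v, z', u, w, hr, rfl, rfl, hu⟩ := step1_inv h
    exfalso
    cases hr <;> exact hz (by simp)
  | stuckF z hz =>
    obtain ⟨X, v, z', u, w, hr, rfl, rfl, hu⟩ := step1_inv h
    exfalso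
    cases hr <;> exact hz (by simp)
  | stuckE z X hz => exact (step0_inv h).elim
  | doomE x y hy => exact (step0_inv h).elim
  | doom x y Y hy =>
    obtain ⟨X, v, z, u, w, hr, h1, rfl, hu⟩ := step1_inv h
    -- the new word is `x' c y'`
    have key : ∃ x' y', u ++ v ++ w = x' ++ sc :: y' ∧ (wt y' = wt y ∨ wt y' + 1 = wt y + wt v) := by
      rcases List.append_eq_append_iff.1 h1 with ⟨t, rfl, ht2⟩ | ⟨t, rfl, ht2⟩
      · cases t with
        | nil => simp at ht2
        | cons t0 t =>
          simp only [cons_append, cons.injEq] at ht2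
          obtain ⟨rfl, rfl⟩ := ht2
          refine ⟨x, t ++ v ++ w, by simp, Or.inr ?_⟩
          simp only [wt_append]
          have : wt (Sum.inr X :: w) = wt w + 1 := by simp [wt]
          omega
      · cases t with
        | nil => simp at ht2
        | cons t0 t =>
          simp only [cons_append, cons.injEq] at ht2
          obtain ⟨rfl, rfl⟩ := ht2
          exact ⟨u ++ v ++ t, y, by simp, Or.inl rfl⟩
    obtain ⟨x', y', h2, h3⟩ := key
    rw [h2]
    cases hr with
    | r1 => exact Inv.doom _ _ _ (by have : wt [sB, sB] = 2 := rfl; omega)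
    | r2 => exact Inv.doom _ _ _ (by have : wt [sc, sB] = 1 := rfl; omega)
    | r3 => exact Inv.doom _ _ _ (by have : wt [sA, sA] = 2 := rfl; omega)
    | r4 => exact Inv.doom _ _ _ (by have : wt [sc, sA] = 1 := rfl; omega)
    | r5 => exact Inv.doom _ _ _ (by have : wt [sc, sA] = 1 := rfl; omega)
    | r6 => exact Inv.doom _ _ _ (by have : wt [sa] = 1 := rfl; omega)
    | r7 => exact Inv.doomE _ _ (by have : wt [sc] = 0 := rfl; omega)

theorem inv_start : Inv (([sA, sA], [sP]) : Pr) := by
  have := Inv.P 0 1 (by norm_num)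
  simpa using this

/-- the automaton for `a* c*` -/
def dl : Fin 3 → Bool → Fin 3
  | 0, false => 0
  | 0, true => 1
  | 1, true => 1
  | 1, false => 2
  | 2, _ => 2

theorem run_two (y : List Bool) : run dl 2 y = 2 := by
  induction y with
  | nil => rfl
  | cons b y ih => exact ih

theorem run_one {y : List Bool} (h : false ∈ y) : run dl 1 y = 2 := by
  induction y with
  | nil => simp at h
  | cons b y ih =>
    cases b with
    | false => exact run_two y
    | true => exact ih (by simpa using h)

theorem run_bad {y z : List Bool} (h : false ∈ z) : ∀ p, run dl p (y ++ true :: z) = 2 := by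
  induction y with
  | nil =>
    intro p
    show run dl (dl p true) z = 2
    match p with
    | 0 => exact run_one h
    | 1 => exact run_one h
    | 2 => exact run_two z
  | cons b y ih => exact fun p => ih (dl p b)

/-- the accepting states -/
def Fs : Set (Fin 3) := {0, 1}

theorem only {w : List Bool} (hw : w ∈ exG.Lang true) (hF : run dl 0 w ∈ Fs) :
    ∃ k, w.count false = 4 ^ k := by
  rcases exG.mem_lang.1 hw with hw | ⟨v, hv, y0, y1, rfl, hd⟩
  · simp [exG] at hw
  · have hv' : v = st := Finset.mem_singleton.1 hv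
    subst hv'
    have h1 : ∀ {p q : Pr}, ReflTransGen (exG.PStep true) p q → Inv p → Inv q := by
      intro p q hpq hp
      induction hpq with
      | refl => exact hp
      | tail _ hs ih => exact inv_step ih hs
    have h2 : Inv ((y0.map Sum.inl, y1.map Sum.inl) : Pr) := h1 hd inv_start
    have hy1 : y1 = [] ∨ ∃ b y, y1 = b :: y := by cases y1 <;> simp
    generalize hz0 : (y0.map Sum.inl : List Sy) = z0 at h2
    generalize hz1 : (y1.map Sum.inl : List Sy) = z1 at h2
    cases h2 with
    | P k j h => cases y1 <;> simp at hz1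
    | Q k j h => cases y1 <;> simp at hz1
    | F k j h => cases y1 <;> simp at hz1
    | stuckP z h => cases y1 <;> simp at hz1
    | stuckQ z h => cases y1 <;> simp at hz1
    | stuckF z h => cases y1 <;> simp at hz1
    | doom x y Y h => cases y1 <;> simp at hz1
    | stuckE z X h =>
      rw [← hz0] at h
      simp at h
    | done k =>
      have : y1 = [] := by simpa using hz1
      subst this
      refine ⟨k, ?_⟩
      have hy0 : y0 = List.replicate (4 ^ k) false ++ List.replicate (2 * k + 1) true := by
        refine (List.map_injective_iff.2 (Sum.inl_injective (β := K))) ?_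
        rw [hz0]; simp
      rw [hy0]
      simp [List.count_replicate]
    | doomE x y h =>
      exfalso
      have : y1 = [] := by simpa using hz1
      subst this
      obtain ⟨x', t, rfl, hx, ht⟩ := List.map_eq_append_iff.1 hz0
      cases t with
      | nil => simp at ht
      | cons b t =>
        simp only [List.map_cons, List.cons.injEq, Sum.inl.injEq] at ht
        obtain ⟨rfl, rfl⟩ := ht
        have hf : false ∈ t := by
          have h3 : 0 < wt (t.map Sum.inl) := h
          unfold wt at h3
          rw [List.countP_pos_iff] at h3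
          obtain ⟨s, hs, hne⟩ := h3
          obtain ⟨b, hb, rfl⟩ := List.mem_map.1 hs
          cases b with
          | false => exact hb
          | true => simp at hne
        have := run_bad (y := x') hf 0
        rw [List.append_nil, this] at hF
        simp [Fs] at hF

open List in
theorem phaseP (k : ℕ) (j : ℕ) : j ≤ 4 ^ k → ReflTransGen (exG.PStep true)
    ((replicate (2 * (4 ^ k - j)) sB ++ replicate j sA ++ replicate (2 * k) sc ++ [sA], [sP]) : Pr)
    (replicate (2 * 4 ^ k) sB ++ replicate (2 * k + 1) sc ++ [sB], [sQ]) := by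
  induction j with
  | zero =>
    intro _
    refine ReflTransGen.single ?_
    exact step1' (u := replicate (2 * 4 ^ k) sB ++ replicate (2 * k) sc) (w := []) Ru.r2
      (by simp [mem_replicate]) (by simp) (by simp [replicate_succ']) rfl
  | succ j ih =>
    intro hj
    refine ReflTransGen.head ?_ (ih (by omega))
    have e : 2 * (4 ^ k - j) = 2 * (4 ^ k - (j + 1)) + 1 + 1 := by omega
    rw [e]
    exact step1' (u := replicate (2 * (4 ^ k - (j + 1))) sB)
      (w := replicate j sA ++ replicate (2 * k) sc ++ [sA]) Ru.r1 (by simp [mem_replicate])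
      (by simp [replicate_succ (n := j)]) (by simp [replicate_succ']) rfl

open List in
theorem phaseQ (k : ℕ) (j : ℕ) : j ≤ 2 * 4 ^ k → ReflTransGen (exG.PStep true)
    ((replicate (2 * (2 * 4 ^ k - j)) sA ++ replicate j sB ++ replicate (2 * k + 1) sc ++ [sB],
      [sQ]) : Pr)
    (replicate (2 * (2 * 4 ^ k)) sA ++ replicate (2 * k + 1) sc ++ [sB], [sQ]) := by
  induction j with
  | zero =>
    intro _
    simp only [Nat.sub_zero, replicate_zero, append_nil]
    exact ReflTransGen.refl
  | succ j ih =>
    intro hj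
    refine ReflTransGen.head ?_ (ih (by omega))
    have e : 2 * (2 * 4 ^ k - j) = 2 * (2 * 4 ^ k - (j + 1)) + 1 + 1 := by omega
    rw [e]
    exact step1' (u := replicate (2 * (2 * 4 ^ k - (j + 1))) sA)
      (w := replicate j sB ++ replicate (2 * k + 1) sc ++ [sB]) Ru.r3 (by simp [mem_replicate])
      (by simp [replicate_succ (n := j)]) (by simp [replicate_succ' (n := _ + 1), replicate_succ']) rfl

open List in
theorem phaseF (k : ℕ) (j : ℕ) : j ≤ 4 ^ k → ReflTransGen (exG.PStep true)
    ((replicate (4 ^ k - j) sa ++ replicate j sA ++ replicate (2 * k) sc ++ [sA], [sF]) : Pr)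
    (replicate (4 ^ k) sa ++ replicate (2 * k + 1) sc, []) := by
  induction j with
  | zero =>
    intro _
    refine ReflTransGen.single ?_
    exact step1' (u := replicate (4 ^ k) sa ++ replicate (2 * k) sc) (w := []) Ru.r7
      (by simp [mem_replicate]) (by simp) (by simp [replicate_succ']) rfl
  | succ j ih =>
    intro hj
    refine ReflTransGen.head ?_ (ih (by omega))
    have e : 4 ^ k - j = 4 ^ k - (j + 1) + 1 := by omega
    rw [e]
    exact step1' (u := replicate (4 ^ k - (j + 1)) sa)
      (w := replicate j sA ++ replicate (2 * k) sc ++ [sA]) Ru.r6 (by simp [mem_replicate])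
      (by simp [replicate_succ (n := j)]) (by simp [replicate_succ']) rfl

open List in
/-- the whole round, up to the end of the second phase -/
theorem round (k : ℕ) : ReflTransGen (exG.PStep true)
    ((replicate (4 ^ k) sA ++ replicate (2 * k) sc ++ [sA], [sP]) : Pr)
    (replicate (4 ^ (k + 1)) sA ++ replicate (2 * k + 1) sc ++ [sB], [sQ]) := by
  have h1 := phaseP k (4 ^ k) le_rfl
  have h2 := phaseQ k (2 * 4 ^ k) le_rfl
  have e : 4 ^ (k + 1) = 2 * (2 * 4 ^ k) := by rw [pow_succ]; ring
  rw [e]
  simp only [Nat.sub_self, mul_zero, replicate_zero, nil_append] at h1 h2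
  exact h1.trans h2

open List in
theorem reachP (k : ℕ) : ReflTransGen (exG.PStep true) (([sA, sA], [sP]) : Pr)
    (replicate (4 ^ k) sA ++ replicate (2 * k) sc ++ [sA], [sP]) := by
  induction k with
  | zero => exact ReflTransGen.refl
  | succ k ih =>
    refine (ih.trans (round k)).tail ?_
    have e2 : 2 * (k + 1) = 2 * k + 1 + 1 := by ring
    rw [e2]
    exact step1' (u := replicate (4 ^ (k + 1)) sA ++ replicate (2 * k + 1) sc) (w := []) Ru.r4
      (by simp [mem_replicate]) (by simp) (by simp [replicate_succ']) rfl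

open List in
theorem all (k : ℕ) : (replicate (4 ^ (k + 1)) false ++ replicate (2 * (k + 1) + 1) true : List Bool)
    ∈ exG.Lang true := by
  refine exG.mem_lang.2 (Or.inr ⟨st, Finset.mem_singleton.2 rfl, _, [], (append_nil _).symm, ?_⟩)
  have h1 := (reachP k).trans (round k)
  have h2 : exG.PStep true
      ((replicate (4 ^ (k + 1)) sA ++ replicate (2 * k + 1) sc ++ [sB], [sQ]) : Pr)
      (replicate (4 ^ (k + 1)) sA ++ replicate (2 * (k + 1)) sc ++ [sA], [sF]) := by
    have e2 : 2 * (k + 1) = 2 * k + 1 + 1 := by ring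
    rw [e2]
    exact step1' (u := replicate (4 ^ (k + 1)) sA ++ replicate (2 * k + 1) sc) (w := []) Ru.r5
      (by simp [mem_replicate]) (by simp) (by simp [replicate_succ']) rfl
  have h3 := phaseF (k + 1) (4 ^ (k + 1)) le_rfl
  simp only [Nat.sub_self, replicate_zero, nil_append] at h3
  have h4 := (h1.tail h2).trans h3
  have e : (replicate (4 ^ (k + 1)) false ++ replicate (2 * (k + 1) + 1) true : List Bool).map
      Sum.inl = (replicate (4 ^ (k + 1)) sa ++ replicate (2 * (k + 1) + 1) sc : List Sy) := by simp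
  show ReflTransGen (exG.PStep true) (([sA, sA], [sP]) : Pr) (List.map Sum.inl _, [])
  rw [show (List.map Sum.inl (replicate (4 ^ (k + 1)) false ++ replicate (2 * (k + 1) + 1) true) :
    List (Bool ⊕ exG.N 0)) = (replicate (4 ^ (k + 1)) sa ++ replicate (2 * (k + 1) + 1) sc :
      List Sy) from e]
  exact h4

theorem run_rep0 (n : ℕ) : run dl 0 (List.replicate n false) = 0 := by
  induction n with
  | zero => rfl
  | succ n ih => exact ih

theorem run_rep1 (n : ℕ) : run dl 1 (List.replicate n true) = 1 := by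
  induction n with
  | zero => rfl
  | succ n ih => exact ih

/-- the automaton over a bigger alphabet -/
def dg {T : Type} (g : T → Bool) (q : Fin 3) (t : T) : Fin 3 := dl q (g t)

theorem run_map {T : Type} {f : Bool → T} {g : T → Bool} (hg : ∀ b, g (f b) = b) (w : List Bool) :
    ∀ q, run (dg g) q (w.map f) = run dl q w := by
  induction w with
  | nil => exact fun q => rfl
  | cons b w ih =>
    intro q
    show run (dg g) (dl q (g (f b))) (w.map f) = run dl (dl q b) w
    rw [hg, ih]

/-- the language is not generated by any grammar in mode 0, whatever its terminal alphabet -/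
theorem not_mode0 (T : Type) [Finite T] (f : Bool → T) (hf : Function.Injective f) :
    List.map f '' exG.Lang true ∉ Fam T 2 false := by
  classical
  rintro ⟨G, hG⟩
  obtain ⟨g, hg⟩ := hf.hasLeftInverse
  have hinf : {x | ∃ w ∈ G.Lang false, run (dg g) 0 w ∈ Fs ∧ w.count (f false) = x}.Infinite := by
    refine Set.infinite_of_injective_forall_mem (f := fun k : ℕ => 4 ^ (k + 1)) ?_ ?_
    · intro i j hij
      have := Nat.pow_right_injective (le_refl 2) (a₁ := 2 * (i + 1)) (a₂ := 2 * (j + 1))
        (by simpa [pow_mul] using hij)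
      omega
    · intro k
      refine ⟨_, hG ▸ Set.mem_image_of_mem _ (all k), ?_, ?_⟩
      · have : run dl 0 (List.replicate (4 ^ (k + 1)) false ++
            List.replicate (2 * (k + 1) + 1) true) = 1 := by
          have h1 := run_rep0 (4 ^ (k + 1))
          have h2 := run_rep1 (2 * (k + 1))
          unfold run at *
          rw [List.foldl_append, h1, List.replicate_succ]
          exact h2
        rw [run_map hg, this]
        simp [Fs]
      · rw [List.count_map_of_injective _ f hf]
        simp [List.count_replicate]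
  obtain ⟨x, y, hxy, hm⟩ := G.ap (dg g) 0 Fs (f false) (by convert hinf)
  have g' : ∀ x, x ∈ {x | ∃ w ∈ G.Lang false, run (dg g) 0 w ∈ Fs ∧ w.count (f false) = x} →
      ∃ k, x = 4 ^ k := by
    rintro x ⟨w, hw, hF, rfl⟩
    rw [hG] at hw
    obtain ⟨w0, hw0, rfl⟩ := hw
    rw [run_map hg] at hF
    rw [List.count_map_of_injective _ f hf]
    exact only hw0 hF
  obtain ⟨i, hi⟩ := g' (x + 0 * (y - x)) (by convert hm 0)
  obtain ⟨j, hj⟩ := g' (x + 1 * (y - x)) (by convert hm 1)
  obtain ⟨l, hl⟩ := g' (x + 2 * (y - x)) (by convert hm 2)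
  rw [show x + 0 * (y - x) = x by omega] at hi
  rw [show x + 1 * (y - x) = y by omega] at hj
  have h1 : 4 ^ l = 2 * 4 ^ j - 4 ^ i := by rw [← hl, ← hi, ← hj]; omega
  have hij : (4 : ℕ) ^ i < 4 ^ j := by rw [← hi, ← hj]; exact hxy
  rcases le_or_gt l j with h | h
  · have := Nat.pow_le_pow_right (show 0 < 4 by norm_num) h
    omega
  · have := Nat.pow_le_pow_right (show 0 < 4 by norm_num) (show j + 1 ≤ l from h)
    rw [pow_succ] at this
    omega

theorem mem_mode1 : exG.Lang true ∈ Fam Bool 2 true := ⟨exG, rfl⟩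

end Pool.Agent.Q230.EM.Ex
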