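import Pool.Agent.Q230.EM.Pair

set_option autoImplicit false

/-!
# Mode 1 grammars simulate counter machines with zero tests

Component 1 contains the tokens of the counters, component 2 the output and the control state. To
test that the counter `j` is zero, the end marker `E` becomes a token of `j`, and then the leftmost
token of `j` becomes `C E`. If there was another token of `j`, then from now on there is a
symbol `C` with two symbols of positive weight to its right, and this remains so. At the end the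
leftmost `C` and the rightmost residue `g` of a token are the only ones which leave a terminal.
-/

namespace Pool.Agent.Q230.EM.Mc

open Relation Pool.Agent.Q230.EM

/-- operations: `add v u` adds tokens and writes `u`, `sub j v` replaces a token of `j` by the
tokens `v`, and `zero j` tests that there is no token of `j` -/
inductive Op (T J : Type)
  | add (v : List J) (u : List T)
  | sub (j : J) (v : List J)
  | zero (j : J)

/-- a counter machine with output -/
structure Mch (T : Type) : Type 1 where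
  Q : Type
  J : Type
  finQ : Finite Q
  finJ : Finite J
  q0 : Q
  qf : Q
  ins : Set (Q × Op T J × Q)
  fin_ins : ins.Finite

section
variable {T : Type} (M : Mch T)

open scoped Classical in
/-- the number of tokens in a list -/
noncomputable def cn {J : Type} (v : List J) (j : J) : ℕ := v.count j

/-- a step of the machine; a configuration is a state, the values of the counters and the output -/
inductive Stp : M.Q × (M.J → ℕ) × List T → M.Q × (M.J → ℕ) × List T → Prop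
  | add {q q' : M.Q} {v : List M.J} {u : List T} (h : (q, Op.add v u, q') ∈ M.ins)
      (n : M.J → ℕ) (x : List T) : Stp (q, n, x) (q', n + cn v, x ++ u)
  | sub {q q' : M.Q} {j : M.J} {v : List M.J} (h : (q, Op.sub j v, q') ∈ M.ins)
      (n m : M.J → ℕ) (hn : n = cn [j] + m) (x : List T) : Stp (q, n, x) (q', m + cn v, x)
  | zero {q q' : M.Q} {j : M.J} (h : (q, Op.zero j, q') ∈ M.ins)
      (n : M.J → ℕ) (hn : n j = 0) (x : List T) : Stp (q, n, x) (q', n, x)

/-- the outputs of the computations which reach the state `qf` -/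
def Out : Set (List T) := {u | ∃ n, ReflTransGen (Stp M) (M.q0, 0, []) (M.qf, n, u)}

end

/-- symbols of component 1 -/
inductive S1 (J : Type)
  | Z | tok (j : J) | g | C | E

/-- symbols of component 2 -/
inductive S2 (Q J : Type)
  | st (q : Q) | tst (j : J) (q : Q) | f0 | f1 | f2 | f3 | f4

instance {J : Type} [Finite J] : Finite (S1 J) := by
  refine Finite.of_injective (β := Option J ⊕ Fin 4) (fun
    | S1.Z => Sum.inr 0 | S1.tok j => Sum.inl (some j) | S1.g => Sum.inr 1 | S1.C => Sum.inr 2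
    | S1.E => Sum.inr 3) ?_
  intro x y h
  cases x <;> cases y <;> simp_all

instance {Q J : Type} [Finite Q] [Finite J] : Finite (S2 Q J) := by
  refine Finite.of_injective (β := (Q ⊕ J × Q) ⊕ Fin 5) (fun
    | S2.st q => Sum.inl (Sum.inl q) | S2.tst j q => Sum.inl (Sum.inr (j, q))
    | S2.f0 => Sum.inr 0 | S2.f1 => Sum.inr 1 | S2.f2 => Sum.inr 2 | S2.f3 => Sum.inr 3
    | S2.f4 => Sum.inr 4) ?_
  intro x y h
  cases x <;> cases y <;> simp_all

section
variable {T : Type} (M : Mch T)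

/-- words of component 1 -/
abbrev W1 : Type := List ((T ⊕ Bool) ⊕ S1 M.J)

/-- words of component 2 -/
abbrev W2 : Type := List ((T ⊕ Bool) ⊕ S2 M.Q M.J)

variable {M}

/-- symbols of component 1 as letters of words -/
abbrev s1 (s : S1 M.J) : (T ⊕ Bool) ⊕ S1 M.J := Sum.inr s

/-- symbols of component 2 as letters of words -/
abbrev s2 (s : S2 M.Q M.J) : (T ⊕ Bool) ⊕ S2 M.Q M.J := Sum.inr s

/-- a list of tokens as a word -/
def tk (v : List M.J) : W1 M := v.map fun j => s1 (S1.tok j)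

/-- the output as a word -/
def ow (u : List T) : W2 M := u.map fun t => Sum.inl (Sum.inl t)

/-- the terminal `a` -/
abbrev ta : (T ⊕ Bool) ⊕ S1 M.J := Sum.inl (Sum.inr false)

/-- the terminal `c` -/
abbrev tc : (T ⊕ Bool) ⊕ S1 M.J := Sum.inl (Sum.inr true)

variable (M)

/-- the rules -/
inductive Ru : S1 M.J → S2 M.Q M.J → W1 M → W2 M → Prop
  | add {q q' : M.Q} {v : List M.J} {u : List T} (h : (q, Op.add v u, q') ∈ M.ins) :
      Ru S1.Z (S2.st q) (s1 S1.Z :: tk v) (ow u ++ [s2 (S2.st q')])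
  | sub {q q' : M.Q} {j : M.J} {v : List M.J} (h : (q, Op.sub j v, q') ∈ M.ins) :
      Ru (S1.tok j) (S2.st q) (s1 S1.g :: tk v) [s2 (S2.st q')]
  | zero {q q' : M.Q} {j : M.J} (h : (q, Op.zero j, q') ∈ M.ins) :
      Ru S1.E (S2.st q) [s1 (S1.tok j)] [s2 (S2.tst j q')]
  | tst (j : M.J) (q : M.Q) : Ru (S1.tok j) (S2.tst j q) [s1 S1.C, s1 S1.E] [s2 (S2.st q)]
  | fin : Ru S1.Z (S2.st M.qf) [s1 S1.Z] [s2 S2.f0]
  | f0a (j : M.J) : Ru (S1.tok j) S2.f0 [s1 S1.g] [s2 S2.f0]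
  | f0b : Ru S1.Z S2.f0 [s1 S1.Z] [s2 S2.f1]
  | f1a : Ru S1.g S2.f1 [] [s2 S2.f1]
  | f1b : Ru S1.g S2.f1 [ta] [s2 S2.f2]
  | f2a : Ru S1.C S2.f2 [tc] [s2 S2.f3]
  | f3a : Ru S1.C S2.f3 [] [s2 S2.f3]
  | f3b : Ru S1.Z S2.f3 [] [s2 S2.f4]
  | f4 : Ru S1.E S2.f4 [] []

/-- the nonterminals -/
def Ns : Fin 2 → Type
  | 0 => S1 M.J
  | 1 => S2 M.Q M.J

/-- a rule of the grammar -/
def rl (p : S1 M.J × S2 M.Q M.J × W1 M × W2 M) :
    (∀ i, Ns M i) × (∀ i, List ((T ⊕ Bool) ⊕ Ns M i)) :=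
  (EMG.fn2 (α := Ns M) p.1 p.2.1,
    EMG.fn2 (α := fun i => List ((T ⊕ Bool) ⊕ Ns M i)) p.2.2.1 p.2.2.2)

/-- the set of the rules -/
def RS : Set (S1 M.J × S2 M.Q M.J × W1 M × W2 M) := {p | Ru M p.1 p.2.1 p.2.2.1 p.2.2.2}

theorem finRS : (RS M).Finite := by
  have := M.finQ
  have := M.finJ
  have h1 : ((fun i : M.Q × Op T M.J × M.Q => (match i with
    | (q, Op.add v u, q') => ((S1.Z, S2.st q, s1 S1.Z :: tk v, ow u ++ [s2 (S2.st q')]) :
        S1 M.J × S2 M.Q M.J × W1 M × W2 M)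
    | (q, Op.sub j v, q') => (S1.tok j, S2.st q, s1 S1.g :: tk v, [s2 (S2.st q')])
    | (q, Op.zero j, q') => (S1.E, S2.st q, [s1 (S1.tok j)], [s2 (S2.tst j q')]))) ''
      M.ins).Finite := M.fin_ins.image _
  have h2 : (Set.range fun p : M.J × M.Q => ((S1.tok p.1, S2.tst p.1 p.2, [s1 S1.C, s1 S1.E],
      [s2 (S2.st p.2)]) : S1 M.J × S2 M.Q M.J × W1 M × W2 M)).Finite := Set.finite_range _
  have h3 : (Set.range fun j : M.J => ((S1.tok j, S2.f0, [s1 S1.g], [s2 S2.f0]) :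
      S1 M.J × S2 M.Q M.J × W1 M × W2 M)).Finite := Set.finite_range _
  have h4 : ({(S1.Z, S2.st M.qf, [s1 S1.Z], [s2 S2.f0]), (S1.Z, S2.f0, [s1 S1.Z], [s2 S2.f1]),
      (S1.g, S2.f1, [], [s2 S2.f1]), (S1.g, S2.f1, [ta], [s2 S2.f2]),
      (S1.C, S2.f2, [tc], [s2 S2.f3]), (S1.C, S2.f3, [], [s2 S2.f3]),
      (S1.Z, S2.f3, [], [s2 S2.f4]), (S1.E, S2.f4, [], [])} :
      Set (S1 M.J × S2 M.Q M.J × W1 M × W2 M)).Finite := Set.toFinite _
  refine (((h1.union h2).union h3).union h4).subset ?_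
  rintro ⟨X, Y, v, z⟩ h
  have h' : Ru M X Y v z := h
  clear h
  cases h' with
  | @add q q' v u h => exact Or.inl (Or.inl (Or.inl ⟨(q, Op.add v u, q'), h, rfl⟩))
  | @sub q q' j v h => exact Or.inl (Or.inl (Or.inl ⟨(q, Op.sub j v, q'), h, rfl⟩))
  | @zero q q' j h => exact Or.inl (Or.inl (Or.inl ⟨(q, Op.zero j, q'), h, rfl⟩))
  | tst j q => exact Or.inl (Or.inl (Or.inr ⟨(j, q), rfl⟩))
  | f0a j => exact Or.inl (Or.inr ⟨j, rfl⟩)
  | fin => exact Or.inr (by simp)
  | f0b => exact Or.inr (by simp)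
  | f1a => exact Or.inr (by simp)
  | f1b => exact Or.inr (by simp)
  | f2a => exact Or.inr (by simp)
  | f3a => exact Or.inr (by simp)
  | f3b => exact Or.inr (by simp)
  | f4 => exact Or.inr (by simp)

/-- the start word of component 1 -/
def w1 : W1 M := [s1 S1.Z, s1 S1.g, s1 S1.C, s1 S1.E]

/-- the start word of component 2 -/
def w2 : W2 M := [s2 (S2.st M.q0)]

/-- the start words -/
def st : ∀ i, List ((T ⊕ Bool) ⊕ Ns M i) :=
  EMG.fn2 (α := fun i => List ((T ⊕ Bool) ⊕ Ns M i)) (w1 M) (w2 M)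

/-- the grammar of the machine -/
noncomputable def gr : EMG (T ⊕ Bool) 2 where
  N := Ns M
  finN := fun i => by
    have := M.finQ
    have := M.finJ
    match i with
    | 0 => exact inferInstanceAs (Finite (S1 M.J))
    | 1 => exact inferInstanceAs (Finite (S2 M.Q M.J))
  words := ∅
  starts := {st M}
  starts_ok := by
    intro v hv i
    have hv' : v = st M := Finset.mem_singleton.1 hv
    subst hv'
    match i with
    | 0 => exact ⟨S1.Z, List.mem_cons_self⟩
    | 1 => exact ⟨S2.st M.q0, List.mem_cons_self⟩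
  rules := ((finRS M).image (rl M)).toFinset

/-- pairs of words -/
abbrev Pq : Type := W1 M × W2 M

theorem pstep_iff {p q : Pq M} : (gr M).PStep true p q ↔
    ∃ (X : S1 M.J) (Y : S2 M.Q M.J) (v : W1 M) (z : W2 M) (u0 w0 : W1 M) (u1 w1 : W2 M),
      Ru M X Y v z ∧ p = (u0 ++ Sum.inr X :: w0, u1 ++ Sum.inr Y :: w1) ∧
      q = (u0 ++ v ++ w0, u1 ++ z ++ w1) ∧ Sum.inr X ∉ u0 ∧ Sum.inr Y ∉ u1 := by
  constructor
  · rintro ⟨r, hr, u0, w0, u1, w1, hp, hq, hm⟩
    obtain ⟨⟨X, Y, v, z⟩, hR, rfl⟩ := (Set.Finite.mem_toFinset _).1 hr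
    obtain ⟨h0, h1⟩ := hm rfl
    exact ⟨X, Y, v, z, u0, w0, u1, w1, hR, hp, hq, h0, h1⟩
  · rintro ⟨X, Y, v, z, u0, w0, u1, w1, hR, hp, hq, h0, h1⟩
    exact ⟨rl M (X, Y, v, z), (Set.Finite.mem_toFinset _).2 ⟨(X, Y, v, z), hR, rfl⟩,
      u0, w0, u1, w1, hp, hq, fun _ => ⟨h0, h1⟩⟩

/-- steps when component 2 is an output followed by a control symbol -/
theorem step2 {X : S1 M.J} {Y : S2 M.Q M.J} {v x x' u0 w0 : W1 M} {z : W2 M} (u : List T)
    (hR : Ru M X Y v z) (hx : x = u0 ++ Sum.inr X :: w0) (hx' : x' = u0 ++ v ++ w0)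
    (h0 : Sum.inr X ∉ u0) : (gr M).PStep true ((x, ow u ++ [s2 Y]) : Pq M) (x', ow u ++ z) := by
  refine (pstep_iff M).2 ⟨X, Y, v, z, u0, w0, ow u, [], hR, ?_, ?_, h0, ?_⟩
  · rw [hx]
  · exact Prod.ext hx' (List.append_nil _).symm
  · simp [ow]

theorem step2_inv {Y' : S2 M.Q M.J} {x : W1 M} {u : List T} {q : Pq M}
    (h : (gr M).PStep true ((x, ow u ++ [s2 Y']) : Pq M) q) :
    ∃ (X : S1 M.J) (v : W1 M) (z : W2 M) (u0 w0 : W1 M), Ru M X Y' v z ∧
      x = u0 ++ Sum.inr X :: w0 ∧ q = (u0 ++ v ++ w0, ow u ++ z) ∧ Sum.inr X ∉ u0 := by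
  obtain ⟨X, Y, v, z, u0, w0, u1, w1, hR, hp, rfl, h0, h1⟩ := (pstep_iff M).1 h
  simp only [Prod.mk.injEq] at hp
  obtain ⟨rfl, hp⟩ := hp
  rcases List.append_eq_append_iff.1 hp with ⟨t, rfl, ht⟩ | ⟨t, ht, ht'⟩
  · cases t with
    | nil =>
      simp only [List.nil_append, List.cons.injEq, Sum.inr.injEq] at ht
      obtain ⟨rfl, rfl⟩ := ht
      exact ⟨X, v, z, u0, w0, hR, rfl, by simp, h0⟩
    | cons a t => simp at ht
  · cases t with
    | nil =>
      simp only [List.append_nil, List.nil_append, List.cons.injEq, Sum.inr.injEq] at ht ht'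
      obtain ⟨rfl, rfl⟩ := ht'
      rw [← ht]
      exact ⟨X, v, z, u0, w0, hR, rfl, by simp, h0⟩
    | cons a t =>
      exfalso
      simp only [List.cons_append, List.cons.injEq] at ht'
      have : (Sum.inr Y : (T ⊕ Bool) ⊕ S2 M.Q M.J) ∈ (ow u : W2 M) := by
        rw [ht, ← ht'.1]; simp
      simp [ow] at this

theorem step0_inv {x : W1 M} {u : List T} {q : Pq M}
    (h : (gr M).PStep true ((x, ow u) : Pq M) q) : False := by
  obtain ⟨X, Y, v, z, u0, w0, u1, w1, hR, hp, rfl, h0, h1⟩ := (pstep_iff M).1 h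
  simp only [Prod.mk.injEq] at hp
  have : (Sum.inr Y : (T ⊕ Bool) ⊕ S2 M.Q M.J) ∈ (ow u : W2 M) := by rw [hp.2]; simp
  simp [ow] at this

end

end Pool.Agent.Q230.EM.Mc
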