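import Pool.Agent.Q230.EM.Pair

set_option autoImplicit false

/-!
# Matrix grammars without appearance checking
-/

namespace Pool.Agent.Q230.EM

open Relation

/-- A matrix grammar with terminal alphabet `T`: a finite set `N` of nonterminals, a start symbol
and a finite set of matrices. A matrix is a finite sequence of context-free rules `(A, w)`
(`A → w`, erasing rules are allowed). -/
structure MG (T : Type) : Type 1 where
  N : Type
  finN : Finite N
  S : N
  mats : Finset (List (N × List (T ⊕ N)))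

namespace MG

variable {T : Type} (G : MG T)

/-- a step with a context-free rule -/
def Rw (r : G.N × List (T ⊕ G.N)) (x y : List (T ⊕ G.N)) : Prop :=
  ∃ u w, x = u ++ Sum.inr r.1 :: w ∧ y = u ++ r.2 ++ w

/-- the rules of a matrix are applied one after the other -/
def App : List (G.N × List (T ⊕ G.N)) → List (T ⊕ G.N) → List (T ⊕ G.N) → Prop
  | [], x, y => x = y
  | r :: l, x, y => ∃ z, G.Rw r x z ∧ App l z y

/-- a derivation step: a whole matrix is applied -/
def MStep (x y : List (T ⊕ G.N)) : Prop := ∃ m ∈ G.mats, G.App m x y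

/-- the generated language -/
def Lang : Set (List T) := {x | ReflTransGen G.MStep [Sum.inr G.S] (x.map Sum.inl)}

theorem app_append {l l' : List (G.N × List (T ⊕ G.N))} : ∀ {x y z : List (T ⊕ G.N)},
    G.App l x y → G.App l' y z → G.App (l ++ l') x z := by
  induction l with
  | nil => rintro x y z rfl h; exact h
  | cons r l ih =>
    rintro x y z ⟨x', h1, h2⟩ h3
    exact ⟨x', h1, ih h2 h3⟩

/-- the control symbols: what remains of a matrix -/
def C : Type := {l : List (G.N × List (T ⊕ G.N)) // l = [] ∨ ∃ m ∈ G.mats, l <:+ m}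

theorem finC : Finite G.C := by
  have h : {l : List (G.N × List (T ⊕ G.N)) | l = [] ∨ ∃ m ∈ G.mats, l <:+ m}.Finite := by
    have : ({[]} ∪ ⋃ m ∈ G.mats, {l : List (G.N × List (T ⊕ G.N)) | l ∈ m.tails}).Finite := by
      refine (Set.finite_singleton _).union ?_
      exact Set.Finite.biUnion G.mats.finite_toSet fun m _ => List.finite_toSet _
    refine this.subset ?_
    rintro l (rfl | ⟨m, hm, hl⟩)
    · exact Or.inl rfl
    · refine Or.inr ?_
      simp only [Set.mem_iUnion]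
      exact ⟨m, hm, (List.mem_tails _ _).2 hl⟩
  exact h.to_subtype

/-- idle control -/
def idle : G.C := ⟨[], Or.inl rfl⟩

/-- the nonterminals of the components -/
def Ns : Fin 2 → Type
  | 0 => G.N
  | 1 => G.C

/-- the rule `(r.1, c) → (r.2, v)` -/
def mkR (r : G.N × List (T ⊕ G.N)) (c : G.C) (v : List (T ⊕ G.C)) :
    (∀ i, G.Ns i) × (∀ i, List (T ⊕ G.Ns i)) :=
  (EMG.fn2 (α := G.Ns) r.1 c, EMG.fn2 (α := fun i => List (T ⊕ G.Ns i)) r.2 v)

/-- the rules -/
def R : Set ((∀ i, G.Ns i) × (∀ i, List (T ⊕ G.Ns i))) :=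
  {ρ | ∃ (r : G.N × List (T ⊕ G.N)) (c c' : G.C), (r :: c'.1 = c.1 ∨ (c = G.idle ∧
    r :: c'.1 ∈ G.mats)) ∧ (ρ = G.mkR r c [Sum.inr c'] ∨ (c'.1 = [] ∧ ρ = G.mkR r c []))}

theorem finR : G.R.Finite := by
  have := G.finC
  -- the rules `r` which occur
  have h0 : {r : G.N × List (T ⊕ G.N) | ∃ m ∈ G.mats, r ∈ m}.Finite := by
    refine (Set.Finite.biUnion G.mats.finite_toSet fun m _ => List.finite_toSet m).subset ?_
    rintro r ⟨m, hm, hr⟩
    simp only [Set.mem_iUnion]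
    exact ⟨m, hm, hr⟩
  have h1 : ((fun p : (G.N × List (T ⊕ G.N)) × G.C × G.C => G.mkR p.1 p.2.1 [Sum.inr p.2.2]) ''
      ({r | ∃ m ∈ G.mats, r ∈ m} ×ˢ Set.univ) ∪
      (fun p : (G.N × List (T ⊕ G.N)) × G.C × G.C => G.mkR p.1 p.2.1 []) ''
      ({r | ∃ m ∈ G.mats, r ∈ m} ×ˢ Set.univ)).Finite :=
    ((h0.prod Set.finite_univ).image _).union ((h0.prod Set.finite_univ).image _)
  refine h1.subset ?_
  rintro ρ ⟨r, c, c', h, h'⟩
  have hr : ∃ m ∈ G.mats, r ∈ m := by
    rcases h with h | ⟨-, h⟩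
    · rcases c.2 with hc | ⟨m, hm, hc⟩
      · rw [hc] at h; simp at h
      · exact ⟨m, hm, hc.subset (by rw [← h]; simp)⟩
    · exact ⟨_, h, by simp⟩
  rcases h' with rfl | ⟨-, rfl⟩
  · exact Or.inl ⟨(r, c, c'), ⟨hr, Set.mem_univ _⟩, rfl⟩
  · exact Or.inr ⟨(r, c, c'), ⟨hr, Set.mem_univ _⟩, rfl⟩

/-- the start words -/
def st : ∀ i, List (T ⊕ G.Ns i) :=
  EMG.fn2 (α := fun i => List (T ⊕ G.Ns i)) [Sum.inr G.S] [Sum.inr G.idle]

/-- the even matrix grammar of degree 2 -/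
noncomputable def toEMG : EMG T 2 where
  N := G.Ns
  finN := fun i => match i with
    | 0 => G.finN
    | 1 => G.finC
  words := ∅
  starts := {G.st}
  starts_ok := by
    intro v hv i
    have hv' : v = G.st := Finset.mem_singleton.1 hv
    subst hv'
    match i with
    | 0 => exact ⟨G.S, List.mem_singleton.2 rfl⟩
    | 1 => exact ⟨G.idle, List.mem_singleton.2 rfl⟩
  rules := G.finR.toFinset

/-- pairs -/
abbrev CPr : Type := List (T ⊕ G.N) × List (T ⊕ G.C)

theorem pstep_iff {p q : G.CPr} : G.toEMG.PStep false p q ↔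
    ∃ (r : G.N × List (T ⊕ G.N)) (c c' : G.C) (u0 w0 : List (T ⊕ G.N)) (u1 w1 v : List (T ⊕ G.C)),
      (r :: c'.1 = c.1 ∨ (c = G.idle ∧ r :: c'.1 ∈ G.mats)) ∧
      (v = [Sum.inr c'] ∨ (c'.1 = [] ∧ v = [])) ∧
      p = (u0 ++ Sum.inr r.1 :: w0, u1 ++ Sum.inr c :: w1) ∧ q = (u0 ++ r.2 ++ w0, u1 ++ v ++ w1) := by
  constructor
  · rintro ⟨ρ, hρ, u0, w0, u1, w1, hp, hq, -⟩
    obtain ⟨r, c, c', h, h'⟩ := (Set.Finite.mem_toFinset _).1 hρ
    rcases h' with rfl | ⟨h', rfl⟩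
    · exact ⟨r, c, c', u0, w0, u1, w1, _, h, Or.inl rfl, hp, hq⟩
    · exact ⟨r, c, c', u0, w0, u1, w1, _, h, Or.inr ⟨h', rfl⟩, hp, hq⟩
  · rintro ⟨r, c, c', u0, w0, u1, w1, v, h, h', hp, hq⟩
    refine ⟨G.mkR r c v, (Set.Finite.mem_toFinset _).2 ⟨r, c, c', h, ?_⟩, u0, w0, u1, w1, hp, hq,
      by simp⟩
    rcases h' with rfl | ⟨h', rfl⟩
    · exact Or.inl rfl
    · exact Or.inr ⟨h', rfl⟩

theorem one_step {r : G.N × List (T ⊕ G.N)} {c c' : G.C} {x y : List (T ⊕ G.N)}
    {v : List (T ⊕ G.C)} (h : G.Rw r x y)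
    (hc : r :: c'.1 = c.1 ∨ (c = G.idle ∧ r :: c'.1 ∈ G.mats))
    (hv : v = [Sum.inr c'] ∨ (c'.1 = [] ∧ v = [])) :
    G.toEMG.PStep false ((x, [Sum.inr c]) : G.CPr) (y, v) := by
  obtain ⟨u, w, rfl, rfl⟩ := h
  exact G.pstep_iff.2 ⟨r, c, c', u, w, [], [], v, hc, hv, rfl,
    Prod.ext rfl (by show v = [] ++ v ++ []; rw [List.nil_append, List.append_nil])⟩

/-- the rest of a matrix is simulated -/
theorem sim_rest (l : List (G.N × List (T ⊕ G.N))) : ∀ (c : G.C) (x y : List (T ⊕ G.N)),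
    c.1 = l → l ≠ [] → G.App l x y → ∀ v : List (T ⊕ G.C), (v = [Sum.inr G.idle] ∨ v = []) →
      ReflTransGen (G.toEMG.PStep false) ((x, [Sum.inr c]) : G.CPr) (y, v) := by
  induction l with
  | nil => intro c x y _ h; exact absurd rfl h
  | cons r l ih =>
    rintro c x y hc - ⟨z, h1, h2⟩ v hv
    have hl : l = [] ∨ ∃ m ∈ G.mats, l <:+ m := by
      rcases c.2 with h | ⟨m, hm, h⟩
      · rw [hc] at h; simp at h
      · rw [hc] at h
        exact Or.inr ⟨m, hm, (List.suffix_cons r l).trans h⟩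
    by_cases hl0 : l = []
    · subst hl0
      have h3 : z = y := h2
      subst h3
      refine ReflTransGen.single (G.one_step (c' := G.idle) h1 (Or.inl hc.symm) ?_)
      rcases hv with rfl | rfl
      · exact Or.inl rfl
      · exact Or.inr ⟨rfl, rfl⟩
    · refine ReflTransGen.head (G.one_step (c' := ⟨l, hl⟩) h1 (Or.inl hc.symm) (Or.inl rfl)) ?_
      exact ih ⟨l, hl⟩ z y rfl hl0 h2 v hv

theorem sim_mat {m : List (G.N × List (T ⊕ G.N))} (hm : m ∈ G.mats) (h0 : m ≠ [])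
    {x y : List (T ⊕ G.N)} (h : G.App m x y) (v : List (T ⊕ G.C))
    (hv : v = [Sum.inr G.idle] ∨ v = []) :
    ReflTransGen (G.toEMG.PStep false) ((x, [Sum.inr G.idle]) : G.CPr) (y, v) := by
  cases m with
  | nil => exact absurd rfl h0
  | cons r l =>
    obtain ⟨z, h1, h2⟩ := h
    by_cases hl0 : l = []
    · subst hl0
      have h3 : z = y := h2
      subst h3
      refine ReflTransGen.single (G.one_step (c' := G.idle) h1 (Or.inr ⟨rfl, hm⟩) ?_)
      rcases hv with rfl | rfl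
      · exact Or.inl rfl
      · exact Or.inr ⟨rfl, rfl⟩
    · have hl : l = [] ∨ ∃ m ∈ G.mats, l <:+ m := Or.inr ⟨_, hm, List.suffix_cons r l⟩
      refine ReflTransGen.head (G.one_step (c' := ⟨l, hl⟩) h1 (Or.inr ⟨rfl, hm⟩) (Or.inl rfl)) ?_
      exact G.sim_rest l ⟨l, hl⟩ z y rfl hl0 h2 v hv

theorem complete {a y : List (T ⊕ G.N)} (h : ReflTransGen G.MStep a y) :
    ReflTransGen (G.toEMG.PStep false) ((a, [Sum.inr G.idle]) : G.CPr) (y, [Sum.inr G.idle]) ∧
    (y = a ∨ ReflTransGen (G.toEMG.PStep false) ((a, [Sum.inr G.idle]) : G.CPr) (y, [])) := by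
  induction h with
  | refl => exact ⟨ReflTransGen.refl, Or.inl rfl⟩
  | @tail y z _ hs ih =>
    obtain ⟨m, hm, hA⟩ := hs
    by_cases h0 : m = []
    · subst h0
      have : y = z := hA
      subst this
      exact ih
    · exact ⟨ih.1.trans (G.sim_mat hm h0 hA _ (Or.inl rfl)),
        Or.inr (ih.1.trans (G.sim_mat hm h0 hA _ (Or.inr rfl)))⟩

/-- the invariant of the simulation -/
def Inv (p : G.CPr) : Prop :=
  (p.2 = [] ∧ ReflTransGen G.MStep [Sum.inr G.S] p.1) ∨
  ∃ c : G.C, p.2 = [Sum.inr c] ∧ ((c.1 = [] ∧ ReflTransGen G.MStep [Sum.inr G.S] p.1) ∨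
    ∃ z d, ReflTransGen G.MStep [Sum.inr G.S] z ∧ d ++ c.1 ∈ G.mats ∧ G.App d z p.1)

theorem inv_step {p q : G.CPr} (hp : G.Inv p) (h : G.toEMG.PStep false p q) : G.Inv q := by
  obtain ⟨r, c, c', u0, w0, u1, w1, v, h1, h2, rfl, rfl⟩ := G.pstep_iff.1 h
  rcases hp with ⟨hp, -⟩ | ⟨k, hk, hp⟩
  · simp at hp
  · dsimp only at hk hp
    cases u1 with
    | cons a u1 => simp at hk
    | nil =>
      simp only [List.nil_append, List.cons.injEq, Sum.inr.injEq] at hk
      obtain ⟨rfl, rfl⟩ := hk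
      have hRw : G.Rw r (u0 ++ Sum.inr r.1 :: w0) (u0 ++ r.2 ++ w0) := ⟨u0, w0, rfl, rfl⟩
      have key : ∃ z d, ReflTransGen G.MStep [Sum.inr G.S] z ∧ d ++ c'.1 ∈ G.mats ∧
          G.App d z (u0 ++ r.2 ++ w0) := by
        rcases h1 with h1 | ⟨hid, h1⟩
        · rcases hp with ⟨hp, -⟩ | ⟨z, d, hz, hd, hA⟩
          · rw [hp] at h1; simp at h1
          · refine ⟨z, d ++ [r], hz, ?_, G.app_append hA ⟨_, hRw, rfl⟩⟩
            rw [← h1] at hd
            simpa using hd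
        · have hre : ReflTransGen G.MStep [Sum.inr G.S] (u0 ++ Sum.inr r.1 :: w0) := by
            rcases hp with ⟨-, hp⟩ | ⟨z, d, hz, hd, hA⟩
            · exact hp
            · refine hz.tail ⟨d, ?_, hA⟩
              rw [hid] at hd
              simpa [idle] using hd
          exact ⟨_, [r], hre, h1, ⟨_, hRw, rfl⟩⟩
      rcases h2 with rfl | ⟨h2, rfl⟩
      · exact Or.inr ⟨c', by simp, Or.inr key⟩
      · refine Or.inl ⟨by simp, ?_⟩
        obtain ⟨z, d, hz, hd, hA⟩ := key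
        rw [h2, List.append_nil] at hd
        exact hz.tail ⟨d, hd, hA⟩

theorem inv_steps {p q : G.CPr} (hp : G.Inv p) (h : ReflTransGen (G.toEMG.PStep false) p q) :
    G.Inv q := by
  induction h with
  | refl => exact hp
  | tail _ hs ih => exact G.inv_step ih hs

theorem toEMG_lang : G.toEMG.Lang false = G.Lang := by
  ext x
  rw [G.toEMG.mem_lang]
  constructor
  · rintro (h | ⟨v, hv, y0, y1, rfl, h⟩)
    · exact absurd h (Finset.notMem_empty _)
    · have hv' : v = G.st := Finset.mem_singleton.1 hv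
      subst hv'
      have h0 : G.Inv ([Sum.inr G.S], [Sum.inr G.idle]) :=
        Or.inr ⟨G.idle, rfl, Or.inl ⟨rfl, ReflTransGen.refl⟩⟩
      have h1 : G.Inv (y0.map Sum.inl, y1.map Sum.inl) := G.inv_steps h0 h
      rcases h1 with ⟨h1, h2⟩ | ⟨c, h1, -⟩
      · have : y1 = [] := by simpa using h1
        subst this
        simpa [Lang] using h2
      · cases y1 <;> simp at h1
  · intro h
    rcases (G.complete h).2 with h1 | h1
    · cases x <;> simp at h1
    · exact Or.inr ⟨G.st, Finset.mem_singleton.2 rfl, x, [], by simp, h1⟩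

end MG

/-- the family `M` -/
def FamM (T : Type) : Set (Set (List T)) := {L | ∃ G : MG T, G.Lang = L}

theorem famM_sub (T : Type) : FamM T ⊆ Fam T 2 false := by
  rintro _ ⟨G, rfl⟩
  exact ⟨G.toEMG, G.toEMG_lang⟩

end Pool.Agent.Q230.EM
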