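import Pool.Agent.Q230.EM.Una

set_option autoImplicit false

/-!
# A monotone grammar for the words `a ^ (2 ^ k)`
-/

namespace Pool.Agent.Q230.EM

open Relation

/-- A phrase structure grammar with terminal alphabet `T`. -/
structure PSG (T : Type) : Type 1 where
  N : Type
  finN : Finite N
  S : N
  rules : Finset (List (T ⊕ N) × List (T ⊕ N))
  lhs_ok : ∀ r ∈ rules, ∃ A : N, Sum.inr A ∈ r.1

namespace PSG

variable {T : Type} (G : PSG T)

/-- a derivation step -/
def Step (x y : List (T ⊕ G.N)) : Prop :=
  ∃ r ∈ G.rules, ∃ u w, x = u ++ r.1 ++ w ∧ y = u ++ r.2 ++ w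

/-- the generated language -/
def Lang : Set (List T) := {x | ReflTransGen G.Step [Sum.inr G.S] (x.map Sum.inl)}

/-- monotone grammars: no rule shortens a word -/
def Monotone : Prop := ∀ r ∈ G.rules, r.1.length ≤ r.2.length

theorem step_ctx {x y : List (T ⊕ G.N)} (h : G.Step x y) (u w : List (T ⊕ G.N)) :
    G.Step (u ++ x ++ w) (u ++ y ++ w) := by
  obtain ⟨r, hr, u', w', rfl, rfl⟩ := h
  exact ⟨r, hr, u ++ u', w' ++ w, by simp, by simp⟩

theorem steps_ctx {x y : List (T ⊕ G.N)} (h : ReflTransGen G.Step x y) (u w : List (T ⊕ G.N)) :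
    ReflTransGen G.Step (u ++ x ++ w) (u ++ y ++ w) := by
  induction h with
  | refl => exact ReflTransGen.refl
  | tail _ hs ih => exact ih.tail (G.step_ctx hs u w)

end PSG

/-- the context-sensitive languages over `T`: the languages of the monotone grammars -/
def FamCS (T : Type) : Set (Set (List T)) := {L | ∃ G : PSG T, G.Monotone ∧ G.Lang = L}

namespace Mo

/-- nonterminals -/
inductive K
  | S | L | b | D | E
  deriving DecidableEq

instance : Finite K := by
  refine Finite.of_injective (β := Fin 5)
    (fun | K.S => 0 | K.L => 1 | K.b => 2 | K.D => 3 | K.E => 4) ?_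
  intro x y h
  cases x <;> cases y <;> simp_all

variable {T : Type} (a : T)

abbrev Sy (T : Type) : Type := T ⊕ K

abbrev nt {T : Type} (k : K) : Sy T := Sum.inr k

/-- the rules -/
def RL : List (List (Sy T) × List (Sy T)) :=
  [([nt K.S], [Sum.inl a]), ([nt K.S], [nt K.L, nt K.E]), ([nt K.L], [nt K.L, nt K.D]),
   ([nt K.D, nt K.b], [nt K.b, nt K.b, nt K.D]), ([nt K.D, nt K.E], [nt K.b, nt K.b, nt K.E]),
   ([nt K.b], [Sum.inl a]), ([nt K.L], [Sum.inl a]), ([nt K.E], [Sum.inl a])]

/-- the rules as a predicate -/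
inductive Ru : List (Sy T) → List (Sy T) → Prop
  | r1 : Ru [nt K.S] [Sum.inl a]
  | r2 : Ru [nt K.S] [nt K.L, nt K.E]
  | r3 : Ru [nt K.L] [nt K.L, nt K.D]
  | r4 : Ru [nt K.D, nt K.b] [nt K.b, nt K.b, nt K.D]
  | r5 : Ru [nt K.D, nt K.E] [nt K.b, nt K.b, nt K.E]
  | r6 : Ru [nt K.b] [Sum.inl a]
  | r7 : Ru [nt K.L] [Sum.inl a]
  | r8 : Ru [nt K.E] [Sum.inl a]

theorem mem_RL (r : List (Sy T) × List (Sy T)) : r ∈ RL a ↔ Ru a r.1 r.2 := by
  constructor
  · intro h
    simp only [RL, List.mem_cons, List.not_mem_nil, or_false] at h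
    rcases h with rfl | rfl | rfl | rfl | rfl | rfl | rfl | rfl
    · exact Ru.r1
    · exact Ru.r2
    · exact Ru.r3
    · exact Ru.r4
    · exact Ru.r5
    · exact Ru.r6
    · exact Ru.r7
    · exact Ru.r8
  · obtain ⟨x, y⟩ := r
    intro h
    dsimp only at h
    simp only [RL, List.mem_cons, List.not_mem_nil, or_false]
    cases h <;> simp

open Classical in
/-- the grammar -/
noncomputable def gr : PSG T where
  N := K
  finN := inferInstance
  S := K.S
  rules := (RL a).toFinset
  lhs_ok := by
    intro r hr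
    rw [List.mem_toFinset, mem_RL] at hr
    obtain ⟨x, y⟩ := r
    dsimp only at hr ⊢
    cases hr
    · exact ⟨K.S, by simp⟩
    · exact ⟨K.S, by simp⟩
    · exact ⟨K.L, by simp⟩
    · exact ⟨K.D, by simp⟩
    · exact ⟨K.D, by simp⟩
    · exact ⟨K.b, by simp⟩
    · exact ⟨K.L, by simp⟩
    · exact ⟨K.E, by simp⟩

theorem mem_rules {r : List (Sy T) × List (Sy T)} : r ∈ (gr a).rules ↔ Ru a r.1 r.2 := by
  classical
  rw [← mem_RL]
  exact List.mem_toFinset

theorem mono : (gr a).Monotone := by
  intro r hr
  have h := (mem_rules a).1 hr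
  obtain ⟨x, y⟩ := r
  dsimp only at h ⊢
  cases h
  · exact Nat.le_refl 1
  · exact Nat.le_succ 1
  · exact Nat.le_succ 1
  · exact Nat.le_succ 2
  · exact Nat.le_succ 2
  · exact Nat.le_refl 1
  · exact Nat.le_refl 1
  · exact Nat.le_refl 1

theorem step_iff {x y : List (Sy T)} : (gr a).Step x y ↔
    ∃ (l r u w : List (Sy T)), Ru a l r ∧ x = u ++ l ++ w ∧ y = u ++ r ++ w := by
  constructor
  · rintro ⟨r, hr, u, w, hx, hy⟩
    exact ⟨r.1, r.2, u, w, (mem_rules a).1 hr, hx, hy⟩
  · rintro ⟨l, r, u, w, h, hx, hy⟩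
    exact ⟨(l, r), (mem_rules a).2 h, u, w, hx, hy⟩

/-- the step relation on words over `Sy T` -/
def MS (x y : List (Sy T)) : Prop :=
  ∃ (l r u w : List (Sy T)), Ru a l r ∧ x = u ++ l ++ w ∧ y = u ++ r ++ w

theorem steps_of {x y : List (Sy T)} (h : ReflTransGen (MS a) x y) :
    ReflTransGen (gr a).Step x y := by
  induction h with
  | refl => exact ReflTransGen.refl
  | tail _ hs ih => exact ih.tail ((step_iff a).2 hs)

theorem step_of {l r : List (Sy T)} (h : Ru a l r) (u w : List (Sy T)) :
    MS a (u ++ l ++ w) (u ++ r ++ w) := ⟨l, r, u, w, h, rfl, rfl⟩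

theorem steps_ctx {x y : List (Sy T)} (h : ReflTransGen (MS a) x y) (u w : List (Sy T)) :
    ReflTransGen (MS a) (u ++ x ++ w) (u ++ y ++ w) := by
  induction h with
  | refl => exact ReflTransGen.refl
  | tail _ hs ih =>
    refine ih.tail ?_
    obtain ⟨l, r, u', w', h, rfl, rfl⟩ := hs
    exact ⟨l, r, u ++ u', w' ++ w, h, by simp, by simp⟩

/-- weight; `h` is the number of heads `D` to the left -/
def wg : ℕ → List (Sy T) → ℕ
  | _, [] => 0
  | h, Sum.inr K.D :: x => 2 ^ h + wg (h + 1) x
  | h, _ :: x => 2 ^ h + wg h x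

/-- number of heads -/
def cD (x : List (Sy T)) : ℕ := x.countP fun s => match s with | Sum.inr K.D => true | _ => false

theorem wg_D (h : ℕ) (x : List (Sy T)) : wg h (nt K.D :: x) = 2 ^ h + wg (h + 1) x := rfl

theorem wg_ne (h : ℕ) (s : Sy T) (x : List (Sy T)) (hs : s ≠ nt K.D) :
    wg h (s :: x) = 2 ^ h + wg h x := by
  rcases s with s | s
  · rfl
  · cases s with
    | D => exact absurd rfl hs
    | S => rfl
    | L => rfl
    | b => rfl
    | E => rfl

theorem cD_D (x : List (Sy T)) : cD (nt K.D :: x) = cD x + 1 := by simp [cD]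

theorem cD_ne (s : Sy T) (x : List (Sy T)) (hs : s ≠ nt K.D) : cD (s :: x) = cD x := by
  rcases s with s | s
  · simp [cD]
  · cases s with
    | D => exact absurd rfl hs
    | S => simp [cD]
    | L => simp [cD]
    | b => simp [cD]
    | E => simp [cD]

theorem wg_append (x y : List (Sy T)) : ∀ h, wg h (x ++ y) = wg h x + wg (h + cD x) y := by
  induction x with
  | nil => intro h; simp [wg, cD]
  | cons s x ih =>
    intro h
    rw [List.cons_append]
    by_cases hs : s = nt K.D
    · subst hs
      rw [wg_D, wg_D, cD_D, ih, show h + 1 + cD x = h + (cD x + 1) by ring]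
      ring
    · rw [wg_ne _ _ _ hs, wg_ne _ _ _ hs, cD_ne _ _ hs, ih, add_assoc]

theorem wg_succ (x : List (Sy T)) : ∀ h, wg (h + 1) x = 2 * wg h x := by
  induction x with
  | nil => intro h; rfl
  | cons s x ih =>
    intro h
    by_cases hs : s = nt K.D
    · subst hs
      rw [wg_D, wg_D, ih, pow_succ]; ring
    · rw [wg_ne _ _ _ hs, wg_ne _ _ _ hs, ih, pow_succ]; ring

/-- symbols in the middle -/
def Mid (s : Sy T) : Prop := s = nt K.b ∨ s = nt K.D ∨ s = Sum.inl a

/-- the forms -/
def Form (x : List (Sy T)) : Prop :=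
  ∃ p y q, x = p :: (y ++ [q]) ∧ (p = nt K.L ∨ p = Sum.inl a) ∧ (q = nt K.E ∨ q = Sum.inl a) ∧
    (∀ s ∈ y, Mid a s) ∧ ∃ k, wg 0 x = 2 ^ k

/-- the invariant -/
def Inv (x : List (Sy T)) : Prop := x = [nt K.S] ∨ x = [Sum.inl a] ∨ Form a x

theorem loc {α : Type} {A R u w : List α} {s : α} (h : A ++ R = u ++ s :: w) (hs : s ∉ R) :
    ∃ w', A = u ++ s :: w' ∧ w = w' ++ R := by
  rcases List.append_eq_append_iff.1 h with ⟨t, rfl, ht⟩ | ⟨t, rfl, ht⟩
  · exact absurd (by rw [ht]; simp) hs
  · cases t with
    | nil =>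
      rw [List.nil_append] at ht
      exact absurd (by rw [← ht]; simp) hs
    | cons a t =>
      simp only [List.cons_append, List.cons.injEq] at ht
      obtain ⟨rfl, rfl⟩ := ht
      exact ⟨t, rfl, rfl⟩

theorem loc' {α : Type} {A u w : List α} {q s : α} (h : A ++ [q] = u ++ s :: w) (hs : s ∉ A) :
    u = A ∧ s = q ∧ w = [] := by
  rcases List.eq_nil_or_concat w with rfl | ⟨w', r, rfl⟩
  · have h1 := List.append_inj' h rfl
    exact ⟨h1.1.symm, by simpa using h1.2.symm, rfl⟩
  · exfalso
    have h2 : A ++ [q] = (u ++ s :: w') ++ [r] := by rw [h]; simp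
    have h1 := (List.append_inj' h2 rfl).1
    exact hs (by rw [h1]; simp)

theorem mid_ne {s : Sy T} (h : Mid a s) : s ≠ nt K.S ∧ s ≠ nt K.L ∧ s ≠ nt K.E := by
  rcases h with rfl | rfl | rfl <;> simp

theorem inv_step {x y : List (Sy T)} (hx : Inv a x) (h : (gr a).Step x y) : Inv a y := by
  obtain ⟨l, r, u, w, hR, rfl, rfl⟩ := (step_iff a).1 h
  clear h
  rcases hx with hx | hx | ⟨p, m, q, hx, hp, hq, hm, k, hk⟩
  · -- `[S]`
    cases u with
    | cons c u => cases hR <;> simp at hx
    | nil =>
      cases hR with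
      | r1 =>
        right; left
        simp only [List.nil_append, List.cons_append, List.cons.injEq, true_and] at hx ⊢
        exact hx
      | r2 =>
        right; right
        simp only [List.nil_append, List.cons_append, List.cons.injEq, true_and] at hx ⊢
        subst hx
        exact ⟨nt K.L, [], nt K.E, rfl, Or.inl rfl, Or.inl rfl, by simp, 1, rfl⟩
      | r3 => simp at hx
      | r4 => simp at hx
      | r5 => simp at hx
      | r6 => simp at hx
      | r7 => simp at hx
      | r8 => simp at hx
  · exfalso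
    cases u with
    | cons c u => cases hR <;> simp at hx
    | nil => cases hR <;> simp at hx
  · have hS : nt K.S ∉ p :: m := by
      intro hm'
      rcases List.mem_cons.1 hm' with h | h
      · rcases hp with rfl | rfl <;> simp at h
      · exact (mid_ne a (hm _ h)).1 rfl
    have hE : nt K.E ∉ p :: m := by
      intro hm'
      rcases List.mem_cons.1 hm' with h | h
      · rcases hp with rfl | rfl <;> simp at h
      · exact (mid_ne a (hm _ h)).2.2 rfl
    have hL : nt K.L ∉ m := fun h => (mid_ne a (hm _ h)).2.1 rfl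
    have hqS : nt K.S ≠ q := by rcases hq with rfl | rfl <;> simp
    have hqL : nt K.L ≠ q := by rcases hq with rfl | rfl <;> simp
    have hqb : nt K.b ≠ q := by rcases hq with rfl | rfl <;> simp
    have hqD : nt K.D ≠ q := by rcases hq with rfl | rfl <;> simp
    have hpb : p ≠ nt K.b := by rcases hp with rfl | rfl <;> simp
    have hpD : p ≠ nt K.D := by rcases hp with rfl | rfl <;> simp
    have hx' : (p :: m) ++ [q] = u ++ l ++ w := by rw [hx]; rfl
    have noS : ∀ r', (p :: m) ++ [q] = u ++ [nt K.S] ++ r' → False := by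
      intro r' h
      rw [List.append_assoc, List.singleton_append] at h
      obtain ⟨w', h1, -⟩ := loc h (by simpa using hqS)
      exact hS (by rw [h1]; simp)
    -- `L` only at the beginning
    have atL : ∀ w', (p :: m) ++ [q] = u ++ nt K.L :: w' → u = [] ∧ p = nt K.L ∧ w' = m ++ [q] := by
      intro w' h
      cases u with
      | nil =>
        simp only [List.nil_append, List.cons_append, List.cons.injEq] at h
        exact ⟨rfl, h.1, h.2.symm⟩
      | cons c u =>
        exfalso
        simp only [List.cons_append, List.cons.injEq] at h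
        obtain ⟨w'', h1, -⟩ := loc h.2 (by simpa using hqL)
        exact hL (by rw [h1]; simp)
    cases hR with
    | r1 => exact (noS _ hx').elim
    | r2 => exact (noS _ hx').elim
    | r3 =>
      rw [List.append_assoc, List.singleton_append] at hx'
      obtain ⟨rfl, rfl, rfl⟩ := atL _ hx'
      right; right
      refine ⟨nt K.L, nt K.D :: m, q, rfl, Or.inl rfl, hq, ?_, k + 1, ?_⟩
      · intro s hs
        rcases List.mem_cons.1 hs with rfl | hs
        · exact Or.inr (Or.inl rfl)
        · exact hm s hs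
      · have h1 : wg 0 (nt K.L :: (m ++ [q]) : List (Sy T)) = 2 ^ k := hk
        rw [wg_ne _ _ _ (by simp)] at h1
        show wg 0 (nt K.L :: nt K.D :: (m ++ [q])) = 2 ^ (k + 1)
        rw [wg_ne _ _ _ (by simp), wg_D, wg_succ, pow_succ, ← h1]
        ring
    | r7 =>
      rw [List.append_assoc, List.singleton_append] at hx'
      obtain ⟨rfl, rfl, rfl⟩ := atL _ hx'
      right; right
      refine ⟨Sum.inl a, m, q, rfl, Or.inr rfl, hq, hm, k, ?_⟩
      have h1 : wg 0 (nt K.L :: (m ++ [q]) : List (Sy T)) = 2 ^ k := hk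
      rw [wg_ne _ _ _ (by simp)] at h1
      show wg 0 (Sum.inl a :: (m ++ [q])) = 2 ^ k
      rw [wg_ne _ _ _ (by simp)]
      exact h1
    | r8 =>
      rw [List.append_assoc, List.singleton_append] at hx'
      obtain ⟨rfl, rfl, rfl⟩ := loc' hx' hE
      right; right
      refine ⟨p, m, Sum.inl a, by simp, hp, Or.inr rfl, hm, k, ?_⟩
      rw [← hk, List.append_nil, List.append_nil, wg_append (p :: m), wg_append (p :: m)]
      rfl
    | r6 =>
      rw [List.append_assoc, List.singleton_append] at hx'
      obtain ⟨w', h1, rfl⟩ := loc hx' (by simpa using hqb)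
      cases u with
      | nil =>
        simp only [List.nil_append, List.cons.injEq] at h1
        exact absurd h1.1 hpb
      | cons c u =>
        simp only [List.cons_append, List.cons.injEq] at h1
        obtain ⟨rfl, rfl⟩ := h1
        right; right
        refine ⟨p, u ++ Sum.inl a :: w', q, by simp, hp, hq, ?_, k, ?_⟩
        · intro s hs
          simp only [List.mem_append, List.mem_cons] at hs
          rcases hs with hs | rfl | hs
          · exact hm s (by simp [hs])
          · exact Or.inr (Or.inr rfl)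
          · exact hm s (by simp [hs])
        · rw [← hk, wg_append (p :: u ++ [Sum.inl a]), wg_append (p :: u ++ [nt K.b]),
            wg_append (p :: u) [Sum.inl a], wg_append (p :: u) [nt K.b]]
          have e1 : cD (p :: u ++ [Sum.inl a]) = cD (p :: u ++ [nt K.b]) := by simp [cD]
          rw [e1]
          rfl
    | r4 =>
      have hx'' : (p :: m) ++ [q] = u ++ nt K.D :: (nt K.b :: w) := by rw [hx']; simp
      obtain ⟨w', h1, h2⟩ := loc hx'' (by simpa using hqD)
      cases u with
      | nil =>
        simp only [List.nil_append, List.cons.injEq] at h1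
        exact absurd h1.1 hpD
      | cons c u =>
        simp only [List.cons_append, List.cons.injEq] at h1
        obtain ⟨rfl, rfl⟩ := h1
        obtain ⟨w'', rfl, rfl⟩ := loc (u := []) (s := nt K.b) h2.symm (by simpa using hqb)
        right; right
        refine ⟨p, u ++ nt K.b :: nt K.b :: nt K.D :: w'', q, by simp, hp, hq, ?_, k, ?_⟩
        · intro s hs
          simp only [List.mem_append, List.mem_cons] at hs
          rcases hs with hs | rfl | rfl | rfl | hs
          · exact hm s (by simp [hs])
          · exact Or.inl rfl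
          · exact Or.inl rfl
          · exact Or.inr (Or.inl rfl)
          · exact hm s (by simp [hs])
        · rw [← hk, wg_append (p :: u ++ [nt K.b, nt K.b, nt K.D]),
            wg_append (p :: u ++ [nt K.D, nt K.b]),
            wg_append (p :: u) [nt K.b, nt K.b, nt K.D], wg_append (p :: u) [nt K.D, nt K.b]]
          have e1 : cD (p :: u ++ [nt K.b, nt K.b, nt K.D]) = cD (p :: u ++ [nt K.D, nt K.b]) := by
            simp [cD]
          rw [e1]
          have e2 : ∀ h, wg h ([nt K.b, nt K.b, nt K.D] : List (Sy T)) =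
              wg h ([nt K.D, nt K.b] : List (Sy T)) := by
            intro h
            simp [wg, pow_succ]; ring
          rw [e2]
    | r5 =>
      have hx'' : (p :: m) ++ [q] = (u ++ [nt K.D]) ++ nt K.E :: w := by rw [hx']; simp
      obtain ⟨h1, rfl, rfl⟩ := loc' hx'' hE
      cases u with
      | nil =>
        simp only [List.nil_append, List.cons.injEq] at h1
        exact absurd h1.1.symm hpD
      | cons c u =>
        simp only [List.cons_append, List.cons.injEq] at h1
        obtain ⟨rfl, rfl⟩ := h1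
        right; right
        refine ⟨c, u ++ [nt K.b, nt K.b], nt K.E, by simp, hp, Or.inl rfl, ?_, k, ?_⟩
        · intro s hs
          simp only [List.mem_append, List.mem_cons, List.not_mem_nil, or_false] at hs
          rcases hs with hs | rfl | rfl
          · exact hm s (by simp [hs])
          · exact Or.inl rfl
          · exact Or.inl rfl
        · rw [← hk, List.append_nil, List.append_nil, wg_append (c :: u), wg_append (c :: u)]
          simp [wg, pow_succ]; ring

theorem inv_steps {x y : List (Sy T)} (hx : Inv a x) (h : ReflTransGen (gr a).Step x y) :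
    Inv a y := by
  induction h with
  | refl => exact hx
  | tail _ hs ih => exact inv_step a ih hs

theorem all_a {w : List T} (h : ∀ s ∈ w, s = a) : w = List.replicate w.length a :=
  List.eq_replicate_iff.2 ⟨rfl, h⟩

theorem wg_terminal (w : List T) : wg 0 (w.map Sum.inl : List (Sy T)) = w.length := by
  induction w with
  | nil => rfl
  | cons s w ih =>
    rw [List.map_cons, wg_ne _ _ _ (by simp), ih, List.length_cons]
    simp [add_comm]

theorem sound {w : List T} (h : w ∈ (gr a).Lang) : w ∈ powers a := by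
  have h1 : Inv a (w.map Sum.inl) := inv_steps a (Or.inl rfl) h
  rcases h1 with h1 | h1 | ⟨p, m, q, h1, hp, hq, hm, k, hk⟩
  · cases w <;> simp at h1
  · refine ⟨0, ?_⟩
    refine (List.map_injective_iff.2 (Sum.inl_injective (β := K))) ?_
    rw [h1]; simp
  · rw [wg_terminal] at hk
    refine ⟨k, ?_⟩
    rw [← hk]
    refine all_a a ?_
    intro s hs
    have h2 : (Sum.inl s : Sy T) ∈ p :: (m ++ [q]) := by rw [← h1]; exact List.mem_map_of_mem hs
    simp only [List.mem_cons, List.mem_append, List.not_mem_nil, or_false] at h2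
    rcases h2 with h2 | h2 | h2
    · rcases hp with rfl | rfl
      · simp at h2
      · simpa using h2
    · rcases hm _ h2 with h3 | h3 | h3
      · simp at h3
      · simp at h3
      · simpa using h3
    · rcases hq with rfl | rfl
      · simp at h2
      · simpa using h2

open List in
theorem move (m : ℕ) : ReflTransGen (MS a) (nt K.D :: replicate m (nt K.b) : List (Sy T))
    (replicate (2 * m) (nt K.b) ++ [nt K.D]) := by
  induction m with
  | zero => exact ReflTransGen.refl
  | succ m ih =>
    have h1 := step_of a Ru.r4 [] (replicate m (nt K.b))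
    have h2 := steps_ctx a ih [nt K.b, nt K.b] []
    have e1 : ([] ++ [nt K.D, nt K.b] ++ replicate m (nt K.b) : List (Sy T)) =
        nt K.D :: replicate (m + 1) (nt K.b) := by simp [replicate_succ]
    have e2 : ([] ++ [nt K.b, nt K.b, nt K.D] ++ replicate m (nt K.b) : List (Sy T)) =
        [nt K.b, nt K.b] ++ (nt K.D :: replicate m (nt K.b)) ++ [] := by simp
    have e3 : ([nt K.b, nt K.b] ++ (replicate (2 * m) (nt K.b) ++ [nt K.D]) ++ [] : List (Sy T)) =
        replicate (2 * (m + 1)) (nt K.b) ++ [nt K.D] := by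
      rw [show 2 * (m + 1) = 2 * m + 1 + 1 by ring]
      simp [replicate_succ]
    rw [e1, e2] at h1
    have h3 : ReflTransGen (MS a) ([nt K.b, nt K.b] ++ (nt K.D :: replicate m (nt K.b)) ++ [])
        (replicate (2 * (m + 1)) (nt K.b) ++ [nt K.D]) := by
      rw [← e3]; exact h2
    exact ReflTransGen.head h1 h3

open List in
theorem double (k : ℕ) : ∃ m, m + 2 = 2 ^ (k + 1) ∧ ReflTransGen (MS a) [nt K.S]
    (nt K.L :: replicate m (nt K.b) ++ [nt K.E]) := by
  induction k with
  | zero =>
    refine ⟨0, rfl, ReflTransGen.single ?_⟩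
    exact step_of a Ru.r2 [] []
  | succ k ih =>
    obtain ⟨m, hm, hd⟩ := ih
    refine ⟨2 * m + 2, by rw [pow_succ, ← hm]; ring, hd.trans ?_⟩
    have h1 := step_of a Ru.r3 [] (replicate m (nt K.b) ++ [nt K.E])
    have h2 := steps_ctx a (move a m) [nt K.L] [nt K.E]
    have h3 := step_of a Ru.r5 (nt K.L :: replicate (2 * m) (nt K.b)) []
    have e1 : ([] ++ [nt K.L] ++ (replicate m (nt K.b) ++ [nt K.E]) : List (Sy T)) =
        nt K.L :: replicate m (nt K.b) ++ [nt K.E] := by simp
    have e2 : ([] ++ [nt K.L, nt K.D] ++ (replicate m (nt K.b) ++ [nt K.E]) : List (Sy T)) =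
        [nt K.L] ++ (nt K.D :: replicate m (nt K.b)) ++ [nt K.E] := by simp
    have e3 : ([nt K.L] ++ (replicate (2 * m) (nt K.b) ++ [nt K.D]) ++ [nt K.E] : List (Sy T)) =
        nt K.L :: replicate (2 * m) (nt K.b) ++ [nt K.D, nt K.E] ++ [] := by simp
    have e4 : (nt K.L :: replicate (2 * m) (nt K.b) ++ [nt K.b, nt K.b, nt K.E] ++ [] :
        List (Sy T)) = nt K.L :: replicate (2 * m + 2) (nt K.b) ++ [nt K.E] := by
      rw [replicate_add]; simp
    rw [e1, e2] at h1
    have h2' : ReflTransGen (MS a) ([nt K.L] ++ (nt K.D :: replicate m (nt K.b)) ++ [nt K.E])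
        (nt K.L :: replicate (2 * m) (nt K.b) ++ [nt K.D, nt K.E] ++ []) := by
      rw [← e3]; exact h2
    rw [e4] at h3
    exact (ReflTransGen.head h1 h2').tail h3

open List in
theorem conv (m : ℕ) : ReflTransGen (MS a) (replicate m (nt K.b) : List (Sy T))
    (replicate m (Sum.inl a)) := by
  induction m with
  | zero => exact ReflTransGen.refl
  | succ m ih =>
    have h1 := step_of a Ru.r6 [] (replicate m (nt K.b))
    have h2 := steps_ctx a ih [Sum.inl a] []
    have e1 : ([] ++ [nt K.b] ++ replicate m (nt K.b) : List (Sy T)) =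
        replicate (m + 1) (nt K.b) := by simp [replicate_succ]
    have e2 : ([] ++ [Sum.inl a] ++ replicate m (nt K.b) : List (Sy T)) =
        [Sum.inl a] ++ replicate m (nt K.b) ++ [] := by simp
    have e3 : ([Sum.inl a] ++ replicate m (Sum.inl a) ++ [] : List (Sy T)) =
        replicate (m + 1) (Sum.inl a) := by simp [replicate_succ]
    rw [e1, e2] at h1
    have h3 : ReflTransGen (MS a) ([Sum.inl a] ++ replicate m (nt K.b) ++ [])
        (replicate (m + 1) (Sum.inl a)) := by
      rw [← e3]; exact h2
    exact ReflTransGen.head h1 h3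

open List in
theorem complete (k : ℕ) : replicate (2 ^ k) a ∈ (gr a).Lang := by
  cases k with
  | zero => exact steps_of a (ReflTransGen.single (step_of a Ru.r1 [] []))
  | succ k =>
    obtain ⟨m, hm, hd⟩ := double a k
    rw [← hm]
    refine steps_of a (x := [nt K.S]) (y := List.map Sum.inl (replicate (m + 2) a)) ?_
    have h1 := step_of a Ru.r7 [] (replicate m (nt K.b) ++ [nt K.E])
    have h2 := steps_ctx a (conv a m) [Sum.inl a] [nt K.E]
    have h3 := step_of a Ru.r8 (Sum.inl a :: replicate m (Sum.inl a)) []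
    have e1 : ([] ++ [nt K.L] ++ (replicate m (nt K.b) ++ [nt K.E]) : List (Sy T)) =
        nt K.L :: replicate m (nt K.b) ++ [nt K.E] := by simp
    have e2 : ([] ++ [Sum.inl a] ++ (replicate m (nt K.b) ++ [nt K.E]) : List (Sy T)) =
        [Sum.inl a] ++ replicate m (nt K.b) ++ [nt K.E] := by simp
    have e3 : ([Sum.inl a] ++ replicate m (Sum.inl a) ++ [nt K.E] : List (Sy T)) =
        Sum.inl a :: replicate m (Sum.inl a) ++ [nt K.E] ++ [] := by simp
    have e4 : (Sum.inl a :: replicate m (Sum.inl a) ++ [Sum.inl a] ++ [] : List (Sy T)) =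
        List.map Sum.inl (replicate (m + 2) a) := by
      rw [map_replicate, replicate_succ, replicate_succ']; simp
    rw [e1, e2] at h1
    have h2' : ReflTransGen (MS a) ([Sum.inl a] ++ replicate m (nt K.b) ++ [nt K.E])
        (Sum.inl a :: replicate m (Sum.inl a) ++ [nt K.E] ++ []) := by
      rw [← e3]; exact h2
    rw [e4] at h3
    exact hd.trans ((ReflTransGen.head h1 h2').tail h3)

theorem lang : (gr a).Lang = powers a := by
  ext w
  constructor
  · exact sound a
  · rintro ⟨k, rfl⟩
    exact complete a k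

end Mo

/-- the words `a ^ (2 ^ k)` form a context-sensitive language -/
theorem powers_cs {T : Type} (a : T) : powers a ∈ FamCS T := ⟨Mo.gr a, Mo.mono a, Mo.lang a⟩

end Pool.Agent.Q230.EM
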