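import Pool.Agent.Q230.EM.Defs

set_option autoImplicit false

/-!
# Even matrix grammars of degree two: sentential forms as pairs
-/

namespace Pool.Agent.Q230.EM

open Relation

namespace EMG

variable {T : Type} (G : EMG T 2)

/-- pairs of words for the two components -/
abbrev Pr : Type := List (T ⊕ G.N 0) × List (T ⊕ G.N 1)

/-- the word of a pair -/
def flat2 (p : G.Pr) : List (T ⊕ Σ i, G.N i) := G.emb 0 p.1 ++ G.emb 1 p.2

theorem flat_eq (v : ∀ i, List (T ⊕ G.N i)) : G.flat v = G.flat2 (v 0, v 1) := by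
  simp [flat, flat2, List.ofFn_succ]

/-- a step on pairs -/
def PStep (mode : Bool) (p q : G.Pr) : Prop :=
  ∃ r ∈ G.rules, ∃ (u0 w0 : List (T ⊕ G.N 0)) (u1 w1 : List (T ⊕ G.N 1)),
    p = (u0 ++ Sum.inr (r.1 0) :: w0, u1 ++ Sum.inr (r.1 1) :: w1) ∧
    q = (u0 ++ r.2 0 ++ w0, u1 ++ r.2 1 ++ w1) ∧
    (mode = true → Sum.inr (r.1 0) ∉ u0 ∧ Sum.inr (r.1 1) ∉ u1)

/-- a function on `Fin 2` -/
def fn2 {α : Fin 2 → Type} (a : α 0) (b : α 1) : ∀ i, α i
  | 0 => a
  | 1 => b

theorem step_of_pstep {mode : Bool} {p q : G.Pr} (h : G.PStep mode p q) :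
    G.Step mode (G.flat2 p) (G.flat2 q) := by
  obtain ⟨r, hr, u0, w0, u1, w1, rfl, rfl, hm⟩ := h
  refine ⟨r, hr, fn2 u0 u1, fn2 w0 w1, ?_, ?_, ?_⟩
  · rw [flat_eq]; rfl
  · rw [flat_eq]; rfl
  · intro h i
    match i with
    | 0 => exact (hm h).1
    | 1 => exact (hm h).2

theorem emb_append {n : ℕ} (G : EMG T n) (i : Fin n) (x y : List (T ⊕ G.N i)) :
    G.emb i (x ++ y) = G.emb i x ++ G.emb i y := by simp [emb]

theorem emb_inj {n : ℕ} (G : EMG T n) (i : Fin n) {x y : List (T ⊕ G.N i)}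
    (h : G.emb i x = G.emb i y) : x = y := by
  refine (List.map_injective_iff.2 ?_) h
  rintro (a | a) (b | b) hab
  · simpa using hab
  · simp at hab
  · simp at hab
  · simpa using hab

theorem emb_inl {n : ℕ} (G : EMG T n) (i : Fin n) (s : List T) :
    G.emb i (s.map Sum.inl) = s.map Sum.inl := by simp [emb, Function.comp_def]

/-- a word which comes from both components is terminal -/
theorem common {x : List (T ⊕ G.N 0)} {y : List (T ⊕ G.N 1)} (h : G.emb 0 x = G.emb 1 y) :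
    ∃ s : List T, x = s.map Sum.inl ∧ y = s.map Sum.inl := by
  induction x generalizing y with
  | nil =>
    cases y with
    | nil => exact ⟨[], rfl, rfl⟩
    | cons b y => simp [emb] at h
  | cons a x ih =>
    cases y with
    | nil => simp [emb] at h
    | cons b y =>
      simp only [emb, List.map_cons, List.cons.injEq] at h
      obtain ⟨s, rfl, rfl⟩ := ih h.2
      rcases a with a | a
      · rcases b with b | b
        · have : a = b := by simpa using h.1
          subst this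
          exact ⟨a :: s, rfl, rfl⟩
        · simp at h
      · rcases b with b | b
        · simp at h
        · have h1 := h.1
          simp at h1

theorem split_first {N : Type} {A : N} {x u w : List (T ⊕ N)} {s : List T}
    (h : x ++ s.map Sum.inl = u ++ Sum.inr A :: w) :
    ∃ w', x = u ++ Sum.inr A :: w' ∧ w = w' ++ s.map Sum.inl := by
  rcases List.append_eq_append_iff.1 h with ⟨c, hc1, hc2⟩ | ⟨c, hc1, hc2⟩
  · exfalso
    have : (Sum.inr A : T ⊕ N) ∈ s.map Sum.inl := by rw [hc2]; simp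
    simp at this
  · cases c with
    | nil =>
      exfalso
      simp only [List.nil_append] at hc2
      have : (Sum.inr A : T ⊕ N) ∈ s.map Sum.inl := by rw [← hc2]; simp
      simp at this
    | cons c0 c =>
      simp only [List.cons_append, List.cons.injEq] at hc2
      obtain ⟨rfl, rfl⟩ := hc2
      exact ⟨c, hc1, rfl⟩

theorem split_last {N : Type} {A : N} {x u w : List (T ⊕ N)} {s : List T}
    (h : s.map Sum.inl ++ x = u ++ Sum.inr A :: w) :
    ∃ u', u = s.map Sum.inl ++ u' ∧ x = u' ++ Sum.inr A :: w := by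
  rcases List.append_eq_append_iff.1 h with ⟨c, hc1, hc2⟩ | ⟨c, hc1, hc2⟩
  · exact ⟨c, hc1, hc2⟩
  · cases c with
    | nil =>
      simp only [List.nil_append] at hc2
      exact ⟨[], by simpa using hc1.symm, hc2.symm⟩
    | cons c0 c =>
      exfalso
      simp only [List.cons_append, List.cons.injEq] at hc2
      have : (Sum.inr A : T ⊕ N) ∈ s.map Sum.inl := by rw [hc1, hc2.1]; simp
      simp at this

theorem pstep_of_step {mode : Bool} {p : G.Pr} {y : List (T ⊕ Σ i, G.N i)}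
    (h : G.Step mode (G.flat2 p) y) : ∃ q, G.PStep mode p q ∧ y = G.flat2 q := by
  obtain ⟨r, hr, u, w, h1, rfl, hm⟩ := h
  rw [flat_eq] at h1
  obtain ⟨z0, z1⟩ := p
  simp only [flat2] at h1
  rcases List.append_eq_append_iff.1 h1 with ⟨t, ht1, ht2⟩ | ⟨t, ht1, ht2⟩
  · -- `a0 = z0 t`, `z1 = t a1`
    obtain ⟨x1, x2, hx, hx1, hx2⟩ := List.map_eq_append_iff.1 ht1
    obtain ⟨y1, y2, hy, hy1, hy2⟩ := List.map_eq_append_iff.1 ht2
    obtain ⟨s, rfl, rfl⟩ := G.common (x := x2) (y := y1) (by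
      show List.map _ x2 = List.map _ y1
      rw [hx2, hy1])
    have e1 : x1 = z0 := G.emb_inj 0 hx1
    have e2 : y2 = u 1 ++ Sum.inr (r.1 1) :: w 1 := G.emb_inj 1 hy2
    subst e1 e2
    obtain ⟨w0', hw1, hw2⟩ := split_first hx.symm
    refine ⟨(u 0 ++ r.2 0 ++ w0', (s.map Sum.inl ++ u 1) ++ r.2 1 ++ w 1),
      ⟨r, hr, u 0, w0', s.map Sum.inl ++ u 1, w 1, ?_, rfl, ?_⟩, ?_⟩
    · rw [hw1, hy]; simp
    · intro h
      exact ⟨hm h 0, by simpa using hm h 1⟩
    · rw [flat_eq]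
      simp only [flat2, emb_append, emb_inl, hw2, List.append_assoc]
  · -- `z0 = a0 t`, `a1 = t z1`
    obtain ⟨x1, x2, hx, hx1, hx2⟩ := List.map_eq_append_iff.1 ht1
    obtain ⟨y1, y2, hy, hy1, hy2⟩ := List.map_eq_append_iff.1 ht2
    obtain ⟨s, rfl, rfl⟩ := G.common (x := x2) (y := y1) (by
      show List.map _ x2 = List.map _ y1
      rw [hx2, hy1])
    have e1 : x1 = u 0 ++ Sum.inr (r.1 0) :: w 0 := G.emb_inj 0 hx1
    have e2 : y2 = z1 := G.emb_inj 1 hy2
    subst e1 e2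
    obtain ⟨u1', hw1, hw2⟩ := split_last hy.symm
    refine ⟨(u 0 ++ r.2 0 ++ (w 0 ++ s.map Sum.inl), u1' ++ r.2 1 ++ w 1),
      ⟨r, hr, u 0, w 0 ++ s.map Sum.inl, u1', w 1, ?_, rfl, ?_⟩, ?_⟩
    · rw [hw2, hx]; simp
    · intro h
      refine ⟨hm h 0, ?_⟩
      have := hm h 1
      rw [hw1] at this
      simp only [List.mem_append, not_or] at this
      exact this.2
    · rw [flat_eq]
      simp only [flat2, emb_append, emb_inl, hw1, List.append_assoc]

theorem steps_iff {mode : Bool} {p : G.Pr} {y : List (T ⊕ Σ i, G.N i)} :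
    ReflTransGen (G.Step mode) (G.flat2 p) y ↔
      ∃ q, ReflTransGen (G.PStep mode) p q ∧ y = G.flat2 q := by
  constructor
  · intro h
    induction h with
    | refl => exact ⟨p, ReflTransGen.refl, rfl⟩
    | tail _ hs ih =>
      obtain ⟨q, hq, rfl⟩ := ih
      obtain ⟨q', hq', rfl⟩ := G.pstep_of_step hs
      exact ⟨q', hq.tail hq', rfl⟩
  · rintro ⟨q, hq, rfl⟩
    induction hq with
    | refl => exact ReflTransGen.refl
    | tail _ hs ih => exact ih.tail (G.step_of_pstep hs)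

theorem flat2_terminal {q : G.Pr} {x : List T} (h : G.flat2 q = x.map Sum.inl) :
    ∃ y0 y1 : List T, x = y0 ++ y1 ∧ q = (y0.map Sum.inl, y1.map Sum.inl) := by
  obtain ⟨z0, z1⟩ := q
  simp only [flat2] at h
  obtain ⟨y0, y1, rfl, h0, h1⟩ := List.map_eq_append_iff.1 h.symm
  refine ⟨y0, y1, rfl, ?_⟩
  rw [← G.emb_inl 0] at h0
  rw [← G.emb_inl 1] at h1
  rw [G.emb_inj 0 h0, G.emb_inj 1 h1]

/-- the language in terms of pairs -/
theorem mem_lang {mode : Bool} {x : List T} : x ∈ G.Lang mode ↔ x ∈ G.words ∨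
    ∃ v ∈ G.starts, ∃ y0 y1 : List T, x = y0 ++ y1 ∧
      ReflTransGen (G.PStep mode) (v 0, v 1) (y0.map Sum.inl, y1.map Sum.inl) := by
  unfold Lang
  rw [Set.mem_ofPred_eq]
  refine or_congr_right ?_
  constructor
  · rintro ⟨v, hv, h⟩
    rw [flat_eq, steps_iff] at h
    obtain ⟨q, hq, hx⟩ := h
    obtain ⟨y0, y1, rfl, rfl⟩ := G.flat2_terminal hx.symm
    exact ⟨v, hv, y0, y1, rfl, hq⟩
  · rintro ⟨v, hv, y0, y1, rfl, h⟩
    refine ⟨v, hv, ?_⟩
    rw [flat_eq, steps_iff]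
    exact ⟨_, h, by simp [flat2, emb_inl]⟩

end EMG

end Pool.Agent.Q230.EM
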