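import Pool.Agent.Q230.EM.Pair

set_option autoImplicit false

/-!
# Mode 0 is simulated by mode 1

Each nonterminal gets a mark. The leftmost occurrence of a marked nonterminal may change its mark.
So an arbitrary occurrence of a nonterminal `A` can become the only occurrence of `A` with the mark
`true`, and then it is the leftmost occurrence of this symbol.
-/

namespace Pool.Agent.Q230.EM

open Relation

section Marks

variable {T N : Type}

theorem app1 {α : Type} (u w : List α) (a : α) : u ++ a :: w = u ++ [a] ++ w := by simp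

/-- all marks `false` -/
def mf (x : List (T ⊕ N)) : List (T ⊕ N × Bool) := x.map (Sum.map id fun A => (A, false))

/-- the mark of the symbol `A` is `b`, all other marks are `false` -/
def mb [DecidableEq N] (A : N) (b : Bool) (x : List (T ⊕ N)) : List (T ⊕ N × Bool) :=
  x.map (Sum.map id fun B => (B, if B = A then b else false))

/-- forget the marks -/
def un (x : List (T ⊕ N × Bool)) : List (T ⊕ N) := x.map (Sum.map id Prod.fst)

theorem un_mf (x : List (T ⊕ N)) : un (mf x) = x := by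
  induction x with
  | nil => rfl
  | cons a x ih =>
    have ih' : List.map (Sum.map id Prod.fst) (List.map (Sum.map id fun A : N => (A, false)) x) = x :=
      ih
    cases a <;> simp [un, mf, ih']

theorem un_append (x y : List (T ⊕ N × Bool)) : un (x ++ y) = un x ++ un y := by simp [un]

theorem mf_append (x y : List (T ⊕ N)) : (mf (x ++ y) : List (T ⊕ N × Bool)) = mf x ++ mf y := by
  simp [mf]

theorem mf_app3 (x y z : List (T ⊕ N)) :
    (mf (x ++ y ++ z) : List (T ⊕ N × Bool)) = mf x ++ mf y ++ mf z := by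
  simp [mf]

theorem un_app3 (x y z : List (T ⊕ N × Bool)) : un (x ++ y ++ z) = un x ++ un y ++ un z := by
  simp [un]

theorem un_cons (u w : List (T ⊕ N × Bool)) (A : N × Bool) :
    un (u ++ Sum.inr A :: w) = un u ++ Sum.inr A.1 :: un w := by
  simp [un]

theorem un_single (A B : N × Bool) (u w : List (T ⊕ N × Bool)) (h : A.1 = B.1) :
    un (u ++ Sum.inr A :: w) = un (u ++ [Sum.inr B] ++ w) := by
  simp [un, h]

theorem mf_inl (x : List T) : (mf (x.map Sum.inl) : List (T ⊕ N × Bool)) = x.map Sum.inl := by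
  simp [mf, Function.comp_def]

theorem un_inl (x : List T) : (un (x.map Sum.inl) : List (T ⊕ N)) = x.map Sum.inl := by
  simp [un, Function.comp_def]

/-- the leftmost occurrence of a symbol changes its mark -/
def Rn (x y : List (T ⊕ N × Bool)) : Prop :=
  ∃ (A : N) (b : Bool) (u w : List (T ⊕ N × Bool)), x = u ++ Sum.inr (A, b) :: w ∧
    y = u ++ Sum.inr (A, !b) :: w ∧ Sum.inr (A, b) ∉ u

theorem rn_block [DecidableEq N] (A : N) (b : Bool) (x : List (T ⊕ N)) :
    ∀ z r : List (T ⊕ N × Bool), Sum.inr (A, b) ∉ z →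
      ReflTransGen Rn (z ++ mb A b x ++ r) (z ++ mb A (!b) x ++ r) := by
  induction x with
  | nil => exact fun z r _ => ReflTransGen.refl
  | cons s x ih =>
    intro z r hz
    rcases s with s | B
    · have := ih (z ++ [Sum.inl s]) r (by simpa using hz)
      simpa [mb] using this
    · by_cases hB : B = A
      · subst hB
        have h1 := ih (z ++ [Sum.inr (B, !b)]) r (by simpa using hz)
        refine ReflTransGen.head ⟨B, b, z, mb B b x ++ r, ?_, rfl, hz⟩ ?_
        · simp [mb]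
        · simpa [mb] using h1
      · have := ih (z ++ [Sum.inr (B, false)]) r (by
          simp only [List.mem_append, List.mem_singleton, not_or, Sum.inr.injEq, Prod.mk.injEq,
            not_and]
          exact ⟨hz, fun h => absurd h.symm hB⟩)
        simpa [mb, hB] using this

theorem mb_false [DecidableEq N] (A : N) (x : List (T ⊕ N)) : mb A false x = mf x := by
  simp [mb, mf]

/-- one occurrence can get the mark `true` -/
theorem rn_one (A : N) (u w : List (T ⊕ N)) :
    ReflTransGen Rn (mf (u ++ Sum.inr A :: w)) (mf u ++ Sum.inr (A, true) :: mf w) := by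
  classical
  have h1 := rn_block A false (u ++ [Sum.inr A]) [] (mf w) (by simp)
  have h2 := rn_block A true u [] (Sum.inr (A, true) :: mf w) (by simp)
  have e1 : ([] ++ mb A false (u ++ [Sum.inr A]) ++ mf w : List (T ⊕ N × Bool)) =
      mf (u ++ Sum.inr A :: w) := by
    rw [mb_false]; simp [mf]
  have e2 : ([] ++ mb A (!false) (u ++ [Sum.inr A]) ++ mf w : List (T ⊕ N × Bool)) =
      [] ++ mb A true u ++ (Sum.inr (A, true) :: mf w) := by
    simp [mb]
  have e3 : ([] ++ mb A (!true) u ++ (Sum.inr (A, true) :: mf w) : List (T ⊕ N × Bool)) =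
      mf u ++ Sum.inr (A, true) :: mf w := by
    simp only [Bool.not_true, mb_false, List.nil_append]
  rw [e1, e2] at h1
  rw [e3] at h2
  exact h1.trans h2

theorem true_not_mem (A : N) (u : List (T ⊕ N)) :
    (Sum.inr (A, true) : T ⊕ N × Bool) ∉ mf u := by
  intro h
  obtain ⟨s, _, hs⟩ := List.mem_map.1 h
  cases s <;> simp at hs

/-- the word has a nonterminal -/
def HasN {N : Type} (x : List (T ⊕ N)) : Prop := ∃ A, Sum.inr A ∈ x

theorem leftmost {N : Type} {x : List (T ⊕ N)} (h : HasN x) :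
    ∃ (A : N) (u w : List (T ⊕ N)), x = u ++ Sum.inr A :: w ∧ Sum.inr A ∉ u := by
  obtain ⟨A, hA⟩ := h
  obtain ⟨u, w, rfl, hu⟩ := List.eq_append_cons_of_mem hA
  exact ⟨A, u, w, rfl, hu⟩

end Marks

namespace EMG

variable {T : Type} (G : EMG T 2)

/-- the rule which changes the mark of `X k` -/
def flip (X : ∀ i, G.N i × Bool) (k : Fin 2) :
    (∀ i, G.N i × Bool) × (∀ i, List (T ⊕ G.N i × Bool)) :=
  (X, fun i => [Sum.inr ((X i).1, if i = k then !(X i).2 else (X i).2)])

/-- the marked version of a rule -/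
def mark (r : (∀ i, G.N i) × (∀ i, List (T ⊕ G.N i))) :
    (∀ i, G.N i × Bool) × (∀ i, List (T ⊕ G.N i × Bool)) :=
  (fun i => (r.1 i, true), fun i => mf (r.2 i))

theorem rules_finite : ({r | ∃ r' ∈ G.rules, r = G.mark r'} ∪
    {r | ∃ (X : ∀ i, G.N i × Bool) (k : Fin 2), r = G.flip X k}).Finite := by
  have := G.finN
  refine Set.Finite.union ?_ ?_
  · refine (G.rules.finite_toSet.image G.mark).subset ?_
    rintro _ ⟨r', hr', rfl⟩
    exact ⟨r', hr', rfl⟩
  · refine (Set.finite_range fun p : (∀ i, G.N i × Bool) × Fin 2 => G.flip p.1 p.2).subset ?_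
    rintro _ ⟨X, k, rfl⟩
    exact ⟨(X, k), rfl⟩

open Classical in
/-- the grammar with marks -/
noncomputable def marked : EMG T 2 where
  N := fun i => G.N i × Bool
  finN := fun i => by have := G.finN i; infer_instance
  words := G.words
  starts := G.starts.image fun v i => mf (v i)
  starts_ok := by
    intro v hv i
    obtain ⟨v', hv', rfl⟩ := Finset.mem_image.1 hv
    obtain ⟨A, hA⟩ := G.starts_ok v' hv' i
    exact ⟨(A, false), List.mem_map.2 ⟨_, hA, rfl⟩⟩
  rules := G.rules_finite.toFinset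

theorem mem_rules {r : (∀ i, G.N i × Bool) × (∀ i, List (T ⊕ G.N i × Bool))} :
    r ∈ G.marked.rules ↔ (∃ r' ∈ G.rules, r = G.mark r') ∨
      ∃ (X : ∀ i, G.N i × Bool) (k : Fin 2), r = G.flip X k :=
  Set.Finite.mem_toFinset _

theorem mem_starts {v : ∀ i, List (T ⊕ G.N i × Bool)} :
    v ∈ G.marked.starts ↔ ∃ v' ∈ G.starts, (fun i => mf (v' i)) = v := by
  classical
  unfold marked
  simp only [Finset.mem_image]

/-- pairs for the marked grammar -/
abbrev MPr : Type := List (T ⊕ G.N 0 × Bool) × List (T ⊕ G.N 1 × Bool)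

theorem pstep_rn0 {x x' : List (T ⊕ G.N 0 × Bool)} {y : List (T ⊕ G.N 1 × Bool)} (h : Rn x x')
    (hy : HasN y) : G.marked.PStep true ((x, y) : G.MPr) ((x', y) : G.MPr) := by
  obtain ⟨A, b, u, w, rfl, rfl, hu⟩ := h
  obtain ⟨B, u1, w1, rfl, hu1⟩ := leftmost hy
  refine ⟨G.flip (fn2 (α := fun i => G.N i × Bool) (A, b) B) 0, G.mem_rules.2 (Or.inr ⟨_, _, rfl⟩),
    u, w, u1, w1, rfl, ?_, fun _ => ⟨hu, hu1⟩⟩
  refine Prod.ext ?_ ?_
  · exact app1 u w (Sum.inr (A, !b))
  · exact app1 u1 w1 (Sum.inr B)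

theorem pstep_rn1 {x : List (T ⊕ G.N 0 × Bool)} {y y' : List (T ⊕ G.N 1 × Bool)} (h : Rn y y')
    (hx : HasN x) : G.marked.PStep true ((x, y) : G.MPr) ((x, y') : G.MPr) := by
  obtain ⟨B, b, u1, w1, rfl, rfl, hu1⟩ := h
  obtain ⟨A, u, w, rfl, hu⟩ := leftmost hx
  refine ⟨G.flip (fn2 (α := fun i => G.N i × Bool) A (B, b)) 1, G.mem_rules.2 (Or.inr ⟨_, _, rfl⟩),
    u, w, u1, w1, rfl, ?_, fun _ => ⟨hu, hu1⟩⟩
  refine Prod.ext ?_ ?_
  · exact app1 u w (Sum.inr A)
  · exact app1 u1 w1 (Sum.inr (B, !b))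

theorem reach_rn0 {x x' : List (T ⊕ G.N 0 × Bool)} {y : List (T ⊕ G.N 1 × Bool)}
    (h : ReflTransGen Rn x x') (hy : HasN y) :
    ReflTransGen (G.marked.PStep true) ((x, y) : G.MPr) ((x', y) : G.MPr) := by
  induction h with
  | refl => exact ReflTransGen.refl
  | tail _ hs ih => exact ih.tail (G.pstep_rn0 hs hy)

theorem reach_rn1 {x : List (T ⊕ G.N 0 × Bool)} {y y' : List (T ⊕ G.N 1 × Bool)}
    (h : ReflTransGen Rn y y') (hx : HasN x) :
    ReflTransGen (G.marked.PStep true) ((x, y) : G.MPr) ((x, y') : G.MPr) := by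
  induction h with
  | refl => exact ReflTransGen.refl
  | tail _ hs ih => exact ih.tail (G.pstep_rn1 hs hx)

/-- a mode 0 step is simulated -/
theorem sim {p q : G.Pr} (h : G.PStep false p q) :
    ReflTransGen (G.marked.PStep true) ((mf p.1, mf p.2) : G.MPr) ((mf q.1, mf q.2) : G.MPr) := by
  obtain ⟨r, hr, u0, w0, u1, w1, rfl, rfl, -⟩ := h
  have h0 := G.reach_rn0 (y := mf (u1 ++ Sum.inr (r.1 1) :: w1)) (rn_one (r.1 0) u0 w0)
    ⟨(r.1 1, false), by simp [mf]⟩
  have h1 := G.reach_rn1 (x := mf u0 ++ Sum.inr (r.1 0, true) :: mf w0) (rn_one (r.1 1) u1 w1)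
    ⟨(r.1 0, true), by simp⟩
  refine (h0.trans h1).tail ⟨G.mark r, G.mem_rules.2 (Or.inl ⟨r, hr, rfl⟩), mf u0, mf w0, mf u1,
    mf w1, rfl, ?_, fun _ => ⟨true_not_mem _ _, true_not_mem _ _⟩⟩
  exact Prod.ext (mf_app3 u0 (r.2 0) w0) (mf_app3 u1 (r.2 1) w1)

/-- a step of the marked grammar is a step or the identity after the marks are forgotten -/
theorem sound {p q : G.MPr} (h : G.marked.PStep true p q) :
    ReflTransGen (G.PStep false) ((un p.1, un p.2) : G.Pr) ((un q.1, un q.2) : G.Pr) := by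
  obtain ⟨r, hr, u0, w0, u1, w1, rfl, rfl, -⟩ := h
  change List (T ⊕ G.N 0 × Bool) at u0
  change List (T ⊕ G.N 0 × Bool) at w0
  change List (T ⊕ G.N 1 × Bool) at u1
  change List (T ⊕ G.N 1 × Bool) at w1
  rcases G.mem_rules.1 hr with ⟨r', hr', rfl⟩ | ⟨X, k, rfl⟩
  · refine ReflTransGen.single ⟨r', hr', un u0, un w0, un u1, un w1, ?_, ?_, by simp⟩
    · exact Prod.ext (un_cons u0 w0 (r'.1 0, true)) (un_cons u1 w1 (r'.1 1, true))
    · refine Prod.ext ((un_app3 u0 (mf (r'.2 0)) w0).trans ?_)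
        ((un_app3 u1 (mf (r'.2 1)) w1).trans ?_)
      · rw [un_mf]
      · rw [un_mf]
  · have e : ((un (u0 ++ Sum.inr (X 0) :: w0), un (u1 ++ Sum.inr (X 1) :: w1)) : G.Pr) =
        (un (u0 ++ (G.flip X k).2 0 ++ w0), un (u1 ++ (G.flip X k).2 1 ++ w1)) :=
      Prod.ext (un_single (X 0) _ u0 w0 rfl) (un_single (X 1) _ u1 w1 rfl)
    exact e ▸ ReflTransGen.refl

theorem sim_all {p q : G.Pr} (h : ReflTransGen (G.PStep false) p q) :
    ReflTransGen (G.marked.PStep true) ((mf p.1, mf p.2) : G.MPr) ((mf q.1, mf q.2) : G.MPr) := by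
  induction h with
  | refl => exact ReflTransGen.refl
  | tail _ hs ih => exact ih.trans (G.sim hs)

theorem sound_all {p q : G.MPr} (h : ReflTransGen (G.marked.PStep true) p q) :
    ReflTransGen (G.PStep false) ((un p.1, un p.2) : G.Pr) ((un q.1, un q.2) : G.Pr) := by
  induction h with
  | refl => exact ReflTransGen.refl
  | tail _ hs ih => exact ih.trans (G.sound hs)

theorem marked_lang : G.marked.Lang true = G.Lang false := by
  ext x
  rw [G.marked.mem_lang, G.mem_lang]
  refine or_congr Iff.rfl ⟨?_, ?_⟩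
  · rintro ⟨v, hv, y0, y1, rfl, h⟩
    obtain ⟨v', hv', rfl⟩ := G.mem_starts.1 hv
    refine ⟨v', hv', y0, y1, rfl, ?_⟩
    have := G.sound_all h
    rw [un_mf, un_mf] at this
    have e0 : un (List.map Sum.inl y0 : List (T ⊕ G.N 0 × Bool)) = y0.map Sum.inl := un_inl y0
    have e1 : un (List.map Sum.inl y1 : List (T ⊕ G.N 1 × Bool)) = y1.map Sum.inl := un_inl y1
    rw [← e0, ← e1]
    exact this
  · rintro ⟨v, hv, y0, y1, rfl, h⟩
    refine ⟨fun i => mf (v i), G.mem_starts.2 ⟨v, hv, rfl⟩, y0, y1, rfl, ?_⟩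
    have := G.sim_all h
    have e0 : mf (List.map Sum.inl y0 : List (T ⊕ G.N 0)) = y0.map Sum.inl := mf_inl y0
    have e1 : mf (List.map Sum.inl y1 : List (T ⊕ G.N 1)) = y1.map Sum.inl := mf_inl y1
    rw [e0, e1] at this
    exact this

end EMG

theorem fam_sub (T : Type) : Fam T 2 false ⊆ Fam T 2 true := by
  rintro _ ⟨G, rfl⟩
  exact ⟨G.marked, G.marked_lang⟩

end Pool.Agent.Q230.EM
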