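import Pool.Agent.Q230.EM.Mach

set_option autoImplicit false

/-!
# Soundness of the simulation
-/

namespace Pool.Agent.Q230.EM.Mc

open Relation Pool.Agent.Q230.EM

theorem loc {α : Type} {A R u w : List α} {s : α} (h : A ++ R = u ++ s :: w) (hs : s ∉ R) :
    ∃ w', A = u ++ s :: w' ∧ w = w' ++ R := by
  rcases List.append_eq_append_iff.1 h with ⟨t, rfl, ht⟩ | ⟨t, rfl, ht⟩
  · exact absurd (by rw [ht]; simp) hs
  · cases t with
    | nil =>
      rw [List.nil_append] at ht
      exact absurd (by rw [← ht]; simp) hs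
    | cons a t =>
      simp only [List.cons_append, List.cons.injEq] at ht
      obtain ⟨rfl, rfl⟩ := ht
      exact ⟨t, rfl, rfl⟩

theorem first_unique {α : Type} {s : α} : ∀ {u u' w w' : List α}, u ++ s :: w = u' ++ s :: w' →
    s ∉ u → s ∉ u' → u = u' ∧ w = w' := by
  intro u
  induction u with
  | nil =>
    intro u' w w' h _ h2
    cases u' with
    | nil => simpa using h
    | cons x u' =>
      simp only [List.nil_append, List.cons_append, List.cons.injEq] at h
      exact absurd (by simp [h.1]) h2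
  | cons y u ih =>
    intro u' w w' h h1 h2
    cases u' with
    | nil =>
      simp only [List.nil_append, List.cons_append, List.cons.injEq] at h
      exact absurd (by simp [h.1]) h1
    | cons x u' =>
      simp only [List.cons_append, List.cons.injEq] at h
      simp only [List.mem_cons, not_or] at h1 h2
      obtain ⟨h3, h4⟩ := ih h.2 h1.2 h2.2
      exact ⟨by rw [h.1, h3], h4⟩

/-- two different symbols: one stands before the other -/
theorem two_pos {α : Type} {u w y z : List α} {s c : α} (h : u ++ s :: w = y ++ c :: z)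
    (hne : s ≠ c) : (∃ t, y = u ++ s :: t ∧ w = t ++ c :: z) ∨
      (∃ t, u = y ++ c :: t ∧ z = t ++ s :: w) := by
  rcases List.append_eq_append_iff.1 h with ⟨t, rfl, ht⟩ | ⟨t, rfl, ht⟩
  · cases t with
    | nil =>
      simp only [List.nil_append, List.cons.injEq] at ht
      exact absurd ht.1 hne
    | cons a t =>
      simp only [List.cons_append, List.cons.injEq] at ht
      obtain ⟨rfl, rfl⟩ := ht
      exact Or.inl ⟨t, rfl, rfl⟩
  · cases t with
    | nil =>
      simp only [List.nil_append, List.cons.injEq] at ht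
      exact absurd ht.1.symm hne
    | cons a t =>
      simp only [List.cons_append, List.cons.injEq] at ht
      obtain ⟨rfl, rfl⟩ := ht
      exact Or.inr ⟨t, rfl, rfl⟩

section
variable {T : Type} {M : Mch T}

/-- the symbols which have weight -/
def isW : (T ⊕ Bool) ⊕ S1 M.J → Bool
  | Sum.inr (S1.tok _) => true
  | Sum.inr S1.g => true
  | Sum.inr S1.E => true
  | _ => false

/-- the symbol `E` -/
def isE : (T ⊕ Bool) ⊕ S1 M.J → Bool
  | Sum.inr S1.E => true
  | _ => false

/-- tokens and residues -/
def isR : (T ⊕ Bool) ⊕ S1 M.J → Bool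
  | Sum.inr (S1.tok _) => true
  | Sum.inr S1.g => true
  | _ => false

/-- weight -/
def wt (x : W1 M) : ℕ := x.countP isW

/-- number of symbols `E` -/
def cE (x : W1 M) : ℕ := x.countP isE

theorem wt_append (x y : W1 M) : wt (x ++ y) = wt x + wt y := by simp [wt]
theorem cE_append (x y : W1 M) : cE (x ++ y) = cE x + cE y := by simp [cE]

theorem isR_of {s : (T ⊕ Bool) ⊕ S1 M.J} (h : isW s = true) (h' : isE s ≠ true) : isR s = true := by
  rcases s with s | s
  · simp [isW] at h
  · cases s <;> simp_all [isW, isE, isR]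

theorem exists_R {z : W1 M} (h : cE z < wt z) : ∃ s ∈ z, isR s = true := by
  by_contra hcon
  push Not at hcon
  have : wt z ≤ cE z := by
    unfold wt cE
    refine List.countP_mono_left ?_
    intro s hs hw
    by_contra h'
    exact hcon s hs (isR_of hw h')
  omega

open scoped Classical in
/-- numbers of tokens in a word -/
noncomputable def cnt (x : W1 M) (j : M.J) : ℕ := x.countP fun s => s = s1 (S1.tok j)

theorem cnt_append (x y : W1 M) : cnt (x ++ y) = cnt x + cnt y := by
  funext j; simp [cnt]

theorem cnt_tk (v : List M.J) : cnt (tk v : W1 M) = cn v := by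
  classical
  funext j
  unfold cnt tk cn
  rw [List.countP_map]
  induction v with
  | nil => rfl
  | cons a v ih =>
    rw [List.countP_cons, ih, List.count_cons]
    congr 1
    by_cases h : a = j <;> simp [h]

theorem cnt_tok (j : M.J) : cnt ([s1 (S1.tok j)] : W1 M) = cn [j] := cnt_tk [j]

theorem cnt_g : cnt ([s1 S1.g] : W1 M) = 0 := by
  funext j; simp [cnt]

theorem cnt_zero {y : W1 M} {j : M.J} (h : cnt y j = 0) : s1 (S1.tok j) ∉ y := by
  classical
  intro hm
  unfold cnt at h
  rw [List.countP_eq_zero] at h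
  exact h _ hm (by simp)

theorem cnt_zero' {y : W1 M} {j : M.J} (h : s1 (S1.tok j) ∉ y) : cnt y j = 0 := by
  classical
  unfold cnt
  rw [List.countP_eq_zero]
  intro s hs hs'
  have : s = s1 (S1.tok j) := by simpa using hs'
  exact h (this ▸ hs)

/-- tokens and residues only -/
def Tok (y : W1 M) : Prop := ∀ s ∈ y, isR s = true

theorem Tok.append {x y : W1 M} (hx : Tok x) (hy : Tok y) : Tok (x ++ y) := by
  intro s hs
  rcases List.mem_append.1 hs with h | h
  · exact hx s h
  · exact hy s h

theorem Tok.left {x y : W1 M} (h : Tok (x ++ y)) : Tok x := fun s hs => h s (by simp [hs])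
theorem Tok.right {x y : W1 M} (h : Tok (x ++ y)) : Tok y := fun s hs => h s (by simp [hs])

theorem tok_tk (v : List M.J) : Tok (tk v : W1 M) := by
  intro s hs
  obtain ⟨j, _, rfl⟩ := List.mem_map.1 hs
  rfl

/-- the correct forms; `e` is the last symbol -/
def Good (e : S1 M.J) (n : M.J → ℕ) (x : W1 M) : Prop :=
  ∃ (y : W1 M) (k : ℕ), x = s1 S1.Z :: (y ++ List.replicate (k + 1) (s1 S1.C)) ++ [s1 e] ∧
    Tok y ∧ s1 S1.g ∈ y ∧ cnt y = n

/-- the forms after a wrong test -/
def Doom (x : W1 M) : Prop := ∃ y z, x = y ++ s1 S1.C :: z ∧ 2 ≤ wt z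

theorem doom_step {u0 w0 v : W1 M} {s : S1 M.J} (h : Doom (u0 ++ s1 s :: w0)) (hs : s ≠ S1.C)
    (hv : wt [s1 s] ≤ wt v) : Doom (u0 ++ v ++ w0) := by
  obtain ⟨y, z, h1, h2⟩ := h
  rcases two_pos h1 (fun e => hs (Sum.inr_injective e)) with ⟨t, rfl, rfl⟩ | ⟨t, rfl, rfl⟩
  · exact ⟨u0 ++ v ++ t, z, by simp, h2⟩
  · refine ⟨y, t ++ v ++ w0, by simp, ?_⟩
    have e : wt (t ++ s1 s :: w0) = wt t + (wt [s1 s] + wt w0) := by
      rw [wt_append, ← List.singleton_append, wt_append]
    rw [wt_append, wt_append]
    omega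

/-- a step never changes `cE` except for the two rules of a test -/
theorem cE_cons (s : (T ⊕ Bool) ⊕ S1 M.J) (u0 w0 : W1 M) :
    cE (u0 ++ s :: w0) = cE u0 + cE w0 + cE [s] := by
  rw [cE_append, ← List.singleton_append, cE_append]; ring

theorem cE_tk (v : List M.J) : cE (tk v : W1 M) = 0 := by
  unfold cE tk
  rw [List.countP_eq_zero]
  intro s hs
  obtain ⟨j, _, rfl⟩ := List.mem_map.1 hs
  simp [isE]

theorem wt_tk (v : List M.J) : wt (tk v : W1 M) = v.length := by
  unfold wt tk
  rw [List.countP_map]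
  induction v with
  | nil => rfl
  | cons a v ih => rw [List.countP_cons, ih]; simp [isW]

/-- stuck: there is a symbol which cannot disappear -/
def Stk (x : W1 M) : Prop := ∃ s ∈ x, isR s = true

def D1 (x : W1 M) : Prop := (∃ y z, x = y ++ s1 S1.C :: z ∧ Stk z) ∨ s1 S1.g ∉ x
def D2 (x : W1 M) : Prop := (∃ y z, x = y ++ s1 S1.C :: z ∧ ta ∈ z) ∨ Stk x
def D3 (x : W1 M) : Prop := (∃ y z, x = y ++ tc :: z ∧ ta ∈ z) ∨ Stk x

theorem stk_step {u0 w0 v : W1 M} {s : (T ⊕ Bool) ⊕ S1 M.J} (h : Stk (u0 ++ s :: w0))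
    (hs : isR s = false) : Stk (u0 ++ v ++ w0) := by
  obtain ⟨r, hr, hr'⟩ := h
  refine ⟨r, ?_, hr'⟩
  simp only [List.mem_append, List.mem_cons] at hr ⊢
  rcases hr with hr | rfl | hr
  · exact Or.inl (Or.inl hr)
  · rw [hs] at hr'; exact absurd hr' (by simp)
  · exact Or.inr hr

theorem d3_step {u0 w0 : W1 M} {s : S1 M.J} (h : D3 (u0 ++ s1 s :: w0))
    (hs : isR (s1 s : (T ⊕ Bool) ⊕ S1 M.J) = false) : D3 (u0 ++ [] ++ w0) := by
  rcases h with ⟨y, z, h1, h2⟩ | h
  · left
    rcases two_pos h1 (by simp) with ⟨t, rfl, rfl⟩ | ⟨t, rfl, rfl⟩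
    · exact ⟨u0 ++ t, z, by simp, h2⟩
    · refine ⟨y, t ++ w0, by simp, ?_⟩
      simp only [List.mem_append, List.mem_cons] at h2 ⊢
      rcases h2 with h2 | h2 | h2
      · exact Or.inl h2
      · simp at h2
      · exact Or.inr h2
  · exact Or.inr (stk_step h hs)

/-- reachability of the machine -/
def Rch (q : M.Q) (n : M.J → ℕ) (u : List T) : Prop :=
  ReflTransGen (Stp M) (M.q0, 0, []) (q, n, u)

/-- the invariant for component 1 -/
def P : S2 M.Q M.J → List T → W1 M → Prop
  | S2.st q, u, x => (∃ n, Rch q n u ∧ Good S1.E n x) ∨ (Doom x ∧ cE x ≤ 1)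
  | S2.tst j q', u, x => (∃ q n, Rch q n u ∧ (q, Op.zero j, q') ∈ M.ins ∧ Good (S1.tok j) n x) ∨
      (Doom x ∧ cE x = 0)
  | S2.f0, u, x => u ∈ Out M ∨ (Doom x ∧ cE x ≤ 1)
  | S2.f1, u, x => u ∈ Out M ∨ D1 x
  | S2.f2, u, x => u ∈ Out M ∨ D2 x
  | S2.f3, u, x => u ∈ Out M ∨ D3 x
  | S2.f4, u, x => u ∈ Out M ∨ D3 x

theorem ow_append (u u' : List T) : (ow (u ++ u') : W2 M) = ow u ++ ow u' := by simp [ow]

theorem P_step {X : S1 M.J} {Y : S2 M.Q M.J} {v u0 w0 : W1 M} {z : W2 M} {u : List T}
    (hR : Ru M X Y v z) (hP : P Y u (u0 ++ Sum.inr X :: w0)) (h0 : Sum.inr X ∉ u0) :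
    (∃ u' Y', z = ow u' ++ [s2 Y'] ∧ P Y' (u ++ u') (u0 ++ v ++ w0)) ∨
    (z = [] ∧ (u ∈ Out M ∨ D3 (u0 ++ v ++ w0))) := by
  cases hR with
  | @add q q' v u' h =>
    refine Or.inl ⟨u', S2.st q', rfl, ?_⟩
    rcases hP with ⟨n, hn, y, k, hx, hy, hg, hc⟩ | ⟨hd, he⟩
    · left
      have h1 : [] ++ s1 S1.Z :: (y ++ List.replicate (k + 1) (s1 S1.C) ++ [s1 S1.E]) =
          u0 ++ s1 S1.Z :: w0 := by rw [hx]; simp
      obtain ⟨rfl, rfl⟩ := first_unique h1 (by simp) h0
      refine ⟨n + cn v, hn.tail (Stp.add h n u), tk v ++ y, k, by simp,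
        (tok_tk v).append hy, by simp [hg], ?_⟩
      rw [cnt_append, cnt_tk, hc, add_comm]
    · right
      refine ⟨doom_step hd (by simp) (by simp [wt, isW]), ?_⟩
      have h1 := cE_cons (s1 S1.Z) u0 w0
      have he' : cE (u0 ++ s1 S1.Z :: w0) ≤ 1 := he
      rw [cE_append, cE_append, ← List.singleton_append, cE_append, cE_tk]
      omega
  | @sub q q' j v h =>
    refine Or.inl ⟨[], S2.st q', rfl, ?_⟩
    rw [List.append_nil]
    rcases hP with ⟨n, hn, y, k, hx, hy, hg, hc⟩ | ⟨hd, he⟩
    · left
      have h1 : (s1 S1.Z :: y) ++ (List.replicate (k + 1) (s1 S1.C) ++ [s1 S1.E]) =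
          u0 ++ s1 (S1.tok j) :: w0 := by rw [hx]; simp
      obtain ⟨w', h2, rfl⟩ := loc h1 (by simp [List.mem_replicate])
      cases u0 with
      | nil => simp at h2
      | cons a u0 =>
        simp only [List.cons_append, List.cons.injEq] at h2
        obtain ⟨rfl, rfl⟩ := h2
        have hc' : n = cn [j] + (cnt u0 + cnt w') := by
          rw [← hc, ← List.singleton_append, cnt_append, cnt_append, cnt_tok]; abel
        refine ⟨cnt u0 + cnt w' + cn v, hn.tail (Stp.sub h n _ hc' u), u0 ++ (s1 S1.g :: tk v) ++ w',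
          k, by simp, ?_, by simp, ?_⟩
        · refine Tok.append (Tok.append hy.left ?_) ?_
          · intro s hs
            rcases List.mem_cons.1 hs with rfl | hs
            · rfl
            · exact tok_tk v s hs
          · intro s hs
            exact hy s (by simp [hs])
        · rw [cnt_append, cnt_append, ← List.singleton_append, cnt_append, cnt_tk, cnt_g]; abel
    · right
      refine ⟨doom_step hd (by simp) ?_, ?_⟩
      · have e1 : wt (s1 S1.g :: tk v : W1 M) = wt ([s1 S1.g] : W1 M) + wt (tk v : W1 M) := by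
          rw [← wt_append]; rfl
        have e2 : wt ([s1 (S1.tok j)] : W1 M) = 1 := rfl
        have e3 : wt ([s1 S1.g] : W1 M) = 1 := rfl
        omega
      · have h1 := cE_cons (s1 (S1.tok j)) u0 w0
        have he' : cE (u0 ++ s1 (S1.tok j) :: w0) ≤ 1 := he
        have e1 : cE (s1 S1.g :: tk v : W1 M) = cE ([s1 S1.g] : W1 M) + cE (tk v : W1 M) := by
          rw [← cE_append]; rfl
        rw [cE_append, cE_append, e1, cE_tk]
        have : cE ([s1 S1.g] : W1 M) = 0 := rfl
        omega
  | @zero q q' j h =>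
    refine Or.inl ⟨[], S2.tst j q', rfl, ?_⟩
    rw [List.append_nil]
    rcases hP with ⟨n, hn, y, k, hx, hy, hg, hc⟩ | ⟨hd, he⟩
    · left
      have h1 : (s1 S1.Z :: (y ++ List.replicate (k + 1) (s1 S1.C))) ++ s1 S1.E :: [] =
          u0 ++ s1 S1.E :: w0 := by rw [hx]
      have h2 : (s1 S1.E : (T ⊕ Bool) ⊕ S1 M.J) ∉
          (s1 S1.Z :: (y ++ List.replicate (k + 1) (s1 S1.C)) : W1 M) := by
        intro hm
        simp only [List.mem_cons, List.mem_append, List.mem_replicate] at hm
        rcases hm with hm | hm | ⟨-, hm⟩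
        · simp at hm
        · have := hy _ hm; simp [isR] at this
        · simp at hm
      obtain ⟨rfl, rfl⟩ := first_unique h1 h2 h0
      exact ⟨q, n, hn, h, y, k, by simp, hy, hg, hc⟩
    · right
      refine ⟨doom_step hd (by simp) (le_of_eq rfl), ?_⟩
      have h1 := cE_cons (s1 S1.E) u0 w0
      have he' : cE (u0 ++ s1 S1.E :: w0) ≤ 1 := he
      have h2 : cE ([s1 S1.E] : W1 M) = 1 := rfl
      have h3 : cE ([s1 (S1.tok j)] : W1 M) = 0 := rfl
      rw [cE_append, cE_append]
      omega
  | tst j q =>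
    refine Or.inl ⟨[], S2.st q, rfl, ?_⟩
    rw [List.append_nil]
    rcases hP with ⟨q1, n, hn, h, y, k, hx, hy, hg, hc⟩ | ⟨hd, he⟩
    · have h1 : (s1 S1.Z :: (y ++ List.replicate (k + 1) (s1 S1.C))) ++ s1 (S1.tok j) :: [] =
          u0 ++ s1 (S1.tok j) :: w0 := by rw [hx]
      by_cases hj : s1 (S1.tok j) ∈ y
      · right
        have hw : 1 ≤ wt w0 := by
          rcases List.eq_nil_or_concat w0 with rfl | ⟨w', s, rfl⟩
          · exfalso
            have h2 := (List.append_inj' h1 rfl).1
            exact h0 (by rw [← h2]; simp [hj])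
          · have h2 : (s1 S1.Z :: (y ++ List.replicate (k + 1) (s1 S1.C))) ++ [s1 (S1.tok j)] =
                (u0 ++ s1 (S1.tok j) :: w') ++ [s] := by rw [h1]; simp
            have h3 := (List.append_inj' h2 rfl).2
            simp only [List.cons.injEq, and_true] at h3
            rw [← h3, List.concat_eq_append, wt_append]
            have : wt ([s1 (S1.tok j)] : W1 M) = 1 := rfl
            omega
        refine ⟨⟨u0, s1 S1.E :: w0, by simp, ?_⟩, ?_⟩
        · rw [← List.singleton_append, wt_append]
          have : wt ([s1 S1.E] : W1 M) = 1 := rfl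
          omega
        · have h2 : cE (u0 ++ s1 (S1.tok j) :: w0) = 0 := by
            rw [← h1]
            unfold cE
            rw [List.countP_eq_zero]
            intro s hs
            simp only [List.mem_append, List.mem_cons, List.mem_replicate, List.not_mem_nil,
              or_false] at hs
            rcases hs with (rfl | hs | ⟨-, rfl⟩) | rfl
            · simp [isE]
            · have := hy _ hs
              rcases s with s | s
              · simp [isR] at this
              · cases s <;> simp_all [isR, isE]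
            · simp [isE]
            · simp [isE]
          have h3 := cE_cons (s1 (S1.tok j)) u0 w0
          rw [cE_append, cE_append]
          have : cE ([s1 S1.C, s1 S1.E] : W1 M) = 1 := rfl
          omega
      · left
        have h2 : (s1 (S1.tok j) : (T ⊕ Bool) ⊕ S1 M.J) ∉
            (s1 S1.Z :: (y ++ List.replicate (k + 1) (s1 S1.C)) : W1 M) := by
          intro hm
          simp only [List.mem_cons, List.mem_append, List.mem_replicate] at hm
          rcases hm with hm | hm | ⟨-, hm⟩
          · simp at hm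
          · exact hj hm
          · simp at hm
        obtain ⟨rfl, rfl⟩ := first_unique h1 h2 h0
        refine ⟨n, hn.tail (Stp.zero h n ?_ u), y, k + 1, ?_, hy, hg, hc⟩
        · rw [← hc]
          exact cnt_zero' hj
        · rw [List.replicate_succ' (n := k + 1)]
          simp
    · right
      refine ⟨doom_step hd (by simp) (le_of_eq rfl), ?_⟩
      have h1 := cE_cons (s1 (S1.tok j)) u0 w0
      have he' : cE (u0 ++ s1 (S1.tok j) :: w0) = 0 := he
      have h3 : cE ([s1 S1.C, s1 S1.E] : W1 M) = 1 := rfl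
      rw [cE_append, cE_append]
      omega
  | fin =>
    refine Or.inl ⟨[], S2.f0, rfl, ?_⟩
    rw [List.append_nil]
    rcases hP with ⟨n, hn, -⟩ | ⟨hd, he⟩
    · exact Or.inl ⟨n, hn⟩
    · right
      refine ⟨doom_step hd (by simp) (le_of_eq rfl), ?_⟩
      rw [List.append_assoc]
      exact he
  | f0a j =>
    refine Or.inl ⟨[], S2.f0, rfl, ?_⟩
    rw [List.append_nil]
    rcases hP with hP | ⟨hd, he⟩
    · exact Or.inl hP
    · right
      refine ⟨doom_step hd (by simp) (le_of_eq rfl), ?_⟩
      have h1 := cE_cons (s1 (S1.tok j)) u0 w0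
      have he' : cE (u0 ++ s1 (S1.tok j) :: w0) ≤ 1 := he
      rw [cE_append, cE_append]
      have : cE ([s1 S1.g] : W1 M) = 0 := rfl
      omega
  | f0b =>
    refine Or.inl ⟨[], S2.f1, rfl, ?_⟩
    rw [List.append_nil]
    rcases hP with hP | ⟨hd, he⟩
    · exact Or.inl hP
    · right; left
      have he' : cE (u0 ++ [s1 S1.Z] ++ w0) ≤ 1 := by
        rw [List.append_assoc]
        exact he
      obtain ⟨y, z, h1, h2⟩ := doom_step hd (v := [s1 S1.Z]) (by simp) (le_of_eq rfl)
      refine ⟨y, z, h1, exists_R ?_⟩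
      rw [h1, cE_cons] at he'
      omega
  | f1a =>
    refine Or.inl ⟨[], S2.f1, rfl, ?_⟩
    rw [List.append_nil]
    rcases hP with hP | ⟨y, z, h1, h2⟩ | hP
    · exact Or.inl hP
    · right
      rcases two_pos h1 (by simp) with ⟨t, rfl, rfl⟩ | ⟨t, rfl, rfl⟩
      · exact Or.inl ⟨u0 ++ t, z, by simp, h2⟩
      · by_cases hg : s1 S1.g ∈ w0
        · exact Or.inl ⟨y, t ++ w0, by simp, _, List.mem_append_right _ hg, rfl⟩
        · right
          simp only [List.append_nil, List.mem_append, not_or]
          simp only [List.mem_append, not_or] at h0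
          exact ⟨h0, hg⟩
    · exact absurd (by simp) hP
  | f1b =>
    refine Or.inl ⟨[], S2.f2, rfl, ?_⟩
    rw [List.append_nil]
    rcases hP with hP | ⟨y, z, h1, h2⟩ | hP
    · exact Or.inl hP
    · right
      rcases two_pos h1 (by simp) with ⟨t, rfl, rfl⟩ | ⟨t, rfl, rfl⟩
      · right
        obtain ⟨s, hs, hs'⟩ := h2
        exact ⟨s, by simp [hs], hs'⟩
      · exact Or.inl ⟨y, t ++ ta :: w0, by simp, by simp⟩
    · exact absurd (by simp) hP
  | f2a =>
    refine Or.inl ⟨[], S2.f3, rfl, ?_⟩
    rw [List.append_nil]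
    rcases hP with hP | ⟨y, z, h1, h2⟩ | hP
    · exact Or.inl hP
    · right; left
      refine ⟨u0, w0, by simp, ?_⟩
      rcases List.append_eq_append_iff.1 h1 with ⟨t, rfl, ht⟩ | ⟨t, rfl, ht⟩
      · cases t with
        | nil =>
          simp only [List.nil_append, List.cons.injEq] at ht
          rw [ht.2]; exact h2
        | cons a t =>
          simp only [List.cons_append, List.cons.injEq] at ht
          rw [ht.2]
          simp [h2]
      · cases t with
        | nil =>
          simp only [List.nil_append, List.cons.injEq] at ht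
          rw [← ht.2]; exact h2
        | cons a t =>
          exfalso
          simp only [List.cons_append, List.cons.injEq] at ht
          exact h0 (by rw [← ht.1]; simp)
    · exact Or.inr (Or.inr (stk_step hP rfl))
  | f3a =>
    refine Or.inl ⟨[], S2.f3, rfl, ?_⟩
    rw [List.append_nil]
    rcases hP with hP | hP
    · exact Or.inl hP
    · exact Or.inr (d3_step hP rfl)
  | f3b =>
    refine Or.inl ⟨[], S2.f4, rfl, ?_⟩
    rw [List.append_nil]
    rcases hP with hP | hP
    · exact Or.inl hP
    · exact Or.inr (d3_step hP rfl)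
  | f4 =>
    refine Or.inr ⟨rfl, ?_⟩
    rcases hP with hP | hP
    · exact Or.inl hP
    · exact Or.inr (d3_step hP rfl)

/-- the terminals of component 1 are `a` and `c` -/
def NoT (x : W1 M) : Prop := ∀ t : T, Sum.inl (Sum.inl t) ∉ x

/-- the invariant -/
def Inv (p : Pq M) : Prop :=
  NoT p.1 ∧ ((∃ u Y, p.2 = ow u ++ [s2 Y] ∧ P Y u p.1) ∨
    (∃ u, p.2 = ow u ∧ (u ∈ Out M ∨ D3 p.1)))

theorem ru_noT {X : S1 M.J} {Y : S2 M.Q M.J} {v : W1 M} {z : W2 M} (h : Ru M X Y v z) : NoT v := by
  intro t ht
  cases h <;> simp [tk] at ht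

theorem inv_step {p q : Pq M} (hp : Inv p) (h : (gr M).PStep true p q) : Inv q := by
  obtain ⟨hT, hp⟩ := hp
  obtain ⟨x, y⟩ := p
  dsimp only at hT hp
  rcases hp with ⟨u, Y, rfl, hP⟩ | ⟨u, rfl, -⟩
  · obtain ⟨X, v, z, u0, w0, hR, rfl, rfl, h0⟩ := step2_inv M h
    have hT' : NoT (u0 ++ v ++ w0) := by
      intro t ht
      simp only [List.mem_append] at ht
      rcases ht with (ht | ht) | ht
      · exact hT t (by simp [ht])
      · exact ru_noT hR t ht
      · exact hT t (by simp [ht])
    refine ⟨hT', ?_⟩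
    rcases P_step hR hP h0 with ⟨u', Y', rfl, h1⟩ | ⟨rfl, h1⟩
    · exact Or.inl ⟨u ++ u', Y', by simp [ow_append], h1⟩
    · exact Or.inr ⟨u, by simp, h1⟩
  · exact (step0_inv M h).elim

theorem inv_start : Inv ((w1 M, w2 M) : Pq M) := by
  refine ⟨by intro t ht; simp [w1] at ht, Or.inl ⟨[], S2.st M.q0, rfl, Or.inl ⟨0, ReflTransGen.refl,
    [s1 S1.g], 0, rfl, ?_, by simp, cnt_g⟩⟩⟩
  intro s hs
  rw [List.mem_singleton.1 hs]
  rfl

theorem inv_steps {p q : Pq M} (hp : Inv p) (h : ReflTransGen ((gr M).PStep true) p q) : Inv q := by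
  induction h with
  | refl => exact hp
  | tail _ hs ih => exact inv_step ih hs

/-- the word `a c u` -/
def acu (u : List T) : List (T ⊕ Bool) := Sum.inr false :: Sum.inr true :: u.map Sum.inl

/-- the letters of `T` -/
def prj (w : List (T ⊕ Bool)) : List T := w.filterMap fun s => s.getLeft?

theorem prj_append (w w' : List (T ⊕ Bool)) : prj (w ++ w') = prj w ++ prj w' := by simp [prj]

theorem prj_map (u : List T) : prj (u.map Sum.inl : List (T ⊕ Bool)) = u := by
  unfold prj
  induction u with
  | nil => rfl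
  | cons a u ih =>
    show a :: List.filterMap (fun s => s.getLeft?) (List.map Sum.inl u) = a :: u
    rw [ih]

theorem prj_acu (u : List T) : prj (acu u) = u := by
  have : acu u = [Sum.inr false, Sum.inr true] ++ u.map Sum.inl := rfl
  rw [this, prj_append, prj_map]
  rfl

theorem sound {u : List T} (h : acu u ∈ (gr M).Lang true) : u ∈ Out M := by
  rcases (gr M).mem_lang.1 h with h | ⟨v, hv, y0, y1, hw, hd⟩
  · exact absurd h (Finset.notMem_empty _)
  · have hv' : v = st M := Finset.mem_singleton.1 hv
    subst hv'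
    have h1 : Inv ((y0.map Sum.inl, y1.map Sum.inl) : Pq M) := inv_steps inv_start hd
    obtain ⟨hT, h1⟩ := h1
    dsimp only at hT h1
    rcases h1 with ⟨u', Y, h2, -⟩ | ⟨u', h2, h3⟩
    · exfalso
      have : (s2 Y : (T ⊕ Bool) ⊕ S2 M.Q M.J) ∈ (y1.map Sum.inl : W2 M) := by rw [h2]; simp
      simp at this
    · have hy1 : y1 = u'.map Sum.inl := by
        refine (List.map_injective_iff.2 (Sum.inl_injective (β := S2 M.Q M.J))) ?_
        rw [h2]; simp [ow]
      subst hy1
      have hy0 : prj y0 = [] := by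
        unfold prj
        rw [List.filterMap_eq_nil_iff]
        intro s hs
        rcases s with s | s
        · exact absurd (List.mem_map_of_mem hs) (hT s)
        · rfl
      have hu : u = u' := by
        have := congrArg prj hw
        rw [prj_acu, prj_append, hy0, prj_map] at this
        exact this
      subst hu
      rcases h3 with h3 | h3
      · exact h3
      · exfalso
        rcases h3 with ⟨y, z, h4, h5⟩ | ⟨s, hs, hs'⟩
        · obtain ⟨p1, p2, rfl, hp1, hp2⟩ := List.map_eq_append_iff.1 h4
          cases p2 with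
          | nil => simp at hp2
          | cons a p2 =>
            simp only [List.map_cons, List.cons.injEq] at hp2
            have ha : a = Sum.inr true := Sum.inl_injective hp2.1
            subst ha
            have h6 : (Sum.inr false : T ⊕ Bool) ∈ p2 := by
              rw [← hp2.2] at h5
              obtain ⟨b, hb, hb'⟩ := List.mem_map.1 h5
              rw [Sum.inl_injective hb'] at hb
              exact hb
            unfold acu at hw
            cases p1 with
            | nil => simp at hw
            | cons b p1 =>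
              simp only [List.cons_append, List.cons.injEq] at hw
              obtain ⟨-, hw⟩ := hw
              cases p1 with
              | nil =>
                simp only [List.nil_append, List.cons_append, List.cons.injEq, true_and] at hw
                have : (Sum.inr false : T ⊕ Bool) ∈ (u.map Sum.inl : List (T ⊕ Bool)) := by
                  rw [hw]; simp [h6]
                simp at this
              | cons b' p1 =>
                simp only [List.cons_append, List.cons.injEq] at hw
                have : (Sum.inr true : T ⊕ Bool) ∈ (u.map Sum.inl : List (T ⊕ Bool)) := by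
                  rw [hw.2]; simp
                simp at this
        · obtain ⟨b, _, rfl⟩ := List.mem_map.1 hs
          simp [isR] at hs'

end

end Pool.Agent.Q230.EM.Mc
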