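import Pool.Agent.Q230.EM.Defs
import Pool.Agent.Q230.EM.Vass

set_option autoImplicit false

/-!
# The lengths of the words generated by an even matrix grammar

In each mode and for each degree, the numbers of the symbols in the sentential forms are the
configurations of a vector addition system. So an infinite set of lengths contains an infinite
arithmetic progression.
-/

namespace Pool.Agent.Q230.EM

open Relation Pool.Agent.Q230

namespace EMG

variable {T : Type} {n : ℕ} (G : EMG T n)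

open scoped Classical in
/-- the number of terminals and the numbers of the nonterminals -/
noncomputable def nv (x : List (T ⊕ Σ i, G.N i)) : Option (Σ i, G.N i) → ℕ
  | none => x.countP fun s => s.isLeft
  | some A => x.countP fun s => s = Sum.inr A

theorem nv_append (x y : List (T ⊕ Σ i, G.N i)) : G.nv (x ++ y) = G.nv x + G.nv y := by
  funext A
  cases A <;> simp [nv]

theorem nv_nil : G.nv [] = 0 := by
  funext A
  cases A <;> simp [nv]

theorem nv_flatten (l : List (List (T ⊕ Σ i, G.N i))) : G.nv l.flatten = (l.map G.nv).sum := by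
  induction l with
  | nil => simp [nv_nil]
  | cons x l ih => simp [nv_append, ih]

theorem nv_flat (v : ∀ i, List (T ⊕ G.N i)) : G.nv (G.flat v) = ∑ i, G.nv (G.emb i (v i)) := by
  unfold flat
  rw [nv_flatten, List.map_ofFn, List.sum_ofFn]
  rfl

/-- what the rule consumes -/
noncomputable def pre (r : (∀ i, G.N i) × (∀ i, List (T ⊕ G.N i))) : Option (Σ i, G.N i) → ℕ :=
  ∑ i, G.nv (G.emb i [Sum.inr (r.1 i)])

/-- what the rule produces -/
noncomputable def post (r : (∀ i, G.N i) × (∀ i, List (T ⊕ G.N i))) : Option (Σ i, G.N i) → ℕ :=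
  ∑ i, G.nv (G.emb i (r.2 i))

theorem nv_block (u v w : ∀ i, List (T ⊕ G.N i)) : G.nv (G.flat fun i => u i ++ v i ++ w i) =
    ∑ i, G.nv (G.emb i (v i)) + ∑ i, (G.nv (G.emb i (u i)) + G.nv (G.emb i (w i))) := by
  rw [nv_flat, ← Finset.sum_add_distrib]
  refine Finset.sum_congr rfl fun i _ => ?_
  simp only [emb, List.map_append, nv_append]
  abel

/-- the transitions -/
def VT : Set (VR.Tr (Option (Σ i, G.N i))) := (fun r => (G.pre r, G.post r)) '' (G.rules : Set _)

theorem step_fire {mode : Bool} {x y : List (T ⊕ Σ i, G.N i)} (h : G.Step mode x y) :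
    VR.Step G.VT (G.nv x) (G.nv y) := by
  obtain ⟨r, hr, u, w, rfl, rfl, -⟩ := h
  refine ⟨_, ⟨r, hr, rfl⟩, ∑ i, (G.nv (G.emb i (u i)) + G.nv (G.emb i (w i))), ?_, ?_⟩
  · have : (fun i => u i ++ Sum.inr (r.1 i) :: w i) =
        fun i => u i ++ [Sum.inr (r.1 i)] ++ w i := by
      funext i; simp
    rw [this, nv_block]
    rfl
  · rw [nv_block]
    rfl

theorem mem_flat {v : ∀ i, List (T ⊕ G.N i)} {i : Fin n} {A : G.N i}
    (h : Sum.inr ⟨i, A⟩ ∈ G.flat v) : Sum.inr A ∈ v i := by
  unfold flat at h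
  rw [List.mem_flatten] at h
  obtain ⟨l, hl, h⟩ := h
  obtain ⟨j, rfl⟩ := List.mem_ofFn.1 hl
  obtain ⟨s, hs, hs'⟩ := List.mem_map.1 h
  rcases s with s | B
  · simp at hs'
  · simp only [Sum.map_inr, Sum.inr.injEq, Sigma.mk.injEq] at hs'
    obtain ⟨rfl, hB⟩ := hs'
    rw [← eq_of_heq hB]
    exact hs

theorem fire_step (mode : Bool) {v : ∀ i, List (T ⊕ G.N i)} {d : Option (Σ i, G.N i) → ℕ}
    (h : VR.Step G.VT (G.nv (G.flat v)) d) :
    ∃ v', G.Step mode (G.flat v) (G.flat v') ∧ G.nv (G.flat v') = d := by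
  classical
  obtain ⟨t, ⟨r, hr, rfl⟩, e, he, rfl⟩ := h
  dsimp only at he
  have h1 : ∀ i, Sum.inr (r.1 i) ∈ v i := by
    intro i
    apply G.mem_flat
    have h2 : 1 ≤ G.pre r (some ⟨i, r.1 i⟩) := by
      unfold pre
      rw [Finset.sum_apply]
      refine le_trans ?_ (Finset.single_le_sum (f := fun j => G.nv (G.emb j [Sum.inr (r.1 j)])
        (some ⟨i, r.1 i⟩)) (fun _ _ => Nat.zero_le _) (Finset.mem_univ i))
      simp [nv, emb]
    have h3 : 0 < G.nv (G.flat v) (some ⟨i, r.1 i⟩) := by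
      rw [he]
      simp only [Pi.add_apply]
      omega
    unfold nv at h3
    rw [List.countP_pos_iff] at h3
    obtain ⟨s, hs, hs'⟩ := h3
    have hs'' : s = Sum.inr ⟨i, r.1 i⟩ := by simpa using hs'
    rwa [hs''] at hs
  choose u w hv hu using fun i => List.eq_append_cons_of_mem (h1 i)
  have hv' : v = fun i => u i ++ Sum.inr (r.1 i) :: w i := funext hv
  refine ⟨fun i => u i ++ r.2 i ++ w i, ⟨r, hr, u, w, by rw [← hv'], rfl, fun _ => hu⟩, ?_⟩
  have h4 : (fun i => u i ++ Sum.inr (r.1 i) :: w i) =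
      fun i => u i ++ [Sum.inr (r.1 i)] ++ w i := by
    funext i; simp
  rw [hv', h4, nv_block] at he
  rw [nv_block]
  have h5 : ∑ i, (G.nv (G.emb i (u i)) + G.nv (G.emb i (w i))) = e := by
    unfold pre at he
    exact add_left_cancel he
  rw [h5]
  rfl

theorem steps_fire {mode : Bool} {x y : List (T ⊕ Σ i, G.N i)}
    (h : ReflTransGen (G.Step mode) x y) : VR.Reach G.VT (G.nv x) (G.nv y) := by
  induction h with
  | refl => exact ReflTransGen.refl
  | tail _ hs ih => exact ih.tail (G.step_fire hs)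

theorem fire_steps (mode : Bool) {v : ∀ i, List (T ⊕ G.N i)} {d : Option (Σ i, G.N i) → ℕ}
    (h : VR.Reach G.VT (G.nv (G.flat v)) d) :
    ∃ v', ReflTransGen (G.Step mode) (G.flat v) (G.flat v') ∧ G.nv (G.flat v') = d := by
  induction h with
  | refl => exact ⟨v, ReflTransGen.refl, rfl⟩
  | tail _ hs ih =>
    obtain ⟨v', h1, rfl⟩ := ih
    obtain ⟨v'', h2, h3⟩ := G.fire_step mode hs
    exact ⟨v'', h1.tail h2, h3⟩

theorem nv_terminal (y : List T) (A : Σ i, G.N i) : G.nv (y.map Sum.inl) (some A) = 0 := by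
  simp [nv]

theorem nv_terminal_none (y : List T) : G.nv (y.map Sum.inl) none = y.length := by
  unfold nv
  rw [List.countP_map]
  induction y with
  | nil => rfl
  | cons a y ih => simp [List.countP_cons]

theorem terminal_of {x : List (T ⊕ Σ i, G.N i)} (h : ∀ A, G.nv x (some A) = 0) :
    ∃ y : List T, x = y.map Sum.inl := by
  classical
  induction x with
  | nil => exact ⟨[], rfl⟩
  | cons a x ih =>
    rcases a with t | A
    · obtain ⟨y, rfl⟩ := ih (fun A => by simpa [nv] using h A)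
      exact ⟨t :: y, rfl⟩
    · have := h A
      simp [nv] at this

/-- An infinite set of lengths contains an infinite arithmetic progression. -/
theorem lengths (mode : Bool) (hinf : {x | ∃ w ∈ G.Lang mode, w.length = x}.Infinite) :
    ∃ x y, x < y ∧ ∀ m : ℕ, x + m * (y - x) ∈ {x | ∃ w ∈ G.Lang mode, w.length = x} := by
  have := G.finN
  let X : (∀ i, List (T ⊕ G.N i)) → Set ℕ := fun v =>
    {x | ∃ y : List T, y.length = x ∧ VR.Reach G.VT (G.nv (G.flat v)) (G.nv (y.map Sum.inl))}
  have h1 : ∃ v ∈ G.starts, (X v).Infinite := by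
    by_contra hcon
    push Not at hcon
    apply hinf
    have hfin : ((fun w : List T => w.length) '' (G.words : Set (List T)) ∪
        ⋃ v ∈ G.starts, X v).Finite :=
      (G.words.finite_toSet.image _).union (Set.Finite.biUnion G.starts.finite_toSet hcon)
    refine hfin.subset ?_
    rintro x ⟨w, hw, rfl⟩
    rcases hw with hw | ⟨v, hv, hd⟩
    · exact Or.inl ⟨w, hw, rfl⟩
    · right
      simp only [Set.mem_iUnion]
      exact ⟨v, hv, w, rfl, G.steps_fire hd⟩
  obtain ⟨v, hv, hX⟩ := h1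
  let f := hX.natEmbedding
  choose y hy hr using fun k => (f k).2
  obtain ⟨i, j, hij, hd, hm⟩ := VR.pump (G.rules.finite_toSet.image _) (G.nv (G.flat v))
    (fun k => G.nv ((y k).map Sum.inl)) hr
  have d0 : (y i).length ≤ (y j).length := by
    have := hd none
    simpa only [nv_terminal_none] using this
  have hne : (f i : ℕ) ≠ (f j : ℕ) := by
    intro h
    exact hij.ne (f.injective (Subtype.ext h))
  refine ⟨f i, f j, ?_, fun m => ?_⟩
  · rw [← hy i, ← hy j] at hne ⊢
    omega
  · obtain ⟨v', h2, h3⟩ := G.fire_steps mode (hm m)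
    obtain ⟨z, hz⟩ := G.terminal_of (x := G.flat v') (by
      intro A
      rw [h3]
      simp [nv_terminal])
    refine ⟨z, Or.inr ⟨v, hv, hz ▸ h2⟩, ?_⟩
    have h4 := congrFun h3 none
    rw [hz, nv_terminal_none] at h4
    rw [h4]
    simp only [Pi.add_apply, Pi.smul_apply, Pi.sub_apply, nv_terminal_none, smul_eq_mul, hy]

end EMG

/-- the words `a ^ (2 ^ k)` -/
def powers {T : Type} (a : T) : Set (List T) := {w | ∃ k : ℕ, w = List.replicate (2 ^ k) a}

theorem powers_not_mem {T : Type} (a : T) (n : ℕ) (mode : Bool) : powers a ∉ Fam T n mode := by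
  rintro ⟨G, hG⟩
  have hinf : {x | ∃ w ∈ G.Lang mode, w.length = x}.Infinite := by
    refine Set.infinite_of_injective_forall_mem (f := fun k : ℕ => 2 ^ k)
      (Nat.pow_right_injective (le_refl 2)) ?_
    intro k
    rw [hG]
    exact ⟨_, ⟨k, rfl⟩, by simp⟩
  obtain ⟨x, y, hxy, hm⟩ := G.lengths mode hinf
  rw [hG] at hm
  have g : ∀ x, (∃ w ∈ powers a, w.length = x) → ∃ k, x = 2 ^ k := by
    rintro x ⟨w, ⟨k, rfl⟩, rfl⟩
    exact ⟨k, by simp⟩
  obtain ⟨i, hi⟩ := g _ (hm 0)
  obtain ⟨j, hj⟩ := g _ (hm 1)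
  obtain ⟨l, hl⟩ := g _ (hm 2)
  rw [show x + 0 * (y - x) = x by omega] at hi
  rw [show x + 1 * (y - x) = y by omega] at hj
  have h1 : 2 ^ l = 2 * 2 ^ j - 2 ^ i := by rw [← hl, ← hi, ← hj]; omega
  have hij : (2 : ℕ) ^ i < 2 ^ j := by rw [← hi, ← hj]; exact hxy
  have hi0 : 0 < (2 : ℕ) ^ i := by positivity
  rcases le_or_gt l j with h | h
  · have := Nat.pow_le_pow_right (show 0 < 2 by norm_num) h
    omega
  · have := Nat.pow_le_pow_right (show 0 < 2 by norm_num) (show j + 1 ≤ l from h)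
    rw [pow_succ] at this
    omega

end Pool.Agent.Q230.EM
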