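import Pool.Agent.Q230.EM.Cmp
import Pool.Agent.Helper707.Num

set_option autoImplicit false

/-!
# Every recursively enumerable language is accepted by a counter machine
-/

namespace Pool.Agent.Q230.EM.Ur

open Relation Function Pool.Agent.Q230.EM Pool.Agent.Q230.EM.Mc
open Pool.Agent.Helper707.Flat Pool.Agent.Helper707.Prog Pool.Agent.Helper707.Num

/-- the number of a word -/
def cod (k : ℕ) (w : List (Fin k)) : ℕ :=
  List.foldl (fun (x : ℕ) (t : Fin k) => (k + 1) * x + (t.val + 1)) 0 w

theorem cod_snoc {k : ℕ} (w : List (Fin k)) (t : Fin k) :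
    cod k (w ++ [t]) = (k + 1) * cod k w + ((t : ℕ) + 1) := by simp [cod]

theorem cod_inj {k : ℕ} (w : List (Fin k)) : ∀ w', cod k w = cod k w' → w = w' := by
  have hm : ∀ (v : List (Fin k)) (t : Fin k), cod k (v ++ [t]) % (k + 1) = (t : ℕ) + 1 ∧
      cod k (v ++ [t]) / (k + 1) = cod k v := by
    intro v t
    rw [cod_snoc]
    have ht : (t : ℕ) + 1 < k + 1 := by omega
    constructor
    · rw [Nat.mul_add_mod, Nat.mod_eq_of_lt ht]
    · rw [Nat.mul_add_div (by omega), Nat.div_eq_of_lt ht, add_zero]
  induction w using List.reverseRecOn with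
  | nil =>
    intro w' h
    rcases List.eq_nil_or_concat w' with rfl | ⟨v, t, rfl⟩
    · rfl
    · have := (hm v t).1
      rw [List.concat_eq_append] at h
      rw [← h] at this
      simp [cod] at this
  | append_singleton v t ih =>
    intro w' h
    rcases List.eq_nil_or_concat w' with rfl | ⟨v', t', rfl⟩
    · have := (hm v t).1
      rw [h] at this
      simp [cod] at this
    · rw [List.concat_eq_append] at h ⊢
      have h1 := hm v t
      have h2 := hm v' t'
      rw [h] at h1
      have h3 : (t : ℕ) = t' := by omega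
      rw [ih v' (by rw [← h1.2, ← h2.2]), Fin.ext h3]

/-- the states of the machine: reading of the input, three phases of the update of the code, and
the program counter -/
inductive St (k L : ℕ)
  | inp | m1 (t : Fin k) | m2 (t : Fin k) | m3 (t : Fin k) | pc (l : Fin (L + 1))

instance {k L : ℕ} : Finite (St k L) := by
  refine Finite.of_injective (β := Option (Fin 3 × Fin k) ⊕ Fin (L + 1)) (fun
    | St.inp => Sum.inl none | St.m1 t => Sum.inl (some (0, t)) | St.m2 t => Sum.inl (some (1, t))
    | St.m3 t => Sum.inl (some (2, t)) | St.pc l => Sum.inr l) ?_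
  intro x y h
  cases x <;> cases y <;> simp_all

variable {k K L : ℕ}

/-- a register -/
def rg (K r : ℕ) : Fin (K + 2) := ⟨r % (K + 2), Nat.mod_lt _ (by omega)⟩

/-- a program position -/
def pt (L l : ℕ) : Fin (L + 1) := ⟨l % (L + 1), Nat.mod_lt _ (by omega)⟩

theorem pt_val {l : ℕ} (h : l ≤ L) : (pt L l : ℕ) = l := Nat.mod_eq_of_lt (by omega)

theorem rg_val {r : ℕ} (h : r < K) : (rg K r : ℕ) = r := Nat.mod_eq_of_lt (by omega)

/-- the instructions -/
inductive In (k K L : ℕ) (P : List Ins) : St k L × Op (Fin k) (Fin (K + 2)) × St k L → Prop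
  | go : In k K L P (St.inp, Op.add [] [], St.pc (pt L 0))
  | rd (t : Fin k) : In k K L P (St.inp, Op.add [] [], St.m1 t)
  | m1 (t : Fin k) : In k K L P (St.m1 t, Op.sub 0 (List.replicate (k + 1) 1), St.m1 t)
  | m1z (t : Fin k) : In k K L P (St.m1 t, Op.zero 0, St.m2 t)
  | m2 (t : Fin k) : In k K L P (St.m2 t, Op.sub 1 [0], St.m2 t)
  | m2z (t : Fin k) : In k K L P (St.m2 t, Op.zero 1, St.m3 t)
  | m3 (t : Fin k) : In k K L P (St.m3 t, Op.add (List.replicate ((t : ℕ) + 1) 0) [t], St.inp)
  | inc (l : Fin (L + 1)) (r t : ℕ) (h : P[(l : ℕ)]? = some (.inc r t)) :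
      In k K L P (St.pc l, Op.add [rg K r] [], St.pc (pt L t))
  | dec (l : Fin (L + 1)) (r t t' : ℕ) (h : P[(l : ℕ)]? = some (.dec r t t')) :
      In k K L P (St.pc l, Op.sub (rg K r) [], St.pc (pt L t))
  | decz (l : Fin (L + 1)) (r t t' : ℕ) (h : P[(l : ℕ)]? = some (.dec r t t')) :
      In k K L P (St.pc l, Op.zero (rg K r), St.pc (pt L t'))
  | jmp (l : Fin (L + 1)) (t : ℕ) (h : P[(l : ℕ)]? = some (.jmp t)) :
      In k K L P (St.pc l, Op.add [] [], St.pc (pt L t))

theorem in_finite (P : List Ins) : {x | In k K L P x}.Finite := by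
  let I := St k L × Op (Fin k) (Fin (K + 2)) × St k L
  have h1 : ({(St.inp, Op.add [] [], St.pc (pt L 0))} : Set I).Finite := Set.finite_singleton _
  have h2 : (Set.range fun t : Fin k => ((St.inp, Op.add [] [], St.m1 t) : I)).Finite :=
    Set.finite_range _
  have h3 : (Set.range fun t : Fin k =>
      ((St.m1 t, Op.sub 0 (List.replicate (k + 1) 1), St.m1 t) : I)).Finite := Set.finite_range _
  have h4 : (Set.range fun t : Fin k => ((St.m1 t, Op.zero 0, St.m2 t) : I)).Finite :=
    Set.finite_range _
  have h5 : (Set.range fun t : Fin k => ((St.m2 t, Op.sub 1 [0], St.m2 t) : I)).Finite :=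
    Set.finite_range _
  have h6 : (Set.range fun t : Fin k => ((St.m2 t, Op.zero 1, St.m3 t) : I)).Finite :=
    Set.finite_range _
  have h7 : (Set.range fun t : Fin k =>
      ((St.m3 t, Op.add (List.replicate ((t : ℕ) + 1) 0) [t], St.inp) : I)).Finite :=
    Set.finite_range _
  have h8 : (Set.range fun p : Fin (L + 1) × Fin (K + 2) × Fin (L + 1) =>
      ((St.pc p.1, Op.add [p.2.1] [], St.pc p.2.2) : I)).Finite := Set.finite_range _
  have h9 : (Set.range fun p : Fin (L + 1) × Fin (K + 2) × Fin (L + 1) =>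
      ((St.pc p.1, Op.sub p.2.1 [], St.pc p.2.2) : I)).Finite := Set.finite_range _
  have h10 : (Set.range fun p : Fin (L + 1) × Fin (K + 2) × Fin (L + 1) =>
      ((St.pc p.1, Op.zero p.2.1, St.pc p.2.2) : I)).Finite := Set.finite_range _
  have h11 : (Set.range fun p : Fin (L + 1) × Fin (L + 1) =>
      ((St.pc p.1, Op.add [] [], St.pc p.2) : I)).Finite := Set.finite_range _
  refine ((((((((((h1.union h2).union h3).union h4).union h5).union h6).union h7).union h8).union
    h9).union h10).union h11).subset ?_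
  rintro x hx
  have hx' : In k K L P x := hx
  clear hx
  simp only [Set.mem_union]
  cases hx' with
  | go => simp
  | rd t => simp
  | m1 t => simp
  | m1z t => simp
  | m2 t => simp
  | m2z t => simp
  | m3 t => simp
  | inc l r t h => simp
  | dec l r t t' h => simp
  | decz l r t t' h => simp
  | jmp l t h => simp

/-- the machine -/
def mch (k K L : ℕ) (P : List Ins) : Mch (Fin k) where
  Q := St k L
  J := Fin (K + 2)
  finQ := inferInstance
  finJ := inferInstance
  q0 := St.inp
  qf := St.pc (pt L L)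
  ins := {x | In k K L P x}
  fin_ins := in_finite P

/-- values of the first two registers, the others are zero -/
def c2 (K a b : ℕ) : Fin (K + 2) → ℕ := fun r => if r = 0 then a else if r = 1 then b else 0

theorem c2_add (a b a' b' : ℕ) : c2 K a b + c2 K a' b' = c2 K (a + a') (b + b') := by
  funext r
  simp only [c2, Pi.add_apply]
  split_ifs <;> rfl

theorem cn_rep {J : Type} (a j : J) (m : ℕ) : (a = j → cn (List.replicate m a) j = m) ∧
    (a ≠ j → cn (List.replicate m a) j = 0) := by
  classical
  unfold cn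
  constructor
  · rintro rfl
    rw [List.count_replicate]
    simp
  · intro h
    rw [List.count_replicate]
    simp [h]

theorem one_ne : (1 : Fin (K + 2)) ≠ 0 := by
  intro e
  have := congrArg Fin.val e
  simp at this

theorem cn_zero (m : ℕ) : cn (List.replicate m (0 : Fin (K + 2))) = c2 K m 0 := by
  funext r
  unfold c2
  by_cases h : r = 0
  · rw [(cn_rep _ _ _).1 h.symm, if_pos h]
  · rw [(cn_rep _ _ _).2 (fun e => h e.symm), if_neg h]
    split_ifs <;> rfl

theorem cn_one (m : ℕ) : cn (List.replicate m (1 : Fin (K + 2))) = c2 K 0 m := by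
  funext r
  unfold c2
  by_cases h : r = 1
  · rw [(cn_rep _ _ _).1 h.symm, if_pos h, h, if_neg one_ne]
  · rw [(cn_rep _ _ _).2 (fun e => h e.symm), if_neg h]
    split_ifs <;> rfl

theorem cn_nil {J : Type} : cn ([] : List J) = 0 := by funext j; simp [cn]

theorem cn_single {J : Type} (r j : J) : cn [r] j = 1 ∨ (r ≠ j ∧ cn [r] j = 0) := by
  classical
  unfold cn
  by_cases h : r = j
  · subst h; simp
  · right; simp [h]

theorem cn_self {J : Type} (r : J) : cn [r] r = 1 := by simp [cn]

theorem cn_ne {J : Type} {r j : J} (h : r ≠ j) : cn [r] j = 0 := by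
  classical
  unfold cn
  simp [h]

variable {P : List Ins}

/-- reachability -/
abbrev Rc (k K L : ℕ) (P : List Ins) (x y : St k L × (Fin (K + 2) → ℕ) × List (Fin k)) : Prop :=
  ReflTransGen (Stp (mch k K L P)) x y

theorem st_add {q q' : St k L} {v : List (Fin (K + 2))} {u' : List (Fin k)}
    (h : In k K L P (q, Op.add v u', q')) {n n' : Fin (K + 2) → ℕ} {u u'' : List (Fin k)}
    (hn : n' = n + cn v) (hu : u'' = u ++ u') : Stp (mch k K L P) (q, n, u) (q', n', u'') := by
  subst hn hu
  exact Stp.add (M := mch k K L P) h n u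

theorem st_sub {q q' : St k L} {v : List (Fin (K + 2))} {j : Fin (K + 2)}
    (h : In k K L P (q, Op.sub j v, q')) {n n' m : Fin (K + 2) → ℕ} {u : List (Fin k)}
    (hm : n = cn [j] + m) (hn : n' = m + cn v) : Stp (mch k K L P) (q, n, u) (q', n', u) := by
  subst hn
  exact Stp.sub (M := mch k K L P) h n m hm u

theorem st_zero {q q' : St k L} {j : Fin (K + 2)}
    (h : In k K L P (q, Op.zero j, q')) {n : Fin (K + 2) → ℕ} {u : List (Fin k)}
    (hn : n j = 0) : Stp (mch k K L P) (q, n, u) (q', n, u) :=
  Stp.zero (M := mch k K L P) h n hn u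

theorem stp_inv {x y : (mch k K L P).Q × ((mch k K L P).J → ℕ) × List (Fin k)}
    (h : Stp (mch k K L P) x y) :
    (∃ (q q' : St k L) (v : List (Fin (K + 2))) (u' u : List (Fin k)) (n : Fin (K + 2) → ℕ),
      In k K L P (q, Op.add v u', q') ∧ x = (q, n, u) ∧ y = (q', n + cn v, u ++ u')) ∨
    (∃ (q q' : St k L) (j : Fin (K + 2)) (v : List (Fin (K + 2))) (u : List (Fin k))
      (n m : Fin (K + 2) → ℕ), In k K L P (q, Op.sub j v, q') ∧ n = cn [j] + m ∧ x = (q, n, u) ∧
      y = (q', m + cn v, u)) ∨
    (∃ (q q' : St k L) (j : Fin (K + 2)) (u : List (Fin k)) (n : Fin (K + 2) → ℕ),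
      In k K L P (q, Op.zero j, q') ∧ n j = 0 ∧ x = (q, n, u) ∧ y = (q', n, u)) := by
  cases h with
  | @add q q' v u' h n u => exact Or.inl ⟨q, q', v, u', u, n, h, rfl, rfl⟩
  | @sub q q' j v h n m hn u => exact Or.inr (Or.inl ⟨q, q', j, v, u, n, m, h, hn, rfl, rfl⟩)
  | @zero q q' j h n hn u => exact Or.inr (Or.inr ⟨q, q', j, u, n, h, hn, rfl, rfl⟩)

theorem loop1 (t : Fin k) (u : List (Fin k)) (a : ℕ) : ∀ b : ℕ,
    Rc k K L P (St.m1 t, c2 K a b, u) (St.m1 t, c2 K 0 (b + (k + 1) * a), u) := by
  induction a with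
  | zero => intro b; simpa using ReflTransGen.refl
  | succ a ih =>
    intro b
    have h1 : Stp (mch k K L P) (St.m1 t, c2 K (a + 1) b, u)
        (St.m1 t, c2 K a (b + (k + 1)), u) := by
      have : cn [(0 : Fin (K + 2))] = c2 K 1 0 := cn_zero 1
      refine st_sub (In.m1 t) (m := c2 K a b) ?_ ?_
      · rw [this, c2_add, zero_add, add_comm 1 a]
      · rw [cn_one, c2_add, add_zero]
    refine ReflTransGen.head h1 ?_
    have := ih (b + (k + 1))
    rw [show b + (k + 1) * (a + 1) = b + (k + 1) + (k + 1) * a by ring]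
    exact this

theorem loop2 (t : Fin k) (u : List (Fin k)) (b : ℕ) : ∀ a : ℕ,
    Rc k K L P (St.m2 t, c2 K a b, u) (St.m2 t, c2 K (a + b) 0, u) := by
  induction b with
  | zero => intro a; exact ReflTransGen.refl
  | succ b ih =>
    intro a
    have h1 : Stp (mch k K L P) (St.m2 t, c2 K a (b + 1), u)
        (St.m2 t, c2 K (a + 1) b, u) := by
      have h3 : cn [(1 : Fin (K + 2))] = c2 K 0 1 := cn_one 1
      have h2 : cn [(0 : Fin (K + 2))] = c2 K 1 0 := cn_zero 1
      refine st_sub (In.m2 t) (m := c2 K a b) ?_ ?_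
      · rw [h3, c2_add, zero_add, add_comm 1 b]
      · rw [h2, c2_add, add_zero]
    refine ReflTransGen.head h1 ?_
    have := ih (a + 1)
    rw [show a + (b + 1) = a + 1 + b by ring]
    exact this

theorem reach_inp (u : List (Fin k)) :
    Rc k K L P (St.inp, 0, []) (St.inp, c2 K (cod k u) 0, u) := by
  induction u using List.reverseRecOn with
  | nil =>
    have : c2 K 0 0 = 0 := by funext r; simp [c2]
    exact (congrArg (fun z => Rc k K L P (St.inp, 0, []) (St.inp, z, [])) this).mpr
      ReflTransGen.refl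
  | append_singleton u t ih =>
    refine ih.trans ?_
    set x := cod k u with hx
    have s1 : Stp (mch k K L P) (St.inp, c2 K x 0, u) (St.m1 t, c2 K x 0, u) :=
      st_add (In.rd t) (by rw [cn_nil, add_zero]) (List.append_nil _).symm
    have s2 := loop1 (K := K) (L := L) (P := P) t u x 0
    have s3 : Stp (mch k K L P) (St.m1 t, c2 K 0 (0 + (k + 1) * x), u)
        (St.m2 t, c2 K 0 (0 + (k + 1) * x), u) :=
      st_zero (In.m1z t) (by simp [c2])
    have s4 := loop2 (K := K) (L := L) (P := P) t u (0 + (k + 1) * x) 0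
    have s5 : Stp (mch k K L P) (St.m2 t, c2 K (0 + (0 + (k + 1) * x)) 0, u)
        (St.m3 t, c2 K (0 + (0 + (k + 1) * x)) 0, u) :=
      st_zero (In.m2z t) (by simp [c2])
    have s6 : Stp (mch k K L P) (St.m3 t, c2 K (0 + (0 + (k + 1) * x)) 0, u)
        (St.inp, c2 K (cod k (u ++ [t])) 0, u ++ [t]) :=
      st_add (In.m3 t) (by rw [cn_zero, c2_add, cod_snoc, ← hx, add_zero, zero_add, zero_add]) rfl
    exact (((((ReflTransGen.single s1).trans s2).tail s3).trans s4).tail s5).tail s6

theorem step_le (hP : ∀ i ∈ P, Ok K L i) {x : ℕ × (ℕ → ℕ)} (h : x.1 ≤ L) :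
    (step P x).1 ≤ L := by
  unfold step
  cases hi : P[x.1]? with
  | none => exact h
  | some i =>
    have hok := hP i (List.mem_of_getElem? hi)
    cases i with
    | inc r t => exact hok.2
    | dec r t t' =>
      simp only
      split_ifs
      · exact hok.2.2
      · exact hok.2.1
    | jmp t => exact hok

/-- the registers of the machine agree with the registers of the program -/
def Ag (n : Fin (K + 2) → ℕ) (σ : ℕ → ℕ) : Prop := ∀ r, n r = σ r

theorem pc_step (hP : ∀ i ∈ P, Ok K L i) {l : ℕ} {σ : ℕ → ℕ} (hl : l ≤ L)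
    {n : Fin (K + 2) → ℕ} (hn : Ag n σ) (u : List (Fin k)) :
    ∃ n', Ag n' (step P (l, σ)).2 ∧
      Rc k K L P (St.pc (pt L l), n, u) (St.pc (pt L (step P (l, σ)).1), n', u) := by
  cases hi : P[l]? with
  | none =>
    have : step P (l, σ) = (l, σ) := by simp [step, hi]
    rw [this]
    exact ⟨n, hn, ReflTransGen.refl⟩
  | some i =>
    have hok := hP i (List.mem_of_getElem? hi)
    have hl' : (pt L l : ℕ) = l := pt_val hl
    cases i with
    | inc r t =>
      have e : step P (l, σ) = (t, update σ r (σ r + 1)) := by simp [step, hi]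
      rw [e]
      refine ⟨n + cn [rg K r], ?_, ReflTransGen.single ?_⟩
      · intro j
        simp only [Pi.add_apply, update_apply]
        by_cases h : (j : ℕ) = r
        · rw [if_pos h]
          have : rg K r = j := Fin.ext (by rw [rg_val hok.1, h])
          rw [this, cn_self, hn j, h]
        · rw [if_neg h]
          have : rg K r ≠ j := fun e => h (by rw [← e, rg_val hok.1])
          rw [cn_ne this, hn j, add_zero]
      · exact st_add (In.inc (pt L l) r t (by rw [hl']; exact hi)) rfl (List.append_nil _).symm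
    | dec r t t' =>
      have hr : (rg K r : ℕ) = r := rg_val hok.1
      by_cases h0 : σ r = 0
      · have e : step P (l, σ) = (t', σ) := by simp [step, hi, h0]
        rw [e]
        refine ⟨n, hn, ReflTransGen.single ?_⟩
        exact st_zero (In.decz (pt L l) r t t' (by rw [hl']; exact hi)) (by rw [hn, hr, h0])
      · have e : step P (l, σ) = (t, update σ r (σ r - 1)) := by simp [step, hi, h0]
        rw [e]
        have hn' : n = cn [rg K r] + (n - cn [rg K r]) := by
          funext j
          simp only [Pi.add_apply, Pi.sub_apply]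
          rcases cn_single (rg K r) j with h | ⟨-, h⟩
          · by_cases hj : rg K r = j
            · have : n j ≠ 0 := by rw [hn, ← hj, hr]; exact h0
              omega
            · rw [cn_ne hj] at h; omega
          · omega
        refine ⟨n - cn [rg K r], ?_, ReflTransGen.single ?_⟩
        · intro j
          simp only [Pi.sub_apply, update_apply]
          by_cases h : (j : ℕ) = r
          · rw [if_pos h]
            have : rg K r = j := Fin.ext (by rw [hr, h])
            rw [this, cn_self, hn j, h]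
          · rw [if_neg h]
            have : rg K r ≠ j := fun e => h (by rw [← e, hr])
            rw [cn_ne this, hn j, Nat.sub_zero]
        · exact st_sub (In.dec (pt L l) r t t' (by rw [hl']; exact hi)) hn'
            (by rw [cn_nil, add_zero])
    | jmp t =>
      have e : step P (l, σ) = (t, σ) := by simp [step, hi]
      rw [e]
      refine ⟨n, hn, ReflTransGen.single ?_⟩
      exact st_add (In.jmp (pt L l) t (by rw [hl']; exact hi)) (by rw [cn_nil, add_zero])
        (List.append_nil _).symm

/-- the start configuration of the program -/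
abbrev s0 (x : ℕ) : ℕ × (ℕ → ℕ) := (0, sx x 0 0)

theorem ag_start (x : ℕ) : Ag (c2 K x 0) (sx x 0 0) := by
  intro r
  unfold c2 sx
  by_cases h : r = 0
  · subst h; simp
  · have h' : ¬ (r : ℕ) = 0 := fun e => h (Fin.ext e)
    rw [if_neg h, if_neg h']
    split_ifs <;> rfl

theorem forth (hP : ∀ i ∈ P, Ok K L i) (u : List (Fin k)) (m : ℕ) :
    ((step P)^[m] (s0 (cod k u))).1 ≤ L ∧ ∃ n, Ag n ((step P)^[m] (s0 (cod k u))).2 ∧
      Rc k K L P (St.inp, 0, []) (St.pc (pt L ((step P)^[m] (s0 (cod k u))).1), n, u) := by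
  induction m with
  | zero =>
    refine ⟨Nat.zero_le _, c2 K (cod k u) 0, ag_start _, (reach_inp u).tail ?_⟩
    exact st_add In.go (by rw [cn_nil, add_zero]) (List.append_nil _).symm
  | succ m ih =>
    obtain ⟨h1, n, hn, hr⟩ := ih
    rw [iterate_succ_apply']
    set x := (step P)^[m] (s0 (cod k u)) with hx
    obtain ⟨n', hn', hr'⟩ := pc_step (k := k) hP h1 hn u
    exact ⟨step_le hP h1, n', hn', hr.trans hr'⟩

/-- the invariant of the machine -/
def Iv (k K L : ℕ) (P : List Ins) : St k L × (Fin (K + 2) → ℕ) × List (Fin k) → Prop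
  | (St.inp, n, u) => n = c2 K (cod k u) 0
  | (St.m1 _, n, u) => ∃ a b, n = c2 K a b ∧ (k + 1) * a + b = (k + 1) * cod k u
  | (St.m2 _, n, u) => ∃ a b, n = c2 K a b ∧ a + b = (k + 1) * cod k u
  | (St.m3 _, n, u) => n = c2 K ((k + 1) * cod k u) 0
  | (St.pc l, n, u) => ∃ m σ, (step P)^[m] (s0 (cod k u)) = ((l : ℕ), σ) ∧ Ag n σ

theorem c2_cancel {a b : ℕ} {m : Fin (K + 2) → ℕ} {x y : ℕ} (h : c2 K a b = c2 K x y + m) :
    ∃ a' b', a = x + a' ∧ b = y + b' ∧ m = c2 K a' b' := by
  have h0 := congrFun h 0
  have h1 := congrFun h 1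
  have e10 : (1 : Fin (K + 2)) ≠ 0 := one_ne
  simp only [c2, Pi.add_apply, if_true, if_neg e10] at h0 h1
  refine ⟨m 0, m 1, h0, h1, ?_⟩
  funext r
  have hr := congrFun h r
  simp only [c2, Pi.add_apply] at hr ⊢
  split_ifs at hr ⊢ with h2 h3
  · rw [h2]
  · rw [h3]
  · omega

theorem iv_step (hP : ∀ i ∈ P, Ok K L i) {x y : St k L × (Fin (K + 2) → ℕ) × List (Fin k)}
    (hx : Iv k K L P x) (h : Stp (mch k K L P) x y) : Iv k K L P y := by
  have z0 : cn [(0 : Fin (K + 2))] = c2 K 1 0 := cn_zero 1
  have z1 : cn [(1 : Fin (K + 2))] = c2 K 0 1 := cn_one 1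
  rcases stp_inv h with ⟨q, q', v, u', u, n, h', rfl, rfl⟩ | ⟨q, q', j, v, u, n, m, h', hn, rfl, rfl⟩ |
    ⟨q, q', j, u, n, h', hn, rfl, rfl⟩
  · clear h
    cases h' with
    | go =>
      have hx' : n = c2 K (cod k u) 0 := hx
      refine ⟨0, sx (cod k u) 0 0, ?_, ?_⟩
      · rw [List.append_nil]
        rfl
      · rw [cn_nil, add_zero, hx']
        exact ag_start _
    | rd t =>
      have hx' : n = c2 K (cod k u) 0 := hx
      refine ⟨cod k u, 0, ?_, ?_⟩
      · rw [cn_nil, add_zero, hx']
      · rw [List.append_nil]; rfl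
    | m3 t =>
      have hx' : n = c2 K ((k + 1) * cod k u) 0 := hx
      show n + cn (List.replicate ((t : ℕ) + 1) 0) = c2 K (cod k (u ++ [t])) 0
      rw [hx', cn_zero, c2_add, cod_snoc]
    | inc l r t h =>
      obtain ⟨m, σ, hm, hn⟩ := hx
      have hok := hP _ (List.mem_of_getElem? h)
      refine ⟨m + 1, update σ r (σ r + 1), ?_, ?_⟩
      · rw [List.append_nil, iterate_succ_apply', hm]
        simp only [step, h]
        rw [pt_val hok.2]
      · intro j
        simp only [Pi.add_apply, update_apply]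
        by_cases h : (j : ℕ) = r
        · rw [if_pos h]
          have : rg K r = j := Fin.ext (by rw [rg_val hok.1, h])
          rw [this, cn_self, hn j, h]
        · rw [if_neg h]
          have : rg K r ≠ j := fun e => h (by rw [← e, rg_val hok.1])
          rw [cn_ne this, hn j, add_zero]
    | jmp l t h =>
      obtain ⟨m, σ, hm, hn⟩ := hx
      have hok := hP _ (List.mem_of_getElem? h)
      refine ⟨m + 1, σ, ?_, ?_⟩
      · rw [List.append_nil, iterate_succ_apply', hm]
        simp only [step, h]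
        rw [pt_val hok]
      · rw [cn_nil, add_zero]
        exact hn
  · clear h
    cases h' with
    | m1 t =>
      obtain ⟨a, b, hab, hs⟩ := hx
      have hn' : n = c2 K 1 0 + m := by rw [← z0]; exact hn
      rw [hab] at hn'
      obtain ⟨a', b', rfl, rfl, rfl⟩ := c2_cancel hn'
      refine ⟨a', b' + (k + 1), ?_, ?_⟩
      · rw [cn_one, c2_add, add_zero]
      · rw [← hs]; ring
    | m2 t =>
      obtain ⟨a, b, hab, hs⟩ := hx
      have hn' : n = c2 K 0 1 + m := by rw [← z1]; exact hn
      rw [hab] at hn'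
      obtain ⟨a', b', rfl, rfl, rfl⟩ := c2_cancel hn'
      refine ⟨a' + 1, b', ?_, ?_⟩
      · rw [z0, c2_add, add_zero]
      · rw [← hs]; ring
    | dec l r t t' h =>
      obtain ⟨i, σ, hm, hg⟩ := hx
      have hok := hP _ (List.mem_of_getElem? h)
      have hr : (rg K r : ℕ) = r := rg_val hok.1
      have hn' : n = cn [rg K r] + m := hn
      have h0 : σ r ≠ 0 := by
        rw [← hr, ← hg (rg K r), hn', Pi.add_apply, cn_self]
        omega
      refine ⟨i + 1, update σ r (σ r - 1), ?_, ?_⟩
      · rw [iterate_succ_apply', hm]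
        simp only [step, h, if_neg h0]
        rw [pt_val hok.2.1]
      · rw [cn_nil, add_zero]
        intro j
        rw [update_apply]
        have hj := congrFun hn' j
        rw [Pi.add_apply] at hj
        by_cases h : (j : ℕ) = r
        · rw [if_pos h]
          have : rg K r = j := Fin.ext (by rw [hr, h])
          rw [this, cn_self, hg j, h] at hj
          omega
        · rw [if_neg h]
          have : rg K r ≠ j := fun e => h (by rw [← e, hr])
          rw [cn_ne this, hg j] at hj
          omega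
  · clear h
    have e10 : (1 : Fin (K + 2)) ≠ 0 := one_ne
    cases h' with
    | m1z t =>
      obtain ⟨a, b, rfl, hs⟩ := hx
      refine ⟨a, b, rfl, ?_⟩
      have h0 : a = 0 := by simpa [c2] using hn
      rw [h0] at hs ⊢
      simpa using hs
    | m2z t =>
      obtain ⟨a, b, rfl, hs⟩ := hx
      have h0 : b = 0 := by simpa [c2, e10] using hn
      show c2 K a b = c2 K ((k + 1) * cod k u) 0
      rw [h0, ← hs, h0, add_zero]
    | decz l r t t' h =>
      obtain ⟨i, σ, hm, hg⟩ := hx
      have hok := hP _ (List.mem_of_getElem? h)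
      have hr : (rg K r : ℕ) = r := rg_val hok.1
      have h0 : σ r = 0 := by rw [← hr, ← hg (rg K r)]; exact hn
      refine ⟨i + 1, σ, ?_, hg⟩
      rw [iterate_succ_apply', hm]
      simp only [step, h, if_pos h0]
      rw [pt_val hok.2.2]

theorem iv_steps (hP : ∀ i ∈ P, Ok K L i) {y : St k L × (Fin (K + 2) → ℕ) × List (Fin k)}
    (h : Rc k K L P (St.inp, 0, []) y) : Iv k K L P y := by
  induction h with
  | refl =>
    show (0 : Fin (K + 2) → ℕ) = c2 K 0 0
    funext r; simp [c2]
  | tail _ hs ih => exact iv_step hP ih hs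

theorem mch_out (hP : ∀ i ∈ P, Ok K L i) (u : List (Fin k)) :
    u ∈ Out (mch k K L P) ↔ ∃ m, ((step P)^[m] (s0 (cod k u))).1 = L := by
  constructor
  · rintro ⟨n, hn⟩
    obtain ⟨m, σ, hm, -⟩ := iv_steps hP hn
    exact ⟨m, by rw [hm]; exact pt_val le_rfl⟩
  · rintro ⟨m, hm⟩
    obtain ⟨-, n, -, hn⟩ := forth (k := k) hP u m
    rw [hm] at hn
    exact ⟨n, hn⟩

theorem exists_mch (k : ℕ) {f : List.Vector ℕ 2 → ℕ} (hf : Nat.Primrec' f) :
    ∃ M : Mch (Fin k), ∀ u, u ∈ Out M ↔ ∃ m, f (m ::ᵥ cod k u ::ᵥ List.Vector.nil) = 0 := by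
  obtain ⟨body, hb⟩ := search hf
  obtain ⟨K, hK⟩ := code_ok (prog body)
  have hP : ∀ i ∈ code (prog body) 0, Ok K (len (prog body)) i := fun i hi =>
    (hK 0 i hi).mono le_rfl (by omega)
  refine ⟨mch k K (len (prog body)) (code (prog body) 0), fun u => ?_⟩
  rw [mch_out hP, halting_iff hb]

/-! ### recursively enumerable languages -/

theorem primrec_cod (k : ℕ) : Primrec (cod k) := by
  have h : Primrec₂ fun (_ : List (Fin k)) (p : ℕ × Fin k) => (k + 1) * p.1 + ((p.2 : ℕ) + 1) := by
    refine Primrec.nat_add.comp (Primrec.nat_mul.comp (Primrec.const (k + 1))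
      (Primrec.fst.comp Primrec.snd)) (Primrec.succ.comp (Primrec.fin_val.comp
        (Primrec.snd.comp Primrec.snd)))
  exact (Primrec.list_foldl Primrec.id (Primrec.const 0) h).of_eq fun w => by simp [cod]

open Nat.Partrec in
theorem exists_primrec (k : ℕ) (R : Set (List (Fin k))) (hR : REPred fun u => u ∈ R) :
    ∃ f : List.Vector ℕ 2 → ℕ, Nat.Primrec' f ∧
      ∀ u, u ∈ R ↔ ∃ m, f (m ::ᵥ cod k u ::ᵥ List.Vector.nil) = 0 := by
  have hR' : Partrec fun u : List (Fin k) => Part.assert (u ∈ R) fun _ => Part.some () := hR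
  obtain ⟨c, hc⟩ := Code.exists_code.1 hR'
  have hdom : ∀ u : List (Fin k), (Code.eval c (Encodable.encode u)).Dom ↔ u ∈ R := by
    intro u
    rw [hc]
    simp [Part.assert]
  let F : List.Vector ℕ 2 → Bool := fun v =>
    ((Encodable.decode (α := List (Fin k)) v.head.unpair.1).map fun w =>
      (decide (cod k w = v.tail.head) &&
        (Code.evaln v.head.unpair.2 c (Encodable.encode w)).isSome)).getD false
  have hF : Primrec F := by
    have h1 : Primrec fun v : List.Vector ℕ 2 =>
        Encodable.decode (α := List (Fin k)) v.head.unpair.1 :=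
      Primrec.decode.comp (Primrec.fst.comp (Primrec.unpair.comp Primrec.vector_head))
    have h2 : Primrec₂ fun (v : List.Vector ℕ 2) (w : List (Fin k)) =>
        (decide (cod k w = v.tail.head) &&
          (Code.evaln v.head.unpair.2 c (Encodable.encode w)).isSome) := by
      refine Primrec.and.comp ?_ ?_
      · refine (Primrec.eq (α := ℕ)).decide.comp ((primrec_cod k).comp Primrec.snd) ?_
        exact Primrec.vector_head.comp (Primrec.vector_tail.comp Primrec.fst)
      · refine Primrec.option_isSome.comp ?_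
        have h3 : Primrec fun p : List.Vector ℕ 2 × List (Fin k) =>
            (((p.1.head.unpair.2, c), Encodable.encode p.2) : (ℕ × Code) × ℕ) :=
          Primrec.pair (Primrec.pair (Primrec.snd.comp (Primrec.unpair.comp
            (Primrec.vector_head.comp Primrec.fst))) (Primrec.const c))
            (Primrec.encode.comp Primrec.snd)
        exact Code.primrec_evaln.comp h3
    exact Primrec.option_getD.comp (Primrec.option_map h1 h2) (Primrec.const false)
  refine ⟨fun v => if F v = true then 0 else 1, Nat.Primrec'.of_prim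
    (Primrec.ite (Primrec.eq.comp hF (Primrec.const true)) (Primrec.const 0) (Primrec.const 1)),
    fun u => ?_⟩
  have hval : ∀ m, (if F (m ::ᵥ cod k u ::ᵥ List.Vector.nil) = true then 0 else 1) = 0 ↔
      ∃ w, Encodable.decode (α := List (Fin k)) m.unpair.1 = some w ∧ cod k w = cod k u ∧
        (Code.evaln m.unpair.2 c (Encodable.encode w)).isSome = true := by
    intro m
    simp only [F, List.Vector.head_cons, List.Vector.tail_cons]
    cases hd : Encodable.decode (α := List (Fin k)) m.unpair.1 with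
    | none => simp
    | some w =>
      cases he : Code.evaln m.unpair.2 c (Encodable.encode w) <;> simp [he]
  simp only [hval]
  constructor
  · intro hu
    obtain ⟨y, hy⟩ := Part.dom_iff_mem.1 ((hdom u).2 hu)
    obtain ⟨s, hs⟩ := Code.evaln_complete.1 hy
    refine ⟨Nat.pair (Encodable.encode u) s, u, ?_, rfl, ?_⟩
    · rw [Nat.unpair_pair]; exact Encodable.encodek u
    · rw [Nat.unpair_pair]
      exact Option.isSome_iff_exists.2 ⟨y, hs⟩
  · rintro ⟨m, w, -, hw, h⟩
    have : w = u := cod_inj w u hw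
    subst this
    obtain ⟨y, hy⟩ := Option.isSome_iff_exists.1 h
    exact (hdom w).1 (Part.dom_iff_mem.2 ⟨y, Code.evaln_complete.2 ⟨_, hy⟩⟩)

/-- Every recursively enumerable language over `Fin k` is obtained from a mode 1 language. -/
theorem re_coded (k : ℕ) (R : Set (List (Fin k))) (hR : REPred fun u => u ∈ R) :
    ∃ G : EMG (Fin k ⊕ Bool) 2, ∀ u, acu u ∈ G.Lang true ↔ u ∈ R := by
  obtain ⟨f, hf, h⟩ := exists_primrec k R hR
  obtain ⟨M, hM⟩ := exists_mch k hf
  refine ⟨gr M, fun u => ?_⟩
  rw [gr_lang, hM, h]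

end Pool.Agent.Q230.EM.Ur
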